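import Pool.Agent.PKJ.Targets

/-!
BDD: the subring of bounded Laurent series, it contains the expansions of the functions.
-/

set_option autoImplicit false

namespace PKJ

open MvPolynomial RD PKD

namespace BDD_

variable {Ω : Type} [Field Ω] {v : AbsoluteValue Ω ℝ}

theorem na_sum (hv : IsNonarchimedean v) {ι : Type*} (s : Finset ι) (f : ι → Ω) {K : ℝ}
    (hK : 0 ≤ K) (h : ∀ i ∈ s, v (f i) ≤ K) : v (∑ i ∈ s, f i) ≤ K := by
  classical
  induction s using Finset.induction_on with
  | empty => simpa using hK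
  | insert a s ha ih =>
    rw [Finset.sum_insert ha]
    exact (hv _ _).trans (max_le (h a (Finset.mem_insert_self _ _))
      (ih fun i hi => h i (Finset.mem_insert_of_mem hi)))

theorem bd_mul (hv : IsNonarchimedean v) {F G : LaurentSeries Ω} (hF : Bd v F) (hG : Bd v G) :
    Bd v (F * G) := by
  obtain ⟨C, hC⟩ := hF
  obtain ⟨C', hC'⟩ := hG
  have h0 : 0 ≤ C := (v.nonneg _).trans (hC 0)
  have h0' : 0 ≤ C' := (v.nonneg _).trans (hC' 0)
  refine ⟨C * C', fun n => ?_⟩
  rw [HahnSeries.coeff_mul]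
  refine na_sum hv _ _ (mul_nonneg h0 h0') fun ij _ => ?_
  rw [map_mul]
  exact mul_le_mul (hC _) (hC' _) (v.nonneg _) h0

theorem bd_add (hv : IsNonarchimedean v) {F G : LaurentSeries Ω} (hF : Bd v F) (hG : Bd v G) :
    Bd v (F + G) := by
  obtain ⟨C, hC⟩ := hF
  obtain ⟨C', hC'⟩ := hG
  refine ⟨max C C', fun n => ?_⟩
  rw [HahnSeries.coeff_add]
  exact (hv _ _).trans (max_le_max (hC n) (hC' n))

theorem bd_neg {F : LaurentSeries Ω} (hF : Bd v F) : Bd v (-F) := by
  obtain ⟨C, hC⟩ := hF
  refine ⟨C, fun n => ?_⟩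
  rw [HahnSeries.coeff_neg, v.map_neg]
  exact hC n

theorem bd_single (k : ℤ) (c : Ω) : Bd v (HahnSeries.single k c : LaurentSeries Ω) := by
  refine ⟨v c, fun n => ?_⟩
  rw [HahnSeries.coeff_single]
  split_ifs
  · exact le_refl _
  · rw [map_zero]
    exact v.nonneg _

/-- the subring of bounded Laurent series -/
def ring (hv : IsNonarchimedean v) : Subring (LaurentSeries Ω) where
  carrier := {F | Bd v F}
  mul_mem' := fun hF hG => bd_mul hv hF hG
  one_mem' := bd_single 0 1
  add_mem' := fun hF hG => bd_add hv hF hG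
  zero_mem' := ⟨0, fun n => by rw [HahnSeries.coeff_zero, map_zero]⟩
  neg_mem' := fun hF => bd_neg hF

theorem bd_ps {U : PowerSeries Ω} (hU : Ib v U) : Bd v (U : LaurentSeries Ω) := by
  refine ⟨1, fun n => ?_⟩
  rcases le_or_gt 0 n with h | h
  · obtain ⟨k, rfl⟩ := Int.eq_ofNat_of_zero_le h
    rw [LaurentSeries.coeff_coe_powerSeries]
    exact hU k
  · have h1 : (U : LaurentSeries Ω).coeff n = 0 := by
      rw [PowerSeries.coeff_coe]
      rw [if_pos h]
    rw [h1, map_zero]
    exact zero_le_one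

end BDD_

open BDD_ in
/-- BDD -/
theorem p_BDD : T_BDD := by
  intro Ω _ v ℓ m _ hv a U φ hφ
  have hX : φ (AdjoinRoot.of _ Polynomial.X) ∈ ring hv := by
    rw [hφ.phX]
    exact bd_single _ _
  have hC : ∀ c : Ω, φ (AdjoinRoot.of _ (Polynomial.C c)) ∈ ring hv := by
    intro c
    rw [hφ.phC]
    exact bd_single _ _
  have hY : φ (AdjoinRoot.root _) ∈ ring hv := by
    rw [hφ.phY]
    exact bd_mul hv (bd_single _ _) (bd_ps hφ.ui)
  have h1 : ∀ P : Polynomial Ω, φ (AdjoinRoot.of _ P) ∈ ring hv := by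
    intro P
    induction P using Polynomial.induction_on' with
    | add p q hp hq =>
      rw [map_add, map_add]
      exact Subring.add_mem _ hp hq
    | monomial n c =>
      rw [← Polynomial.C_mul_X_pow_eq_monomial, map_mul, map_mul, map_pow, map_pow]
      exact Subring.mul_mem _ (hC c) (Subring.pow_mem _ hX n)
  have h2 : ∀ g, φ g ∈ ring hv := by
    intro g
    induction g using AdjoinRoot.induction_on with
    | ih P =>
      induction P using Polynomial.induction_on' with
      | add p q hp hq =>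
        rw [map_add, map_add]
        exact Subring.add_mem _ hp hq
      | monomial n c =>
        rw [← Polynomial.C_mul_X_pow_eq_monomial, map_mul, map_mul, map_pow, map_pow,
          AdjoinRoot.mk_C, AdjoinRoot.mk_X]
        exact Subring.mul_mem _ (h1 c) (Subring.pow_mem _ hY n)
  exact ⟨ring hv, φ.codRestrict (ring hv) h2, fun F => Iff.rfl, fun g => rfl⟩

end PKJ
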