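import Pool.Agent.PKJ.Targets
import Pool.Agent.PKE.DAT

/-!
DTJ: the residual data at all the embeddings of the cyclotomic field
-/

set_option autoImplicit false

namespace PKJ

open MvPolynomial RD PKD

namespace DTJ_

/-- Frobenius on residual data -/
def frp {g : ℕ} {k : Type} [Field k] (q : ℕ) (D : PKE.Dat g k) : PKE.Dat g k :=
  fun S => ((D S).1, fun i i' => (D S).2 i i' ^ q)

lemma rz_frp {F k : Type} [Field F] [Field k] {g : ℕ} (w w' : F → ℝ) (r r' : F → k) (q : ℕ)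
    (h : ∀ x, w x ≤ 1 → w' x ≤ 1 ∧ r' x = r x ^ q) (U : Submodule F (Fin g → F)) (e : ℕ)
    (D : PKE.Dat g k) (hD : PKE.Rz w r U e D) : PKE.Rz w' r' U e (frp q D) := by
  intro S
  obtain ⟨h1, h2, τ, hτ⟩ := hD S
  refine ⟨h1, h2, τ, ?_⟩
  intro i hi
  obtain ⟨a1, a2, a3, a4, a5⟩ := hτ i hi
  refine ⟨a1, a2, a3, a4, ?_⟩
  intro i'
  obtain ⟨b1, b2⟩ := h (τ i i') (a5 i').1
  refine ⟨b1, ?_⟩
  show r' (τ i i') = (D S).2 i i' ^ q
  rw [b2, (a5 i').2]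

/-- an embedding is determined by the image of the generator -/
lemma emb_ext {Ω : Type} [Field Ω] [CharZero Ω] (ζ : Ω)
    (ψ ψ' : IntermediateField.adjoin ℚ {ζ} →+* Ω)
    (h : ψ (IntermediateField.AdjoinSimple.gen ℚ ζ) =
      ψ' (IntermediateField.AdjoinSimple.gen ℚ ζ)) : ψ = ψ' := by
  have h1 : ψ.toRatAlgHom = ψ'.toRatAlgHom := by
    refine IntermediateField.adjoin_algHom_ext ℚ ?_
    intro x hx
    have hx' : x = ζ := hx
    subst hx'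
    exact h
  ext x
  exact congrArg (fun φ : IntermediateField.adjoin ℚ {ζ} →ₐ[ℚ] Ω => φ x) h1

/-- Frobenius, iterated -/
lemma iter (h3 : T_FRJ) (h4 : T_EMJ) {Ω k : Type} [Field Ω] [CharZero Ω] [Field k] (p : ℕ)
    (v : AbsoluteValue Ω ℝ) (r : Ω → k) (hr : Red v r) (hp : p.Prime) (hvp : v (p : Ω) < 1)
    (ℓ : ℕ) [Fact ℓ.Prime] (hpl : p ≠ ℓ) (ζ : Ω) (hζ : IsPrimitiveRoot ζ ℓ)
    (n : ℕ) (hn : ¬ ℓ ∣ n) (i : ℕ) :
    ∀ ψ ψ' : IntermediateField.adjoin ℚ {ζ} →+* Ω,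
      ψ (IntermediateField.AdjoinSimple.gen ℚ ζ) = ζ ^ n →
      ψ' (IntermediateField.AdjoinSimple.gen ℚ ζ) =
        ψ (IntermediateField.AdjoinSimple.gen ℚ ζ) ^ (p ^ i) →
      ∀ x, v (ψ x) ≤ 1 → v (ψ' x) ≤ 1 ∧ r (ψ' x) = r (ψ x) ^ (p ^ i) := by
  have hl : ℓ.Prime := Fact.out
  induction i with
  | zero =>
    intro ψ ψ' _ h x hx
    rw [pow_zero, pow_one] at h
    have := emb_ext ζ ψ' ψ h
    subst this
    exact ⟨hx, by rw [pow_zero, pow_one]⟩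
  | succ i ih =>
    intro ψ ψ' h0 h x hx
    have hni : ¬ ℓ ∣ n * p ^ i := by
      intro hd
      rcases (Nat.Prime.dvd_mul hl).1 hd with h1 | h1
      · exact hn h1
      · exact hpl ((Nat.prime_dvd_prime_iff_eq hl hp).1 (hl.dvd_of_dvd_pow h1)).symm
    obtain ⟨ψ1, hψ1⟩ := h4 Ω ℓ ζ hζ (n * p ^ i) hni
    have e1 : ψ1 (IntermediateField.AdjoinSimple.gen ℚ ζ) =
        ψ (IntermediateField.AdjoinSimple.gen ℚ ζ) ^ (p ^ i) := by
      rw [hψ1, h0, ← pow_mul]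
    obtain ⟨b1, b2⟩ := ih ψ ψ1 h0 e1 x hx
    have e2 : ψ' (IntermediateField.AdjoinSimple.gen ℚ ζ) =
        ψ1 (IntermediateField.AdjoinSimple.gen ℚ ζ) ^ p := by
      rw [h, e1, ← pow_mul, pow_succ]
    obtain ⟨c1, c2⟩ := h3 Ω k p v r hr hp hvp ℓ ζ hζ ψ1 ψ' e2 x b1
    refine ⟨c1, ?_⟩
    rw [c2, b2, ← pow_mul, pow_succ]

end DTJ_

theorem pow_eq_of_modEq {K : Type*} [Monoid K] {ζ : K} {ℓ : ℕ} (hζ : ζ ^ ℓ = 1) {a b : ℕ}
    (h : a ≡ b [MOD ℓ]) : ζ ^ a = ζ ^ b := by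
  rw [pow_eq_pow_mod a hζ, pow_eq_pow_mod b hζ, h]


open DTJ_ in
/-- DTJ: the residual data at all the embeddings of the cyclotomic field -/
theorem p_DTJ (h1 : PKE.T_RAT) (h2 : PKE.T_ECH) (h3 : T_FRJ) (h4 : T_EMJ) : T_DTJ := by
  classical
  intro ℓ _ g e
  have hl : ℓ.Prime := Fact.out
  obtain ⟨C1, hC1⟩ := PKE.DAT_.exists_DD h1 h2 g e
  refine ⟨(C1 + 1) ^ (ℓ - 1), ?_⟩
  intro k _ p hp hpl hk
  -- the class of `p`
  have hcop : Nat.Coprime p ℓ := (Nat.coprime_primes hp hl).2 hpl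
  set G : Type := (ZMod ℓ)ˣ with hG
  set pu : (ZMod ℓ)ˣ := ZMod.unitOfCoprime p hcop with hpu
  have hpuc : ((pu : (ZMod ℓ)ˣ) : ZMod ℓ) = (p : ZMod ℓ) := ZMod.coe_unitOfCoprime p hcop
  set f : ℕ := orderOf pu with hf
  have hf0 : 0 < f := orderOf_pos pu
  set P : Subgroup (ZMod ℓ)ˣ := Subgroup.zpowers pu with hP
  have hcardG : Fintype.card (ZMod ℓ)ˣ = ℓ - 1 := ZMod.card_units ℓ
  have hcardQ : Nat.card ((ZMod ℓ)ˣ ⧸ P) * f = ℓ - 1 := by
    have e1 := Subgroup.card_eq_card_quotient_mul_card_subgroup P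
    rw [hP, Nat.card_zpowers, Nat.card_eq_fintype_card, hcardG] at e1
    exact e1.symm
  have : Fintype ((ZMod ℓ)ˣ ⧸ P) := Fintype.ofFinite _
  have hcardQ' : Fintype.card ((ZMod ℓ)ˣ ⧸ P) * f = ℓ - 1 := by
    rw [← Nat.card_eq_fintype_card]
    exact hcardQ
  -- exponents
  have hexp : ∀ s : (ZMod ℓ)ˣ, ∃ i : ℕ, s = pu ^ i * Quotient.out (QuotientGroup.mk (s := P) s) := by
    intro s
    obtain ⟨⟨q, hq⟩, hq2⟩ := QuotientGroup.mk_out_eq_mul P s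
    have hmem : q⁻¹ ∈ Submonoid.powers pu := by
      rw [mem_powers_iff_mem_zpowers]
      exact P.inv_mem hq
    obtain ⟨i, hi⟩ := hmem
    refine ⟨i, ?_⟩
    have hi' : pu ^ i = q⁻¹ := hi
    rw [hq2, hi', mul_comm s]
    simp
  choose ix hix using hexp
  obtain ⟨DD, hDDc, hDD⟩ := hC1 k p f hp hf0 hk
  set m := e * (g - e) with hm
  let mk : (((ZMod ℓ)ˣ ⧸ P) → PKE.Dat g k) → ZMod ℓ → PKE.Dat g k := fun D' z =>
    if h : IsUnit z then frp (p ^ ix h.unit) (D' (QuotientGroup.mk h.unit))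
    else fun _ => (∅, fun _ _ => 0)
  refine ⟨(Fintype.piFinset fun _ : (ZMod ℓ)ˣ ⧸ P => DD).image mk, ?_, ?_⟩
  · refine Finset.card_image_le.trans ?_
    rw [Fintype.card_piFinset, Finset.prod_const, Finset.card_univ]
    set q := Fintype.card ((ZMod ℓ)ˣ ⧸ P) with hq
    have hql : q ≤ ℓ - 1 := by
      rw [← hcardQ']
      exact Nat.le_mul_of_pos_right _ hf0
    calc DD.card ^ q ≤ (C1 * (p ^ f) ^ m) ^ q := Nat.pow_le_pow_left hDDc q
      _ = C1 ^ q * p ^ ((ℓ - 1) * m) := by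
          rw [mul_pow, ← pow_mul, ← pow_mul, ← hcardQ']
          congr 2
          ring
      _ ≤ (C1 + 1) ^ (ℓ - 1) * p ^ ((ℓ - 1) * m) := by
          refine Nat.mul_le_mul_right _ ?_
          exact (Nat.pow_le_pow_left (Nat.le_succ C1) q).trans
            (Nat.pow_le_pow_right (Nat.succ_pos C1) hql)
  · intro Ω _ _ v r hr hvp ζ hζ U hU
    -- the data for every class
    have hcl : ∀ c : (ZMod ℓ)ˣ ⧸ P, ∃ D ∈ DD, ∃ ψ0 : IntermediateField.adjoin ℚ {ζ} →+* Ω,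
        ψ0 (IntermediateField.AdjoinSimple.gen ℚ ζ) = ζ ^ ((Quotient.out c : (ZMod ℓ)ˣ) : ZMod ℓ).val ∧
        PKE.Rz (fun x => v (ψ0 x)) (fun x => r (ψ0 x)) U e D := by
      intro c
      set n0 : ℕ := ((Quotient.out c : (ZMod ℓ)ˣ) : ZMod ℓ).val with hn0
      have hn0c : ((n0 : ℕ) : ZMod ℓ) = ((Quotient.out c : (ZMod ℓ)ˣ) : ZMod ℓ) := by
        rw [hn0, ZMod.natCast_zmod_val]
      have hn : ¬ ℓ ∣ n0 := by
        intro h
        have : ((n0 : ℕ) : ZMod ℓ) = 0 := (ZMod.natCast_eq_zero_iff n0 ℓ).2 h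
        rw [hn0c] at this
        exact (Quotient.out c : (ZMod ℓ)ˣ).ne_zero this
      obtain ⟨ψ0, hψ0⟩ := h4 Ω ℓ ζ hζ n0 hn
      have hpf : (p ^ f) ≡ 1 [MOD ℓ] := by
        rw [← ZMod.natCast_eq_natCast_iff]
        have : pu ^ f = 1 := pow_orderOf_eq_one pu
        have h5 := congrArg (fun u : (ZMod ℓ)ˣ => (u : ZMod ℓ)) this
        simp only [Units.val_pow_eq_pow_val, Units.val_one, hpuc] at h5
        push_cast
        exact h5
      have hfix : ψ0 (IntermediateField.AdjoinSimple.gen ℚ ζ) =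
          ψ0 (IntermediateField.AdjoinSimple.gen ℚ ζ) ^ (p ^ f) := by
        rw [hψ0, ← pow_mul]
        have := hpf.mul_left n0
        rw [mul_one] at this
        exact pow_eq_of_modEq hζ.pow_eq_one this.symm
      have hF := iter h3 h4 p v r hr hp hvp ℓ hpl ζ hζ n0 hn f ψ0 ψ0 hψ0 hfix
      obtain ⟨D, hD, hRz⟩ := hDD (IntermediateField.adjoin ℚ {ζ}) _ _ (hr.comp ψ0)
        (by
          show v (ψ0 (p : _)) < 1
          rw [map_natCast]
          exact hvp)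
        (fun x hx => (hF x hx).2.symm) U hU
      exact ⟨D, hD, ψ0, hψ0, hRz⟩
    choose D' hD'm ψ0 hψ0 hRz using hcl
    refine ⟨mk D', Finset.mem_image.2 ⟨D', Fintype.mem_piFinset.2 hD'm, rfl⟩, ?_⟩
    intro s ψ hψ
    have hprim : IsPrimitiveRoot (ζ ^ s) ℓ := by
      rw [← hψ]
      have h5 : IsPrimitiveRoot (IntermediateField.AdjoinSimple.gen ℚ ζ) ℓ := by
        refine IsPrimitiveRoot.of_map_of_injective (f := algebraMap (IntermediateField.adjoin ℚ {ζ}) Ω)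
          ?_ (algebraMap (IntermediateField.adjoin ℚ {ζ}) Ω).injective
        rw [IntermediateField.AdjoinSimple.algebraMap_gen]
        exact hζ
      exact h5.map_of_injective ψ.injective
    have hns : ¬ ℓ ∣ s := by
      intro h
      obtain ⟨t, rfl⟩ := h
      rw [pow_mul, hζ.pow_eq_one, one_pow] at hprim
      exact hl.one_lt.ne' (hprim.eq_orderOf.trans orderOf_one)
    have hunit : IsUnit (s : ZMod ℓ) := by
      rw [isUnit_iff_ne_zero]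
      intro h
      exact hns ((ZMod.natCast_eq_zero_iff s ℓ).1 h)
    have hmk : mk D' (s : ZMod ℓ) =
        frp (p ^ ix hunit.unit) (D' (QuotientGroup.mk hunit.unit)) := by
      show (if h : IsUnit (s : ZMod ℓ) then _ else _) = _
      rw [dif_pos hunit]
    rw [hmk]
    set c : (ZMod ℓ)ˣ ⧸ P := QuotientGroup.mk hunit.unit with hc
    set n0 : ℕ := ((Quotient.out c : (ZMod ℓ)ˣ) : ZMod ℓ).val with hn0
    have hn0c : ((n0 : ℕ) : ZMod ℓ) = ((Quotient.out c : (ZMod ℓ)ˣ) : ZMod ℓ) := by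
      rw [hn0, ZMod.natCast_zmod_val]
    have hn : ¬ ℓ ∣ n0 := by
      intro h
      have : ((n0 : ℕ) : ZMod ℓ) = 0 := (ZMod.natCast_eq_zero_iff n0 ℓ).2 h
      rw [hn0c] at this
      exact (Quotient.out c : (ZMod ℓ)ˣ).ne_zero this
    have hs : ψ (IntermediateField.AdjoinSimple.gen ℚ ζ) =
        ψ0 c (IntermediateField.AdjoinSimple.gen ℚ ζ) ^ (p ^ ix hunit.unit) := by
      rw [hψ, hψ0 c, ← pow_mul]
      refine pow_eq_of_modEq hζ.pow_eq_one ?_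
      rw [← ZMod.natCast_eq_natCast_iff]
      have h5 := congrArg (fun u : (ZMod ℓ)ˣ => (u : ZMod ℓ)) (hix hunit.unit)
      simp only [Units.val_mul, Units.val_pow_eq_pow_val, hpuc, IsUnit.unit_spec] at h5
      have h6 : ((n0 : ℕ) : ZMod ℓ) * (p : ZMod ℓ) ^ ix hunit.unit = (s : ZMod ℓ) := by
        rw [hn0c, mul_comm]
        exact h5.symm
      have h7 : ((n0 * p ^ ix hunit.unit : ℕ) : ZMod ℓ) =
          ((n0 : ℕ) : ZMod ℓ) * (p : ZMod ℓ) ^ ix hunit.unit := by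
        rw [Nat.cast_mul, Nat.cast_pow]
      rw [h7, h6]
    exact rz_frp _ _ _ _ _ (iter h3 h4 p v r hr hp hvp ℓ hpl ζ hζ n0 hn _ (ψ0 c) ψ (hψ0 c) hs)
      U e _ (hRz c)

end PKJ
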