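import Pool.Agent.PKJ.Targets
import Pool.Agent.PKE.ELQ

/-!
ELJ: elimination with exponents, the degree does not depend on the field.
-/

set_option autoImplicit false
set_option linter.unusedSectionVars false
set_option maxHeartbeats 4000000

namespace PKJ

open MvPolynomial RD PKD

namespace ELJ_

section gen

variable {k Y A : Type} [Field k] {n : ℕ} (x : Y → A → k) (s : Y → Fin n → k)

/-- polynomial functions of degree at most `M` -/
def PF (M : ℕ) (f : Y → k) : Prop := ∃ q : MvPolynomial (A ⊕ Fin n) k, q.totalDegree ≤ M ∧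
  ∀ y, f y = eval (Sum.elim (x y) (s y)) q

variable {x s}

theorem PF.mono {M M' : ℕ} (h : M ≤ M') {f : Y → k} (hf : PF x s M f) : PF x s M' f := by
  obtain ⟨q, hq, hf⟩ := hf
  exact ⟨q, hq.trans h, hf⟩

theorem PF.const (a : k) : PF x s 0 (fun _ : Y => a) :=
  ⟨C a, by simp, fun y => by simp⟩

theorem PF.mul {M M' : ℕ} {f f' : Y → k} (hf : PF x s M f) (hf' : PF x s M' f') :
    PF x s (M + M') (fun y => f y * f' y) := by
  obtain ⟨q, hq, hf⟩ := hf
  obtain ⟨q', hq', hf'⟩ := hf'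
  refine ⟨q * q', (totalDegree_mul _ _).trans (add_le_add hq hq'), fun y => ?_⟩
  rw [map_mul, ← hf, ← hf']

theorem PF.add {M : ℕ} {f f' : Y → k} (hf : PF x s M f) (hf' : PF x s M f') :
    PF x s M (fun y => f y + f' y) := by
  obtain ⟨q, hq, hf⟩ := hf
  obtain ⟨q', hq', hf'⟩ := hf'
  refine ⟨q + q', (totalDegree_add _ _).trans (max_le hq hq'), fun y => ?_⟩
  rw [map_add, ← hf, ← hf']

theorem PF.neg {M : ℕ} {f : Y → k} (hf : PF x s M f) : PF x s M (fun y => - f y) := by
  obtain ⟨q, hq, hf⟩ := hf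
  exact ⟨-q, by rwa [totalDegree_neg], fun y => by rw [map_neg, ← hf]⟩

theorem PF.sum {ι : Type} (T : Finset ι) {M : ℕ} {f : ι → Y → k} (hf : ∀ i ∈ T, PF x s M (f i)) :
    PF x s M (fun y => ∑ i ∈ T, f i y) := by
  classical
  induction T using Finset.induction_on with
  | empty => simpa using (PF.const (x := x) (s := s) (0 : k)).mono (Nat.zero_le M)
  | insert a T ha ih =>
    have h1 := (hf a (Finset.mem_insert_self _ _)).add
      (ih (fun i hi => hf i (Finset.mem_insert_of_mem hi)))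
    simpa only [Finset.sum_insert ha] using h1

theorem PF.prod {ι : Type} (T : Finset ι) {M : ι → ℕ} {f : ι → Y → k}
    (hf : ∀ i ∈ T, PF x s (M i) (f i)) :
    PF x s (∑ i ∈ T, M i) (fun y => ∏ i ∈ T, f i y) := by
  classical
  induction T using Finset.induction_on with
  | empty => simpa using (PF.const (x := x) (s := s) (1 : k))
  | insert a T ha ih =>
    have h1 := (hf a (Finset.mem_insert_self _ _)).mul
      (ih (fun i hi => hf i (Finset.mem_insert_of_mem hi)))
    simpa only [Finset.prod_insert ha, Finset.sum_insert ha] using h1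

theorem PF.pow {M : ℕ} {f : Y → k} (hf : PF x s M f) (e : ℕ) :
    PF x s (e * M) (fun y => f y ^ e) := by
  induction e with
  | zero => simpa using (PF.const (x := x) (s := s) (1 : k))
  | succ e ih =>
    have h1 := ih.mul hf
    have e1 : e * M + M = (e + 1) * M := by ring
    rw [e1] at h1
    simpa only [pow_succ] using h1

theorem PF.congr {M : ℕ} {f f' : Y → k} (hf : PF x s M f) (h : ∀ y, f' y = f y) :
    PF x s M f' := by
  have : f' = f := funext h
  rw [this]
  exact hf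

end gen

/-- the numerical inequality -/
theorem num (R0 δ N : ℕ) (hN : 1 ≤ N) :
    R0 * (δ * (N * (R0 * (δ * N + 1) ^ (N - 1))) + 1) ^ (N - 1) <
      (R0 * (δ * N + 1) ^ (N - 1) + 1) ^ N := by
  set L' := R0 * (δ * N + 1) ^ (N - 1) with hL'
  have h1 : δ * (N * L') + 1 ≤ (δ * N + 1) * (L' + 1) := by
    nlinarith [Nat.zero_le (δ * N), Nat.zero_le L']
  calc R0 * (δ * (N * L') + 1) ^ (N - 1) ≤ R0 * ((δ * N + 1) * (L' + 1)) ^ (N - 1) :=
        Nat.mul_le_mul_left _ (Nat.pow_le_pow_left h1 _)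
    _ = L' * (L' + 1) ^ (N - 1) := by
        rw [mul_pow, ← mul_assoc, ← hL']
    _ < (L' + 1) * (L' + 1) ^ (N - 1) := by
        have : 0 < (L' + 1) ^ (N - 1) := by positivity
        exact (Nat.mul_lt_mul_right this).2 (Nat.lt_succ_self _)
    _ = (L' + 1) ^ N := by
        rw [← pow_succ', Nat.sub_add_cancel hN]

section main

variable {k : Type} [Field k] {d n : ℕ} {ι A : Type} [Fintype ι] [DecidableEq ι] [Fintype A]
  [DecidableEq A]

/-- the points of the system -/
abbrev Pt (ρ : Fin n → ℕ) (b : Fin n → ℕ → MvPolynomial (Fin d) k)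
    (u : A → MvPolynomial (Fin d ⊕ Fin n) k) (α0 : A) (Q : Finset (Fin d)) (E : ι → ℕ)
    (S J W : Finset ι) (τ : ι → ι → k) : Type :=
  {y : (ι × A → k) × (Fin d → k) × (Fin n → k) × (ι → k) //
    Sys ρ b u α0 Q E S J W τ y.1 y.2.1 y.2.2.1 y.2.2.2}

/-- the coefficients which are not free -/
def bd (α0 : A) (S W : Finset ι) : Finset (ι × A) := (S ∪ W) ×ˢ {α0}

/-- the free generators -/
abbrev Fr (Q : Finset (Fin d)) (α0 : A) (S J W : Finset ι) : Type :=
  {t : Fin d // t ∉ Q} ⊕ (↥((bd α0 S W)ᶜ) ⊕ ↥(W \ J))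

theorem card_Fr (Q : Finset (Fin d)) (α0 : A) (S J W : Finset ι) (hSW : Disjoint S W)
    (hJW : J ⊆ W) (hcard : S.card + J.card + Q.card = d + 1) :
    Fintype.card (Fr Q α0 S J W) = Fintype.card (ι × A) - 1 := by
  have h1 : (bd α0 S W).card = S.card + W.card := by
    unfold bd
    rw [Finset.card_product, Finset.card_singleton, mul_one, Finset.card_union_of_disjoint hSW]
  have h2 : (bd α0 S W).card ≤ Fintype.card (ι × A) := Finset.card_le_univ _
  have h3 : J.card ≤ W.card := Finset.card_le_card hJW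
  have h4 : (W \ J).card = W.card - J.card := Finset.card_sdiff_of_subset hJW
  have h5 : Q.card ≤ d := by
    have := Finset.card_le_univ Q
    simpa using this
  have h6 : Fintype.card {t : Fin d // t ∉ Q} = d - Q.card := by
    rw [Fintype.card_subtype_compl]
    simp
  rw [Fintype.card_sum, Fintype.card_sum, h6, Fintype.card_coe, Fintype.card_coe,
    Finset.card_compl, h1, h4]
  omega

variable {ρ : Fin n → ℕ} {b : Fin n → ℕ → MvPolynomial (Fin d) k}
    {u : A → MvPolynomial (Fin d ⊕ Fin n) k} {α0 : A} {Q : Finset (Fin d)} {E : ι → ℕ}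
    {S J W : Finset ι} {τ : ι → ι → k}

/-- the values of the free generators -/
def xx (y : Pt ρ b u α0 Q E S J W τ) : Fr Q α0 S J W → k :=
  Sum.elim (fun t => y.1.2.1 t.1) (Sum.elim (fun q => y.1.1 q.1) (fun i => y.1.2.2.2 i.1))

/-- the integral coordinates -/
def ss (y : Pt ρ b u α0 Q E S J W τ) : Fin n → k := y.1.2.2.1

/-- the coordinates of the base as functions of the free generators -/
noncomputable def phi (k : Type) [Field k] (Q : Finset (Fin d)) (α0 : A) (S J W : Finset ι) :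
    Fin d → MvPolynomial (Fr Q α0 S J W) k :=
  fun i => if h : i ∈ Q then 0 else X (Sum.inl ⟨i, h⟩)

theorem phi_deg (i : Fin d) : (phi k Q α0 S J W i).totalDegree ≤ 1 := by
  by_cases hi : i ∈ Q
  · simp [phi, hi]
  · simp [phi, hi, totalDegree_X]

theorem phi_eval (y : Pt ρ b u α0 Q E S J W τ) (i : Fin d) :
    eval (xx y) (phi k Q α0 S J W i) = y.1.2.1 i := by
  by_cases hi : i ∈ Q
  · simp [phi, hi, y.2.2.1 i hi]
  · simp [phi, hi, xx]

theorem pf_base (D : ℕ) (q : MvPolynomial (Fin d ⊕ Fin n) k) (hq : q.totalDegree ≤ D) :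
    PF (xx (ρ := ρ) (b := b) (u := u) (α0 := α0) (Q := Q) (E := E) (S := S) (J := J) (W := W)
      (τ := τ)) ss D (fun y => eval (Sum.elim y.1.2.1 y.1.2.2.1) q) := by
  let ψ : Fin d ⊕ Fin n → MvPolynomial (Fr Q α0 S J W ⊕ Fin n) k :=
    Sum.elim (fun i => rename Sum.inl (phi k Q α0 S J W i)) (fun j => X (Sum.inr j))
  have hψ : ∀ i, (ψ i).totalDegree ≤ 1 := by
    rintro (i | j)
    · exact (totalDegree_rename_le _ _).trans (phi_deg i)
    · simp [ψ, totalDegree_X]
  refine ⟨aeval ψ q, (PKE.ELQ_.deg_aeval ψ hψ q).trans hq, fun y => ?_⟩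
  rw [PKE.ELQ_.eval_aev]
  have hfun : (Sum.elim y.1.2.1 y.1.2.2.1 : Fin d ⊕ Fin n → k)
      = fun i => eval (Sum.elim (xx y) (ss y)) (ψ i) := by
    funext t
    rcases t with i | j
    · show y.1.2.1 i = eval _ (rename Sum.inl (phi k Q α0 S J W i))
      rw [eval_rename, Sum.elim_comp_inl, phi_eval]
    · show y.1.2.2.1 j = eval _ (X (Sum.inr j))
      rw [eval_X]
      rfl
  show eval (Sum.elim y.1.2.1 y.1.2.2.1) q = _
  rw [hfun]

theorem pf_free (q : ι × A) (hq : q ∉ bd α0 S W) :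
    PF (xx (ρ := ρ) (b := b) (u := u) (α0 := α0) (Q := Q) (E := E) (S := S) (J := J) (W := W)
      (τ := τ)) ss 1 (fun y => y.1.1 q) := by
  refine ⟨X (Sum.inl (Sum.inr (Sum.inl ⟨q, Finset.mem_compl.2 hq⟩))), ?_, fun y => ?_⟩
  · rw [totalDegree_X]
  · rw [eval_X]
    rfl

theorem pf_h0 (i : ι) (hi : i ∈ W \ J) :
    PF (xx (ρ := ρ) (b := b) (u := u) (α0 := α0) (Q := Q) (E := E) (S := S) (J := J) (W := W)
      (τ := τ)) ss 1 (fun y => y.1.2.2.2 i) := by
  refine ⟨X (Sum.inl (Sum.inr (Sum.inr ⟨i, hi⟩))), ?_, fun y => ?_⟩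
  · rw [totalDegree_X]
  · rw [eval_X]
    rfl

theorem pf_h (i : ι) (hi : i ∈ W) :
    PF (xx (ρ := ρ) (b := b) (u := u) (α0 := α0) (Q := Q) (E := E) (S := S) (J := J) (W := W)
      (τ := τ)) ss 1 (fun y => y.1.2.2.2 i) := by
  by_cases hJ : i ∈ J
  · have h1 : PF (xx (ρ := ρ) (b := b) (u := u) (α0 := α0) (Q := Q) (E := E) (S := S) (J := J)
        (W := W) (τ := τ)) ss 1 (fun y => ∑ i' ∈ W \ J, τ i i' * y.1.2.2.2 i') := by
      refine PF.sum _ fun i' hi' => ?_
      have := (PF.const (x := xx (ρ := ρ) (b := b) (u := u) (α0 := α0) (Q := Q) (E := E)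
        (S := S) (J := J) (W := W) (τ := τ)) (s := ss) (τ i i')).mul (pf_h0 i' hi')
      rwa [zero_add] at this
    exact h1.congr fun y => y.2.2.2.2.2.2 i hJ
  · exact pf_h0 i (Finset.mem_sdiff.2 ⟨hi, hJ⟩)

/-- the denominator -/
noncomputable def PP (y : Pt ρ b u α0 Q E S J W τ) : k :=
  eval (Sum.elim y.1.2.1 y.1.2.2.1) (u α0) * ∏ i ∈ W, y.1.2.2.2 i ^ E i

theorem PP_ne (_hE : ∀ i, 1 ≤ E i) (y : Pt ρ b u α0 Q E S J W τ) : PP y ≠ 0 := by
  refine mul_ne_zero y.2.2.2.1 (Finset.prod_ne_zero_iff.2 fun i hi => ?_)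
  intro h
  have h1 := y.2.2.2.2.2.1 i hi
  rw [h, zero_mul] at h1
  exact zero_ne_one h1

theorem pf_hh (T : Finset ι) (hT : T ⊆ W) :
    PF (xx (ρ := ρ) (b := b) (u := u) (α0 := α0) (Q := Q) (E := E) (S := S) (J := J) (W := W)
      (τ := τ)) ss (∑ i, E i) (fun y => ∏ i ∈ T, y.1.2.2.2 i ^ E i) := by
  have h1 := PF.prod (x := xx (ρ := ρ) (b := b) (u := u) (α0 := α0) (Q := Q) (E := E) (S := S)
    (J := J) (W := W) (τ := τ)) (s := ss) T (M := fun i => E i * 1)
    (f := fun i y => y.1.2.2.2 i ^ E i) (fun i hi => (pf_h i (hT hi)).pow (E i))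
  refine h1.mono ?_
  simp only [mul_one]
  exact Finset.sum_le_sum_of_subset (Finset.subset_univ T)

theorem pf_PP (D : ℕ) (hu : ∀ α, (u α).totalDegree ≤ D) :
    PF (xx (ρ := ρ) (b := b) (u := u) (α0 := α0) (Q := Q) (E := E) (S := S) (J := J) (W := W)
      (τ := τ)) ss (D + ∑ i, E i) PP :=
  (pf_base D (u α0) (hu α0)).mul (pf_hh W (Finset.Subset.refl _))

theorem notin_bd (i : ι) (α : A) (hα : α ≠ α0) : (i, α) ∉ bd α0 S W := by
  unfold bd
  intro h
  rw [Finset.mem_product, Finset.mem_singleton] at h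
  exact hα h.2

theorem pf_rest (D : ℕ) (hu : ∀ α, (u α).totalDegree ≤ D) (i : ι) :
    PF (xx (ρ := ρ) (b := b) (u := u) (α0 := α0) (Q := Q) (E := E) (S := S) (J := J) (W := W)
      (τ := τ)) ss (1 + D) (fun y => ∑ α ∈ Finset.univ.erase α0,
        y.1.1 (i, α) * eval (Sum.elim y.1.2.1 y.1.2.2.1) (u α)) := by
  refine PF.sum _ fun α hα => ?_
  exact (pf_free (i, α) (notin_bd i α (Finset.ne_of_mem_erase hα))).mul (pf_base D (u α) (hu α))

theorem split_sum (c : ι × A → k) (e : A → k) (i : ι) (α0 : A) :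
    ∑ α, c (i, α) * e α = c (i, α0) * e α0 + ∑ α ∈ Finset.univ.erase α0, c (i, α) * e α := by
  rw [← Finset.add_sum_erase _ _ (Finset.mem_univ α0)]

theorem pf_coef (D : ℕ) (hu : ∀ α, (u α).totalDegree ≤ D) (q : ι × A) :
    PF (xx (ρ := ρ) (b := b) (u := u) (α0 := α0) (Q := Q) (E := E) (S := S) (J := J) (W := W)
      (τ := τ)) ss (D + 2 * (∑ i, E i) + 1) (fun y => PP y * y.1.1 q) := by
  by_cases hq : q ∈ bd α0 S W
  · obtain ⟨i, α⟩ := q
    unfold bd at hq
    rw [Finset.mem_product, Finset.mem_singleton, Finset.mem_union] at hq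
    obtain ⟨hi, hα⟩ := hq
    have hα' : α = α0 := hα
    subst hα'
    rcases hi with hi | hi
    · have h1 := ((pf_rest D hu i).neg.mul (pf_hh (ρ := ρ) (b := b) (u := u) (α0 := α) (Q := Q)
        (E := E) (S := S) (J := J) (W := W) (τ := τ) W (Finset.Subset.refl _)))
      refine (h1.mono (by omega)).congr fun y => ?_
      have h2 := y.2.2.2.2.1 i hi
      rw [split_sum y.1.1 _ i α] at h2
      unfold PP
      linear_combination (∏ i ∈ W, y.1.2.2.2 i ^ E i) * h2
    · have hEi : E i ≤ ∑ i, E i := Finset.single_le_sum (fun _ _ => Nat.zero_le _)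
        (Finset.mem_univ i)
      have h1 := ((pf_h (ρ := ρ) (b := b) (u := u) (α0 := α) (Q := Q) (E := E) (S := S) (J := J)
        (W := W) (τ := τ) i hi).pow (E i)).mul (pf_rest D hu i)
      have h2 := ((PF.const (x := xx (ρ := ρ) (b := b) (u := u) (α0 := α) (Q := Q) (E := E)
        (S := S) (J := J) (W := W) (τ := τ)) (s := ss) (1 : k)).mono
        (Nat.zero_le (E i * 1 + (1 + D)))).add h1.neg
      have h3 := h2.mul (pf_hh (ρ := ρ) (b := b) (u := u) (α0 := α) (Q := Q) (E := E) (S := S)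
        (J := J) (W := W) (τ := τ) (W.erase i) (Finset.erase_subset _ _))
      refine (h3.mono (by omega)).congr fun y => ?_
      have h4 := y.2.2.2.2.2.1 i hi
      rw [split_sum y.1.1 _ i α] at h4
      unfold PP
      rw [← Finset.mul_prod_erase W _ hi]
      linear_combination (∏ i ∈ W.erase i, y.1.2.2.2 i ^ E i) * h4
  · have h1 := (pf_PP (ρ := ρ) (b := b) (u := u) (α0 := α0) (Q := Q) (E := E) (S := S) (J := J)
      (W := W) (τ := τ) D hu).mul (pf_free q hq)
    exact h1.mono (by omega)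

end main

end ELJ_

open ELJ_ in
/-- ELJ -/
theorem p_ELJ (h1 : PKD.T_NFB) : T_ELJ := by
  intro d n D ρ ι A _ _ _ _ Q E hE
  classical
  set N := Fintype.card (ι × A) with hN
  set δ := D + 2 * (∑ i, E i) + 1 with hδ
  set R0 := ∏ j, ρ j with hR0
  set L' := R0 * (δ * N + 1) ^ (N - 1) with hL'
  refine ⟨N * L', ?_⟩
  intro k _ b u α0 S J W τ hb hu hSW hJW hcard
  have hNpos : 1 ≤ N := by
    have hg : Nonempty ι := by
      by_contra hne
      rw [not_nonempty_iff] at hne
      have e1 : S.card = 0 := by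
        rw [Finset.card_eq_zero]
        exact Finset.eq_empty_of_isEmpty S
      have e2 : J.card = 0 := by
        rw [Finset.card_eq_zero]
        exact Finset.eq_empty_of_isEmpty J
      have e3 : Q.card ≤ d := by
        have := Finset.card_le_univ Q
        simpa using this
      omega
    have : Nonempty (ι × A) := ⟨(hg.some, α0)⟩
    exact Fintype.card_pos
  -- the space of functions
  obtain ⟨V, hV1, hV2, hV3⟩ := h1 k (Pt ρ b u α0 Q E S J W τ) (Fr Q α0 S J W) n ρ xx ss
    (fun j l => aeval (phi k Q α0 S J W) (b j l))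
    (fun j l hl => (PKE.ELQ_.deg_aeval _ phi_deg _).trans (hb j l hl))
    (by
      intro y j
      have h2 := y.2.1 j
      rw [← h2]
      congr 1
      refine Finset.sum_congr rfl fun l _ => ?_
      rw [PKE.ELQ_.eval_aev]
      simp only [phi_eval]
      rfl)
    (δ * (N * L'))
  rw [card_Fr Q α0 S J W hSW hJW hcard] at hV2
  -- the functions
  let v : ((ι × A) → Fin (L' + 1)) → V := fun γ =>
    ⟨fun y => PP y ^ (N * L') * ∏ q, y.1.1 q ^ (γ q : ℕ), by
      have hγ : ∑ q, (γ q : ℕ) ≤ N * L' := by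
        have : ∑ q, (γ q : ℕ) ≤ ∑ _q : ι × A, L' :=
          Finset.sum_le_sum fun q _ => Nat.lt_succ_iff.1 (γ q).2
        rwa [Finset.sum_const, smul_eq_mul, Finset.card_univ] at this
      have e1 := PF.prod (x := xx (ρ := ρ) (b := b) (u := u) (α0 := α0) (Q := Q) (E := E) (S := S)
        (J := J) (W := W) (τ := τ)) (s := ss) (Finset.univ : Finset (ι × A))
        (M := fun q => (γ q : ℕ) * δ) (f := fun q y => (PP y * y.1.1 q) ^ (γ q : ℕ))
        (fun q _ => (pf_coef D hu q).pow _)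
      have e2 := (((pf_PP (ρ := ρ) (b := b) (u := u) (α0 := α0) (Q := Q) (E := E) (S := S) (J := J)
        (W := W) (τ := τ) D hu).mono (show D + ∑ i, E i ≤ δ by omega)).pow (N * L' - ∑ q, (γ q : ℕ))).mul e1
      have e3 : (N * L' - ∑ q, (γ q : ℕ)) * δ + ∑ q, (γ q : ℕ) * δ ≤ δ * (N * L') := by
        rw [← Finset.sum_mul, ← add_mul, Nat.sub_add_cancel hγ, mul_comm]
      obtain ⟨q, hq1, hq2⟩ := (e2.mono e3)
      have e4 := hV3 q hq1
      have e5 : (fun y : Pt ρ b u α0 Q E S J W τ => PP y ^ (N * L') * ∏ q, y.1.1 q ^ (γ q : ℕ)) =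
          fun y => eval (Sum.elim (xx y) (ss y)) q := by
        funext y
        rw [← hq2 y]
        simp only [mul_pow]
        rw [Finset.prod_mul_distrib, Finset.prod_pow_eq_pow_sum, ← mul_assoc (PP y ^ _),
          ← pow_add, Nat.sub_add_cancel hγ]
      rw [e5]
      exact e4⟩
  have hdep : ¬ LinearIndependent k v := by
    intro hli
    have e1 := hli.fintype_card_le_finrank
    rw [Fintype.card_fun, Fintype.card_fin] at e1
    have e2 := e1.trans hV2
    exact absurd (num R0 δ N hNpos) (not_lt.2 e2)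
  rw [Fintype.not_linearIndependent_iff] at hdep
  obtain ⟨a, ha, γ0, hγ0⟩ := hdep
  let toF : ((ι × A) → Fin (L' + 1)) → ((ι × A) →₀ ℕ) := fun γ =>
    Finsupp.equivFunOnFinite.symm (fun q => (γ q : ℕ))
  have htoF : Function.Injective toF := by
    intro γ γ' h
    have h2 := Finsupp.equivFunOnFinite.symm.injective h
    funext q
    exact Fin.ext (congrFun h2 q)
  refine ⟨∑ γ, monomial (toF γ) (a γ), ?_, ?_, ?_⟩
  · intro h
    have h2 := congrArg (coeff (toF γ0)) h
    rw [coeff_sum, coeff_zero, Finset.sum_eq_single γ0] at h2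
    · rw [coeff_monomial, if_pos rfl] at h2
      exact hγ0 h2
    · intro γ _ hne
      rw [coeff_monomial, if_neg]
      intro h3
      exact hne (htoF h3)
    · intro h3
      exact absurd (Finset.mem_univ _) h3
  · refine totalDegree_finsetSum_le fun γ _ => ?_
    refine (totalDegree_monomial_le _ _).trans ?_
    rw [Finsupp.sum_fintype _ _ (fun _ => rfl)]
    have : ∑ q, (γ q : ℕ) ≤ ∑ _q : ι × A, L' :=
      Finset.sum_le_sum fun q _ => Nat.lt_succ_iff.1 (γ q).2
    rwa [Finset.sum_const, smul_eq_mul, Finset.card_univ] at this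
  · intro c p s h hs
    let y : Pt ρ b u α0 Q E S J W τ := ⟨(c, p, s, h), hs⟩
    have h2 := congrArg (fun f : V => (f : Pt ρ b u α0 Q E S J W τ → k) y) ha
    have h3 : ∑ γ, a γ * (PP y ^ (N * L') * ∏ q, c q ^ (γ q : ℕ)) = 0 := by
      have h4 : (fun f : V => (f : Pt ρ b u α0 Q E S J W τ → k) y) (∑ γ, a γ • v γ) =
          ∑ γ, a γ * (PP y ^ (N * L') * ∏ q, c q ^ (γ q : ℕ)) := by
        show ((∑ γ, a γ • v γ : V) : Pt ρ b u α0 Q E S J W τ → k) y = _
        rw [Submodule.coe_sum, Finset.sum_apply]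
        rfl
      rw [← h4]
      exact h2
    have h5 : PP y ^ (N * L') * ∑ γ, a γ * ∏ q, c q ^ (γ q : ℕ) = 0 := by
      rw [Finset.mul_sum, ← h3]
      refine Finset.sum_congr rfl fun γ _ => ?_
      ring
    have h6 := (mul_eq_zero.1 h5).resolve_left (pow_ne_zero _ (PP_ne hE y))
    rw [map_sum, ← h6]
    refine Finset.sum_congr rfl fun γ _ => ?_
    rw [eval_monomial, Finsupp.prod_fintype _ _ (fun _ => pow_zero _)]
    rfl

end PKJ
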