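import Pool.Agent.PKJ.CRJ
import Pool.Agent.PKE.FIN

/-! The final assembly, uniformly in the superelliptic families and in the fixed parts of the
abscissas. -/

set_option autoImplicit false
set_option maxHeartbeats 4000000

namespace PKJ

open MvPolynomial RD PKD

open PKE (SI)

theorem bad_iff {Ω : Type} [Field Ω] {m : ℕ} (g ℓ M : Fin m → ℕ) {d n D : ℕ}
    (ρ : Fin n → ℕ) (b : Fin n → ℕ → MvPolynomial (Fin d) Ω)
    (A : (k : Fin m) → Fin (M k) → MvPolynomial (Fin d ⊕ Fin n) Ω) (I : Finset (MonS d n D))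
    (F : (Σ k, Fin (g k)) → MvPolynomial (Fin d ⊕ Fin n) Ω) (hF : ∀ i, (F i).totalDegree ≤ D)
    (c : (Σ k, Fin (g k)) × {α // α ∈ I} → Ω) :
    Bad g ℓ M D ρ b A (PKE.cf I (fun u => (F u.1).coeff (fsM u.2)) c) ↔
      ∃ (Q : Finset (Fin d)) (G : MvPolynomial (Fin d) Ω), G ≠ 0 ∧
        ∀ z : Fin d → Ω, eval z G ≠ 0 → ∃ (p : Fin d → Ω) (s : Fin n → Ω),
          (∀ j, s j ^ ρ j + ∑ l ∈ Finset.range (ρ j), eval p (b j l) * s j ^ l = 0) ∧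
          (∀ i ∈ Q, p i = z i) ∧ ∃ e : Fin m → ℕ, ∑ k, e k + Q.card = d + 1 ∧
          ∀ k, e k ≠ 0 → Squarefree (SRK.fam fun κ => eval (Sum.elim p s) (A k κ)) ∧
            ∃ (ζ : Ω) (x y : Fin (g k) → Ω), IsPrimitiveRoot ζ (ℓ k) ∧
              (∀ i, x i = eval (Sum.elim p s) (F ⟨k, i⟩) +
                ∑ α : {α // α ∈ I}, c (⟨k, i⟩, α) * ∏ j, Sum.elim p s j ^ (α.1.1 j : ℕ)) ∧
              (∀ i, y i ^ ℓ k = (SRK.fam fun κ => eval (Sum.elim p s) (A k κ)).eval (x i)) ∧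
              SRK.Rel (ℓ k) (SRK.fam fun κ => eval (Sum.elim p s) (A k κ)) ζ x y (e k) := by
  have key : ∀ (p : Fin d → Ω) (s : Fin n → Ω) (k : Fin m) (x : Fin (g k) → Ω),
      (∀ i, x i = eval (Sum.elim p s) (F ⟨k, i⟩) +
        ∑ α : {α // α ∈ I}, c (⟨k, i⟩, α) * ∏ j, Sum.elim p s j ^ (α.1.1 j : ℕ)) ↔
      x = fun i => PKE.fval D (PKE.cf I (fun u => (F u.1).coeff (fsM u.2)) c) p s ⟨k, i⟩ := by
    intro p s k x
    rw [funext_iff]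
    refine forall_congr' fun i => ?_
    rw [PKE.fval_cf I F hF c p s ⟨k, i⟩]
  unfold Bad
  constructor
  · rintro ⟨Q, G, hG, h⟩
    refine ⟨Q, G, hG, fun z hz => ?_⟩
    obtain ⟨p, s, h1, h2, e, h3, h4⟩ := h z hz
    refine ⟨p, s, h1, h2, e, h3, fun k hk => ?_⟩
    obtain ⟨h5, ζ, y, h6, h7, h8⟩ := h4 k hk
    exact ⟨h5, ζ, _, y, h6, (key p s k _).2 rfl, h7, h8⟩
  · rintro ⟨Q, G, hG, h⟩
    refine ⟨Q, G, hG, fun z hz => ?_⟩
    obtain ⟨p, s, h1, h2, e, h3, h4⟩ := h z hz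
    refine ⟨p, s, h1, h2, e, h3, fun k hk => ?_⟩
    obtain ⟨h5, ζ, x, y, h6, hx, h7, h8⟩ := h4 k hk
    obtain rfl := (key p s k x).1 hx
    exact ⟨h5, ζ, y, h6, h7, h8⟩

/-- the uniform theorem, with polynomials `F` -/
def T_FIJ : Prop := ∀ (K : Type) [Field K] [NumberField K]
    (m : ℕ) (g ℓ M : Fin m → ℕ), (∀ k, (ℓ k).Prime) → (∀ k, ¬ ℓ k ∣ M k) → (∀ k, 2 ≤ M k) →
    ∀ (d n D : ℕ),
    (∀ e : Fin m → ℕ, (∀ k, e k ≤ g k) → ∑ k, e k ≤ d + 1 →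
      ∑ k, (ℓ k - 1) * (e k * (g k - e k)) < Module.finrank ℚ K) →
    ∀ (om : Module.Basis (Fin (Module.finrank ℚ K)) ℚ K) (ρ : Fin n → ℕ)
    (b : Fin n → ℕ → MvPolynomial (Fin d) (AlgebraicClosure K))
    (I : Finset (MonS d n D)),
    (∀ ty, al0 D ty ∈ I) →
    (∀ j l, l < ρ j → (b j l).totalDegree ≤ ρ j - l) → ∀ Δ : ℕ, 0 < Δ →
    ∀ ε : ℝ, 0 < ε → ∃ C : ℝ, ∀ H : ℕ, 1 ≤ H →
      (Nat.card {x : ℕ × (((Σ k, Fin (g k)) × {α // α ∈ I}) → Fin (Module.finrank ℚ K) → ℤ) //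
        1 ≤ x.1 ∧ x.1 ≤ H ∧ (∀ u l, |x.2 u l| ≤ (H : ℤ)) ∧
        ∃ (A : (k : Fin m) → Fin (M k) → MvPolynomial (Fin d ⊕ Fin n) (AlgebraicClosure K))
          (F : (Σ k, Fin (g k)) → MvPolynomial (Fin d ⊕ Fin n) (AlgebraicClosure K)),
          (∀ k (κ : Fin (M k)), (A k κ).totalDegree ≤ ((κ : ℕ) + 1) * D) ∧
          (∀ i, (F i).totalDegree ≤ D) ∧
          (∀ t, (∀ k κ, ∃ j : ℕ,
              IsIntegral ℤ ((Δ : AlgebraicClosure K) ^ j * (A k κ).coeff t)) ∧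
            (∀ i, ∃ j : ℕ, IsIntegral ℤ ((Δ : AlgebraicClosure K) ^ j * (F i).coeff t))) ∧
        ∃ (Q : Finset (Fin d)) (G : MvPolynomial (Fin d) (AlgebraicClosure K)), G ≠ 0 ∧
          ∀ z : Fin d → AlgebraicClosure K, eval z G ≠ 0 →
          ∃ (p : Fin d → AlgebraicClosure K) (s : Fin n → AlgebraicClosure K),
          (∀ j, s j ^ ρ j + ∑ l ∈ Finset.range (ρ j), eval p (b j l) * s j ^ l = 0) ∧
          (∀ i ∈ Q, p i = z i) ∧ ∃ e : Fin m → ℕ, ∑ k, e k + Q.card = d + 1 ∧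
          ∀ k, e k ≠ 0 → Squarefree (SRK.fam fun κ => eval (Sum.elim p s) (A k κ)) ∧
            ∃ (ζ : AlgebraicClosure K) (X Y : Fin (g k) → AlgebraicClosure K),
              IsPrimitiveRoot ζ (ℓ k) ∧
              (∀ i, X i = eval (Sum.elim p s) (F ⟨k, i⟩) + ∑ α : {α // α ∈ I},
                algebraMap K (AlgebraicClosure K) (∑ l, (x.2 (⟨k, i⟩, α) l : ℚ) • om l) /
                  (x.1 : AlgebraicClosure K) * ∏ j, Sum.elim p s j ^ (α.1.1 j : ℕ)) ∧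
              (∀ i, Y i ^ ℓ k = (SRK.fam fun κ => eval (Sum.elim p s) (A k κ)).eval (X i)) ∧
              SRK.Rel (ℓ k) (SRK.fam fun κ => eval (Sum.elim p s) (A k κ)) ζ X Y (e k)} : ℝ) ≤
        C * (H : ℝ) ^ (((Module.finrank ℚ K * ((∑ k, g k) * I.card) : ℕ) : ℝ) + ε)

theorem p_FIJ (hCRJ : T_CRJ) (hSV3 : PKE.T_SV3) : T_FIJ := by
  classical
  intro K _ _ m g ℓ M hℓ hM hM2 d n D hK om ρ b I hI hb Δ hΔ ε hε
  obtain ⟨C, p0, hC⟩ := hCRJ K (AlgebraicClosure K) m g ℓ M hℓ hM hM2 d n D hK om ρ b I hI hb Δ hΔ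
  -- the property
  let BadU : ℕ → (((Σ k, Fin (g k)) × {α // α ∈ I}) → Fin (Module.finrank ℚ K) → ℤ) → Prop :=
    fun β a => ∃ (A : (k : Fin m) → Fin (M k) →
            MvPolynomial (Fin d ⊕ Fin n) (AlgebraicClosure K))
          (F : (Σ k, Fin (g k)) → MvPolynomial (Fin d ⊕ Fin n) (AlgebraicClosure K)),
          (∀ k (κ : Fin (M k)), (A k κ).totalDegree ≤ ((κ : ℕ) + 1) * D) ∧
          (∀ i, (F i).totalDegree ≤ D) ∧
          (∀ t, (∀ k κ, SI Δ ((A k κ).coeff t)) ∧ (∀ i, SI Δ ((F i).coeff t))) ∧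
          Bad g ℓ M D ρ b A (PKE.cf I (fun u => (F u.1).coeff (fsM u.2))
            fun u => algebraMap K (AlgebraicClosure K) (∑ l, (a u l : ℚ) • om l) /
              (β : AlgebraicClosure K))
  have hex : ∀ p : ℕ, ∃ Bp : Finset (((Σ k, Fin (g k)) × {α // α ∈ I}) →
        Fin (Module.finrank ℚ K) → ZMod p),
      p0 ≤ p → p.Prime →
      Bp.card * p ≤
        C * p ^ (Module.finrank ℚ K * Fintype.card ((Σ k, Fin (g k)) × {α // α ∈ I})) ∧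
      ∀ (β : ℕ) (a : ((Σ k, Fin (g k)) × {α // α ∈ I}) → Fin (Module.finrank ℚ K) → ℤ),
        0 < β → p ∣ β → BadU β a → (fun u l => (a u l : ZMod p)) ∈ Bp := by
    intro p
    by_cases h : p0 ≤ p ∧ p.Prime
    · obtain ⟨Bp, h1, h2⟩ := hC p h.1 h.2
      refine ⟨Bp, fun _ _ => ⟨h1, fun β a hβ hpβ hbad => ?_⟩⟩
      obtain ⟨A, F, hdeg, -, hSI, hbad⟩ := hbad
      exact h2 β a hβ hpβ A _ hdeg (fun k κ t => (hSI t).1 k κ) (fun u => (hSI _).2 u.1) hbad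
    · exact ⟨∅, fun h1 h2 => absurd ⟨h1, h2⟩ h⟩
  choose Bp hBp using hex
  let κ := ((Σ k, Fin (g k)) × {α // α ∈ I}) × Fin (Module.finrank ℚ K)
  have hcard : Fintype.card κ =
      Module.finrank ℚ K * Fintype.card ((Σ k, Fin (g k)) × {α // α ∈ I}) := by
    simp only [κ, Fintype.card_prod, Fintype.card_fin]
    ring
  have hcard2 : Fintype.card κ = Module.finrank ℚ K * ((∑ k, g k) * I.card) := by
    rw [hcard, Fintype.card_prod, Fintype.card_sigma, Fintype.card_coe]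
    simp only [Fintype.card_fin]
  obtain ⟨C', h1⟩ := hSV3 κ C p0 (fun p => (Bp p).map
      (Equiv.curry ((Σ k, Fin (g k)) × {α // α ∈ I}) (Fin (Module.finrank ℚ K))
        (ZMod p)).symm.toEmbedding)
    (fun β a => BadU β fun u l => a (u, l))
    (fun p hp hpp => by
      rw [Finset.card_map, hcard]
      exact (hBp p hp hpp).1)
    (fun p hp hpp β a h2 h3 h4 => by
      have h5 := (hBp p hp hpp).2 β (fun u l => a (u, l)) h2 h3 h4
      rw [Finset.mem_map]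
      refine ⟨_, h5, ?_⟩
      funext x
      rfl) ε hε
  rw [hcard2] at h1
  refine ⟨C', fun H hH => le_trans (le_of_eq ?_) (h1 H hH)⟩
  congr 1
  refine (Nat.card_congr (Equiv.subtypeEquiv ((Equiv.refl ℕ).prodCongr
    (Equiv.curry ((Σ k, Fin (g k)) × {α // α ∈ I}) (Fin (Module.finrank ℚ K)) ℤ))
      fun x => ?_)).symm
  simp only [Equiv.prodCongr_apply, Prod.map_fst, Prod.map_snd, Equiv.refl_apply, Equiv.curry_apply,
    BadU]
  constructor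
  · rintro ⟨a1, a2, a3, A, F, b1, b2, b3, b4⟩
    exact ⟨a1, a2, fun u l => a3 (u, l), A, F, b1, b2, b3,
      (bad_iff g ℓ M ρ b A I F b2 _).1 b4⟩
  · rintro ⟨a1, a2, a3, A, F, b1, b2, b3, b4⟩
    exact ⟨a1, a2, fun i => a3 i.1 i.2, A, F, b1, b2, b3,
      (bad_iff g ℓ M ρ b A I F b2 _).2 b4⟩

end PKJ
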