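import Pool.Agent.PKJ.Targets

/-!
Project PKJ, target FRJ: Frobenius on residues.
-/

set_option autoImplicit false

namespace PKJ

open MvPolynomial RD PKD

namespace FRJ_

variable {Ω k : Type} [Field Ω] [Field k] {v : AbsoluteValue Ω ℝ} {r : Ω → k}

lemma v_natCast (h : Red v r) (n : ℕ) : v (n : Ω) ≤ 1 := by
  induction n with
  | zero => simp
  | succ n ih =>
    rw [Nat.cast_succ]
    refine (h.na _ _).trans ?_
    rw [map_one]
    exact max_le ih le_rfl

lemma v_neg (x : Ω) : v (-x) = v x := AbsoluteValue.map_neg v x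

lemma v_intCast (h : Red v r) (n : ℤ) : v (n : Ω) ≤ 1 := by
  rcases n.natAbs_eq with hn | hn
  · rw [hn]; simpa using v_natCast h n.natAbs
  · rw [hn]; simpa [v_neg] using v_natCast h n.natAbs

lemma r_zero (h : Red v r) : r 0 = 0 := (h.ker 0 (by simp)).mpr (by simp)

lemma r_natCast (h : Red v r) (n : ℕ) : r (n : Ω) = n := by
  induction n with
  | zero => simpa using r_zero h
  | succ n ih =>
    rw [Nat.cast_succ, h.add _ _ (v_natCast h n) (by simp), ih, h.one, Nat.cast_succ]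

lemma r_neg (h : Red v r) (x : Ω) (hx : v x ≤ 1) : r (-x) = - r x := by
  have h1 := h.add x (-x) hx (by rwa [v_neg])
  rw [add_neg_cancel, r_zero h] at h1
  exact (neg_eq_of_add_eq_zero_right h1.symm).symm

lemma r_intCast (h : Red v r) (n : ℤ) : r (n : Ω) = n := by
  obtain ⟨m, hm⟩ : ∃ m : ℕ, n = m ∨ n = -m := ⟨n.natAbs, n.natAbs_eq⟩
  rcases hm with rfl | rfl
  · simpa using r_natCast h m
  · have h2 := r_neg h _ (v_natCast h m)
    rw [r_natCast h m] at h2
    simpa using h2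

lemma r_pow (h : Red v r) (x : Ω) (hx : v x ≤ 1) (n : ℕ) : r (x ^ n) = r x ^ n := by
  induction n with
  | zero => simpa using h.one
  | succ n ih =>
    rw [pow_succ, pow_succ, h.mul _ _ _ hx, ih]
    rw [map_pow]
    exact pow_le_one₀ (v.nonneg _) hx

end FRJ_

open FRJ_ in
theorem p_FRJ (h : T_VI) : T_FRJ := by
  intro Ω k _ _ _ p v r hR hp hvp ℓ _ ζ hζ ψ ψ' hψ x hx
  have : Fact p.Prime := ⟨hp⟩
  have hchar : CharP k p := by
    have h0 : (p : k) = 0 := by
      rw [← r_natCast hR p]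
      exact (hR.ker _ (v_natCast hR p)).mpr hvp
    exact (CharP.charP_iff_prime_eq_zero hp).mpr h0
  -- elements of ℤ[ζ]
  have key : ∀ y ∈ Algebra.adjoin ℤ {ζ}, ∃ a : IntermediateField.adjoin ℚ {ζ}, (a : Ω) = y ∧
      v (ψ a) ≤ 1 ∧ v (ψ' a) ≤ 1 ∧ r (ψ' a) = r (ψ a) ^ p := by
    intro y hy
    induction hy using Algebra.adjoin_induction with
    | mem y hy =>
      rw [Set.mem_singleton_iff] at hy
      subst hy
      set g := IntermediateField.AdjoinSimple.gen ℚ y with hg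
      have hgl : g ^ ℓ = 1 := by
        apply Subtype.ext
        show (g : Ω) ^ ℓ = 1
        rw [hg, IntermediateField.AdjoinSimple.coe_gen]
        exact hζ.pow_eq_one
      have hl0 : ℓ ≠ 0 := (Fact.out : ℓ.Prime).ne_zero
      have hvg : v (ψ g) = 1 := by
        have h1 : (v (ψ g)) ^ ℓ = 1 := by
          rw [← map_pow, ← map_pow, hgl, map_one, map_one]
        exact (pow_eq_one_iff_of_nonneg (v.nonneg _) hl0).mp h1
      refine ⟨g, IntermediateField.AdjoinSimple.coe_gen ℚ y, hvg.le, ?_, ?_⟩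
      · rw [hψ, map_pow, hvg, one_pow]
      · rw [hψ, r_pow hR _ hvg.le]
    | algebraMap n =>
      refine ⟨(n : IntermediateField.adjoin ℚ {ζ}), by simp, ?_, ?_, ?_⟩
      · rw [map_intCast]; exact v_intCast hR n
      · rw [map_intCast]; exact v_intCast hR n
      · rw [map_intCast, map_intCast, r_intCast hR]
        have := map_intCast (frobenius k p) n
        rw [frobenius_def] at this
        exact this.symm
    | add y z _ _ hy hz =>
      obtain ⟨a, ha, a1, a2, a3⟩ := hy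
      obtain ⟨b, hb, b1, b2, b3⟩ := hz
      refine ⟨a + b, by push_cast; rw [ha, hb], ?_, ?_, ?_⟩
      · rw [map_add]; exact (hR.na _ _).trans (max_le a1 b1)
      · rw [map_add]; exact (hR.na _ _).trans (max_le a2 b2)
      · rw [map_add, map_add, hR.add _ _ a2 b2, hR.add _ _ a1 b1, a3, b3, add_pow_char]
    | mul y z _ _ hy hz =>
      obtain ⟨a, ha, a1, a2, a3⟩ := hy
      obtain ⟨b, hb, b1, b2, b3⟩ := hz
      refine ⟨a * b, by push_cast; rw [ha, hb], ?_, ?_, ?_⟩
      · rw [map_mul, map_mul]; exact mul_le_one₀ a1 (v.nonneg _) b1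
      · rw [map_mul, map_mul]; exact mul_le_one₀ a2 (v.nonneg _) b2
      · rw [map_mul, map_mul, hR.mul _ _ a2 b2, hR.mul _ _ a1 b1, a3, b3, mul_pow]
  have key' : ∀ a : IntermediateField.adjoin ℚ {ζ}, (a : Ω) ∈ Algebra.adjoin ℤ {ζ} →
      v (ψ a) ≤ 1 ∧ v (ψ' a) ≤ 1 ∧ r (ψ' a) = r (ψ a) ^ p := by
    intro a ha
    obtain ⟨b, hb, h1⟩ := key _ ha
    have : b = a := Subtype.ext hb
    subst this
    exact h1
  obtain ⟨γ, hγ, hγ1, hγx⟩ := (h Ω ℓ ζ hζ).2 v hR.na ψ Unit (fun _ => x) (fun _ => hx)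
  have hγx' := hγx ()
  obtain ⟨g1, g2, g3⟩ := key' γ hγ
  obtain ⟨a1, a2, a3⟩ := key' (γ * x) (by push_cast; exact hγx')
  have hrγ : r (ψ γ) ≠ 0 := by
    intro h0
    have := (hR.ker _ g1).mp h0
    rw [hγ1] at this
    exact lt_irrefl _ this
  have hrγ' : r (ψ' γ) ≠ 0 := by
    rw [g3]; exact pow_ne_zero _ hrγ
  have hvγ' : v (ψ' γ) = 1 := by
    rcases g2.lt_or_eq with h1 | h1
    · exact absurd ((hR.ker _ g2).mpr h1) hrγ'
    · exact h1
  have hx' : v (ψ' x) ≤ 1 := by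
    rw [map_mul, map_mul, hvγ', one_mul] at a2
    exact a2
  refine ⟨hx', ?_⟩
  rw [map_mul, map_mul, hR.mul _ _ g2 hx', hR.mul _ _ g1 hx, mul_pow, g3] at a3
  exact mul_left_cancel₀ (pow_ne_zero _ hrγ) a3

end PKJ
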