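import Mathlib
import Pool.Agent.SRK.Defs
import Pool.Agent.PKE.Defs

/-!
Definitions for project PKJ (MP_28d749_ag): the rank of sections of superelliptic Jacobians of any
genus in every fibre, with expected dimensions, for all but a power saving proportion of the
sections, uniformly in the superelliptic families.
-/

set_option autoImplicit false

namespace PKJ

open MvPolynomial RD PKD

/-- The multisection with coefficients `c` is bad: for some set `Q` of coordinates, over a set of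
points of the base which dominates the `Q`-coordinates, the points `P_(k,i)` with abscissas
`f_(k, i)(p, s)` on the curves `Y ^ (ℓ k) = X ^ (M k) + ∑ κ, A_(k,κ) X ^ (M k - 1 - κ)` satisfy
`d + 1 - |Q|` independent relations over `ℤ[ζ]` modulo torsion (`e k` of them on the `k`-th curve,
which has to be smooth if `e k ≠ 0`). -/
def Bad {Ω : Type} [Field Ω] {d n m : ℕ} (g ℓ M : Fin m → ℕ) (D : ℕ) (ρ : Fin n → ℕ)
    (b : Fin n → ℕ → MvPolynomial (Fin d) Ω)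
    (A : (k : Fin m) → Fin (M k) → MvPolynomial (Fin d ⊕ Fin n) Ω)
    (c : (Σ k, Fin (g k)) × MonS d n D → Ω) : Prop :=
  ∃ (Q : Finset (Fin d)) (G : MvPolynomial (Fin d) Ω), G ≠ 0 ∧ ∀ z : Fin d → Ω, eval z G ≠ 0 →
    ∃ (p : Fin d → Ω) (s : Fin n → Ω), OnBase ρ b p s ∧ (∀ i ∈ Q, p i = z i) ∧
      ∃ e : Fin m → ℕ, ∑ k, e k + Q.card = d + 1 ∧ ∀ k, e k ≠ 0 →
        Squarefree (SRK.fam fun κ => eval (Sum.elim p s) (A k κ)) ∧
        ∃ (ζ : Ω) (y : Fin (g k) → Ω), IsPrimitiveRoot ζ (ℓ k) ∧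
          (∀ i, y i ^ ℓ k = (SRK.fam fun κ => eval (Sum.elim p s) (A k κ)).eval
            (PKE.fval D c p s ⟨k, i⟩)) ∧
          SRK.Rel (ℓ k) (SRK.fam fun κ => eval (Sum.elim p s) (A k κ)) ζ
            (fun i => PKE.fval D c p s ⟨k, i⟩) y (e k)

/-- the system over the residue field; the coordinates in `Q` vanish -/
def Sys {k : Type} [Field k] {d n : ℕ} {ι A : Type} [DecidableEq ι] [Fintype A] (ρ : Fin n → ℕ)
    (b : Fin n → ℕ → MvPolynomial (Fin d) k) (u : A → MvPolynomial (Fin d ⊕ Fin n) k) (α0 : A)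
    (Q : Finset (Fin d)) (E : ι → ℕ) (S J W : Finset ι) (τ : ι → ι → k) (c : ι × A → k)
    (p : Fin d → k) (s : Fin n → k) (h : ι → k) : Prop :=
  OnBase ρ b p s ∧ (∀ i ∈ Q, p i = 0) ∧ eval (Sum.elim p s) (u α0) ≠ 0 ∧
  (∀ i ∈ S, ∑ α, c (i, α) * eval (Sum.elim p s) (u α) = 0) ∧
  (∀ i ∈ W, h i ^ E i * ∑ α, c (i, α) * eval (Sum.elim p s) (u α) = 1) ∧
  (∀ j ∈ J, h j = ∑ i ∈ W \ J, τ j i * h i)

/-- power series with coefficients in the valuation ring -/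
def Ib {Ω : Type} [Field Ω] (v : AbsoluteValue Ω ℝ) (F : PowerSeries Ω) : Prop :=
  ∀ n, v (PowerSeries.coeff n F) ≤ 1

/-- bounded Laurent series -/
def Bd {Ω : Type} [Field Ω] (v : AbsoluteValue Ω ℝ) (F : LaurentSeries Ω) : Prop :=
  ∃ C : ℝ, ∀ n, v (F.coeff n) ≤ C

/-- `1 + ∑ a_κ z ^ (ℓ (κ + 1))` -/
noncomputable def Wz {Ω : Type} [Field Ω] (ℓ : ℕ) {m : ℕ} (a : Fin m → Ω) : PowerSeries Ω :=
  1 + ∑ κ : Fin m, PowerSeries.monomial (ℓ * ((κ : ℕ) + 1)) (a κ)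

/-- the expansion at infinity of the functions on the curve `Y ^ ℓ = X ^ m + ∑ a_κ X ^ (m - 1 - κ)`:
`X = z ^ (-ℓ)`, `Y = z ^ (-m) U` -/
structure Ph {Ω : Type} [Field Ω] (v : AbsoluteValue Ω ℝ) (ℓ : ℕ) {m : ℕ} (a : Fin m → Ω)
    (U : PowerSeries Ω) (φ : SRK.Crd ℓ (SRK.fam a) →+* LaurentSeries Ω) : Prop where
  u0 : PowerSeries.constantCoeff U = 1
  ui : Ib v U
  ul : ∀ n, ¬ ℓ ∣ n → PowerSeries.coeff n U = 0
  up : U ^ ℓ = Wz ℓ a
  phC : ∀ c : Ω, φ (AdjoinRoot.of _ (Polynomial.C c)) = HahnSeries.C c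
  phX : φ (AdjoinRoot.of _ Polynomial.X) = HahnSeries.single (-(ℓ : ℤ)) 1
  phY : φ (AdjoinRoot.root _) = HahnSeries.single (-(m : ℤ)) 1 * (U : LaurentSeries Ω)

end PKJ
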