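import Mathlib
import Pool.Agent.PKJ.Defs
import Pool.Agent.PKE.Targets
import Pool.Agent.SRK.Targets

/-!
Targets of project PKJ. Each job proves one of them in its own file `Pool/Agent/PKJ/<NAME>.lean` as
`theorem p_<NAME> (hypotheses...) : T_<NAME>`. Proofs: `Pool/Agent/PKJ/Blueprint.lean.txt`.
-/

set_option autoImplicit false

namespace PKJ

open MvPolynomial RD PKD

/-! ### Block 1: expansion at infinity -/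

/-- RT: roots of power series over the valuation ring -/
def T_RT : Prop := ∀ (Ω : Type) [Field Ω] (v : AbsoluteValue Ω ℝ) (ℓ : ℕ), IsNonarchimedean v →
  v (ℓ : Ω) = 1 → ∀ W : PowerSeries Ω, PowerSeries.constantCoeff W = 1 → Ib v W →
  (∀ n, ¬ ℓ ∣ n → PowerSeries.coeff n W = 0) →
  ∃ U : PowerSeries Ω, PowerSeries.constantCoeff U = 1 ∧ Ib v U ∧
    (∀ n, ¬ ℓ ∣ n → PowerSeries.coeff n U = 0) ∧ U ^ ℓ = W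

/-- PHI (from T_RT): existence of the expansion -/
def T_PHI : Prop := ∀ (Ω : Type) [Field Ω] (v : AbsoluteValue Ω ℝ) (ℓ m : ℕ) [Fact ℓ.Prime],
  IsNonarchimedean v → v (ℓ : Ω) = 1 → ∀ a : Fin m → Ω, (∀ κ, v (a κ) ≤ 1) →
  ∃ (U : PowerSeries Ω) (φ : SRK.Crd ℓ (SRK.fam a) →+* LaurentSeries Ω), Ph v ℓ a U φ

/-- BDD: the functions have bounded expansions -/
def T_BDD : Prop := ∀ (Ω : Type) [Field Ω] (v : AbsoluteValue Ω ℝ) (ℓ m : ℕ) [Fact ℓ.Prime],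
  IsNonarchimedean v → ∀ (a : Fin m → Ω) (U : PowerSeries Ω)
  (φ : SRK.Crd ℓ (SRK.fam a) →+* LaurentSeries Ω), Ph v ℓ a U φ →
  ∃ (B : Subring (LaurentSeries Ω)) (ψ : SRK.Crd ℓ (SRK.fam a) →+* B),
    (∀ F : LaurentSeries Ω, F ∈ B ↔ Bd v F) ∧ ∀ g, (ψ g : LaurentSeries Ω) = φ g

/-- LAM (from SRK.T_BAS): a functional which vanishes on the functions, because `1` is a gap -/
def T_LAM : Prop := ∀ (Ω : Type) [Field Ω] (v : AbsoluteValue Ω ℝ) (ℓ m : ℕ) [Fact ℓ.Prime],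
  IsNonarchimedean v → ¬ ℓ ∣ m → 2 ≤ m → ∀ (a : Fin m → Ω) (U : PowerSeries Ω)
  (φ : SRK.Crd ℓ (SRK.fam a) →+* LaurentSeries Ω), Ph v ℓ a U φ →
  ∃ E : PowerSeries Ω, PowerSeries.constantCoeff E = 1 ∧ Ib v E ∧
    ∀ g, (φ g * (E : LaurentSeries Ω)).coeff (-1) = 0

/-- UNI: units of the ring of bounded Laurent series -/
def T_UNI : Prop := ∀ (Ω : Type) [Field Ω] (v : AbsoluteValue Ω ℝ), IsNonarchimedean v →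
  ∀ F G : LaurentSeries Ω, Bd v F → Bd v G → F * G = 1 →
  ∃ (c : Ω) (k : ℤ) (V : PowerSeries Ω), c ≠ 0 ∧ PowerSeries.constantCoeff V = 1 ∧ Ib v V ∧
    F = HahnSeries.single k c * (V : LaurentSeries Ω)

/-- PTI: the ideal of a point near infinity is generated by `z - z₀` -/
def T_PTI : Prop := ∀ (Ω : Type) [Field Ω] (v : AbsoluteValue Ω ℝ) (ℓ m : ℕ) [Fact ℓ.Prime],
  IsNonarchimedean v → v (ℓ : Ω) = 1 → ¬ ℓ ∣ m → ∀ (a : Fin m → Ω), (∀ κ, v (a κ) ≤ 1) →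
  ∀ (U : PowerSeries Ω) (φ : SRK.Crd ℓ (SRK.fam a) →+* LaurentSeries Ω), Ph v ℓ a U φ →
  ∀ (B : Subring (LaurentSeries Ω)) (ψ : SRK.Crd ℓ (SRK.fam a) →+* B),
    (∀ F : LaurentSeries Ω, F ∈ B ↔ Bd v F) → (∀ g, (ψ g : LaurentSeries Ω) = φ g) →
  ∀ ζ : Ω, IsPrimitiveRoot ζ ℓ → ∀ x y z0 : Ω, v z0 < 1 → z0 ^ ℓ * x = 1 →
    y ^ ℓ = (SRK.fam a).eval x → v (z0 ^ m * y - 1) < 1 →
  ∃ w : B, (w : LaurentSeries Ω) = HahnSeries.single 1 1 - HahnSeries.C z0 ∧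
    Ideal.map ψ (SRK.pt ℓ (SRK.fam a) x y) = Ideal.span {w}

/-- ORD (from SRK.T_BAS): conjugate functions have the same order at infinity -/
def T_ORD : Prop := ∀ (Ω : Type) [Field Ω] (v : AbsoluteValue Ω ℝ) (ℓ m : ℕ) [Fact ℓ.Prime],
  ¬ ℓ ∣ m → ∀ (a : Fin m → Ω) (U : PowerSeries Ω)
  (φ : SRK.Crd ℓ (SRK.fam a) →+* LaurentSeries Ω), Ph v ℓ a U φ →
  ∀ ζ : Ω, ζ ^ ℓ = 1 → ∀ A : Fin ℓ → Polynomial Ω, A ≠ 0 →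
    φ (SRK.el ℓ (SRK.fam a) A) ≠ 0 ∧ ∀ t : ℕ,
    (φ (SRK.el ℓ (SRK.fam a) (SRK.tw ζ t A))).order = (φ (SRK.el ℓ (SRK.fam a) A)).order

/-- NMP (from SRK.T_NMJ, SRK.T_JQ, SRK.T_BAS): norm of a generator -/
def T_NMP : Prop := ∀ (Ω : Type) [Field Ω] [IsAlgClosed Ω] (ℓ m : ℕ) [Fact ℓ.Prime] (ζ : Ω),
  IsPrimitiveRoot ζ ℓ → ¬ ℓ ∣ m → ∀ a : Fin m → Ω, Squarefree (SRK.fam a) →
  ∀ (N : ℕ) (x y : Fin N → Ω), (∀ i, y i ^ ℓ = (SRK.fam a).eval (x i)) →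
  ∀ (α : Fin N → Fin ℓ → ℕ) (h : SRK.Crd ℓ (SRK.fam a)),
    SRK.dv ℓ (SRK.fam a) ζ x y α = Ideal.span {h} →
    ∃ A : Fin ℓ → Polynomial Ω, h = SRK.el ℓ (SRK.fam a) A ∧ A ≠ 0 ∧ ∃ c : Ω, c ≠ 0 ∧
      ∏ t ∈ Finset.range ℓ, SRK.el ℓ (SRK.fam a) (SRK.tw ζ t A) =
        AdjoinRoot.of _ (Polynomial.C c * ∏ i, (Polynomial.X - Polynomial.C (x i)) ^ ∑ j, α i j)

/-- ORH (from T_ORD, T_NMP): the order at infinity of a generator -/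
def T_ORH : Prop := ∀ (Ω : Type) [Field Ω] [IsAlgClosed Ω] (v : AbsoluteValue Ω ℝ) (ℓ m : ℕ)
  [Fact ℓ.Prime] (ζ : Ω), IsPrimitiveRoot ζ ℓ → ¬ ℓ ∣ m → ∀ a : Fin m → Ω,
  Squarefree (SRK.fam a) → ∀ (U : PowerSeries Ω)
  (φ : SRK.Crd ℓ (SRK.fam a) →+* LaurentSeries Ω), Ph v ℓ a U φ →
  ∀ (N : ℕ) (x y : Fin N → Ω), (∀ i, y i ^ ℓ = (SRK.fam a).eval (x i)) →
  ∀ (α : Fin N → Fin ℓ → ℕ) (h : SRK.Crd ℓ (SRK.fam a)),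
    SRK.dv ℓ (SRK.fam a) ζ x y α = Ideal.span {h} →
    φ h ≠ 0 ∧ (φ h).order = -((∑ i, ∑ j, α i j : ℕ) : ℤ)

/-- GBD: coefficients of a large power -/
def T_GBD : Prop := ∀ (Ω : Type) [Field Ω] [CharZero Ω] (v : AbsoluteValue Ω ℝ) (r0 : ℝ),
  IsNonarchimedean v → 0 < r0 → ∀ g : Polynomial Ω, g.coeff 0 = 1 →
  (∀ n, v (g.coeff n) ≤ r0 ^ n) → ∀ N : ℕ, (g ^ N).coeff 0 = 1 ∧
    (g ^ N).coeff 1 = N * g.coeff 1 ∧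
    ∀ j, 1 ≤ j → ∃ i, 1 ≤ i ∧ i ≤ j ∧ v ((g ^ N).coeff j) * v (i : Ω) ≤ v (N : Ω) * r0 ^ j

/-- PW: the numerical estimate for the denominators -/
def T_PW : Prop := ∀ (Ω : Type) [Field Ω] [CharZero Ω] (v : AbsoluteValue Ω ℝ) (p : ℕ) (r0 : ℝ),
  IsNonarchimedean v → p.Prime → v (p : Ω) < 1 → 0 < r0 → r0 < 1 → r0 ^ (p - 1) < v (p : Ω) →
  ∀ i j : ℕ, 1 ≤ i → i ≤ j → 2 ≤ j → r0 ^ j < v (i : Ω) * r0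

/-- LLJ (from T_PHI, T_BDD, T_LAM, T_UNI, T_PTI, T_ORH, T_GBD, T_PW): the local lemma -/
def T_LLJ : Prop := ∀ (Ω : Type) [Field Ω] [CharZero Ω] [IsAlgClosed Ω] (v : AbsoluteValue Ω ℝ)
  (p ℓ m : ℕ) [Fact p.Prime] [Fact ℓ.Prime], IsNonarchimedean v → v (p : Ω) < 1 → ℓ + 2 ≤ p →
  ¬ ℓ ∣ m → 2 ≤ m → ∀ a : Fin m → Ω, (∀ κ, v (a κ) ≤ 1) → Squarefree (SRK.fam a) →
  ∀ ζ : Ω, IsPrimitiveRoot ζ ℓ → ∀ (N : ℕ) (x y z : Fin N → Ω) (r0 : ℝ),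
    (∀ i, y i ^ ℓ = (SRK.fam a).eval (x i)) → (∀ i, z i ^ ℓ * x i = 1) →
    (∀ i, v (z i ^ m * y i - 1) < 1) → (∀ i, v (z i) = r0) → 0 < r0 → r0 < 1 →
    r0 ^ (p - 1) < v (p : Ω) → ∀ α : Fin N → Fin ℓ → ℕ, SRK.Tors ℓ (SRK.fam a) ζ x y α →
    ∀ m' : ℕ, ℓ ∣ m * m' + 1 →
      v (∑ i, (∑ j : Fin ℓ, (α i j : Ω) * ζ ^ ((j : ℕ) * m')) * z i) < r0

/-! ### Block 2: relations and residual data -/

/-- EMJ: embeddings of the cyclotomic field -/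
def T_EMJ : Prop := ∀ (Ω : Type) [Field Ω] [CharZero Ω] (ℓ : ℕ) [Fact ℓ.Prime] (ζ : Ω),
  IsPrimitiveRoot ζ ℓ → ∀ s : ℕ, ¬ ℓ ∣ s →
  ∃ ψ : IntermediateField.adjoin ℚ {ζ} →+* Ω,
    ψ (IntermediateField.AdjoinSimple.gen ℚ ζ) = ζ ^ s

/-- VI: denominators in the cyclotomic field -/
def T_VI : Prop := ∀ (Ω : Type) [Field Ω] [CharZero Ω] (ℓ : ℕ) [Fact ℓ.Prime] (ζ : Ω),
  IsPrimitiveRoot ζ ℓ →
  (∀ x : IntermediateField.adjoin ℚ {ζ}, ∃ q : ℕ, q ≠ 0 ∧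
    (q : Ω) * x ∈ Algebra.adjoin ℤ {ζ}) ∧
  ∀ v : AbsoluteValue Ω ℝ, IsNonarchimedean v →
  ∀ (ψ : IntermediateField.adjoin ℚ {ζ} →+* Ω) (ι : Type) [Finite ι]
    (τ : ι → IntermediateField.adjoin ℚ {ζ}), (∀ i, v (ψ (τ i)) ≤ 1) →
    ∃ γ : IntermediateField.adjoin ℚ {ζ}, (γ : Ω) ∈ Algebra.adjoin ℤ {ζ} ∧ v (ψ γ) = 1 ∧
      ∀ i, (γ : Ω) * (τ i : Ω) ∈ Algebra.adjoin ℤ {ζ}

/-- FRJ (from T_VI): Frobenius -/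
def T_FRJ : Prop := ∀ (Ω k : Type) [Field Ω] [CharZero Ω] [Field k] (p : ℕ)
  (v : AbsoluteValue Ω ℝ) (r : Ω → k), Red v r → p.Prime → v (p : Ω) < 1 →
  ∀ (ℓ : ℕ) [Fact ℓ.Prime] (ζ : Ω), IsPrimitiveRoot ζ ℓ →
  ∀ ψ ψ' : IntermediateField.adjoin ℚ {ζ} →+* Ω,
    ψ' (IntermediateField.AdjoinSimple.gen ℚ ζ) =
      ψ (IntermediateField.AdjoinSimple.gen ℚ ζ) ^ p →
    ∀ x, v (ψ x) ≤ 1 → v (ψ' x) ≤ 1 ∧ r (ψ' x) = r (ψ x) ^ p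

/-- DTJ (from T_FRJ, T_EMJ, PKE.T_RAT, PKE.T_ECH, RD.T_PIV, RD.T_DIM): the residual data at all the
embeddings of the cyclotomic field -/
def T_DTJ : Prop := ∀ (ℓ : ℕ) [Fact ℓ.Prime] (g e : ℕ), ∃ C : ℕ, ∀ (k : Type) [Field k] (p : ℕ),
  p.Prime → p ≠ ℓ → CharP k p →
  ∃ Ds : Finset (ZMod ℓ → PKE.Dat g k), Ds.card ≤ C * p ^ ((ℓ - 1) * (e * (g - e))) ∧
    ∀ (Ω : Type) [Field Ω] [CharZero Ω] (v : AbsoluteValue Ω ℝ) (r : Ω → k), Red v r →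
      v (p : Ω) < 1 → ∀ ζ : Ω, IsPrimitiveRoot ζ ℓ →
      ∀ U : Submodule (IntermediateField.adjoin ℚ {ζ}) (Fin g → IntermediateField.adjoin ℚ {ζ}),
        Module.finrank (IntermediateField.adjoin ℚ {ζ}) U = e →
        ∃ D ∈ Ds, ∀ (s : ℕ) (ψ : IntermediateField.adjoin ℚ {ζ} →+* Ω),
          ψ (IntermediateField.AdjoinSimple.gen ℚ ζ) = ζ ^ s →
          PKE.Rz (fun x => v (ψ x)) (fun x => r (ψ x)) U e (D (s : ZMod ℓ))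

/-- SCJ (from SRK.T_SCL): scaling -/
def T_SCJ : Prop := ∀ (Ω : Type) [Field Ω] [IsAlgClosed Ω] (ℓ m : ℕ), 0 < ℓ →
  ∀ (a : Fin m → Ω) (ζ u κ0 : Ω), u ≠ 0 → κ0 ^ ℓ = u ^ m →
  ∀ (N : ℕ) (x y : Fin N → Ω) (α : Fin N → Fin ℓ → ℕ), SRK.Tors ℓ (SRK.fam a) ζ x y α →
  SRK.Tors ℓ (SRK.fam fun κ : Fin m => a κ / u ^ ((κ : ℕ) + 1)) ζ (fun i => x i / u)
    (fun i => y i / κ0) α

/-- RLJ (from T_LLJ, T_EMJ, T_VI, T_SCJ, SRK.T_MOD): the relations as a subspace `U` of `F ^ g`,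
`F = ℚ(ζ)`, the same for all absolute values -/
def T_RLJ : Prop := ∀ (Ω : Type) [Field Ω] [CharZero Ω] [IsAlgClosed Ω] (ℓ m : ℕ)
  [Fact ℓ.Prime], ¬ ℓ ∣ m → 2 ≤ m → ∀ a : Fin m → Ω, Squarefree (SRK.fam a) →
  ∀ ζ : Ω, IsPrimitiveRoot ζ ℓ → ∀ (g : ℕ) (x y : Fin g → Ω),
    (∀ i, y i ^ ℓ = (SRK.fam a).eval (x i)) → ∀ e : ℕ, SRK.Rel ℓ (SRK.fam a) ζ x y e →
  ∃ (φ : IntermediateField.adjoin ℚ {ζ} →+* Ω)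
    (U : Submodule (IntermediateField.adjoin ℚ {ζ}) (Fin g → IntermediateField.adjoin ℚ {ζ})),
    Module.finrank (IntermediateField.adjoin ℚ {ζ}) U = e ∧
    ∀ (p : ℕ) (v : AbsoluteValue Ω ℝ), p.Prime → IsNonarchimedean v → v (p : Ω) < 1 →
      ℓ + 2 ≤ p → ∀ u κ0 : Ω, u ≠ 0 → κ0 ^ ℓ = u ^ m →
      (∀ κ : Fin m, v (a κ) ≤ v u ^ ((κ : ℕ) + 1)) →
      ∀ (D : Finset (Fin g)) (z : Fin g → Ω) (r0 : ℝ), 0 < r0 → r0 < 1 →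
      r0 ^ (p - 1) < v (p : Ω) →
      (∀ i, i ∉ D → z i ^ ℓ * x i = u ∧ v (z i ^ m * y i - κ0) < v κ0 ∧ v (z i) = r0) →
      ∀ τ ∈ U, (∀ i ∈ D, τ i = 0) → (∀ i, v (φ (τ i)) ≤ 1) →
        v (∑ i ∈ Dᶜ, φ (τ i) * z i) < r0

/-! ### Block 3: one place -/

/-- PBJ: the base at one place; adapt `Pool/Agent/PKE/PLCM.lean`, `PLCI.lean` -/
def T_PBJ : Prop := ∀ (Ω k : Type) [Field Ω] [Field k] (v : AbsoluteValue Ω ℝ) (r : Ω → k),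
  Red v r → ∀ (d n D : ℕ) (ι : Type) [Fintype ι] (ρ : Fin n → ℕ) (b : Fin n → ℕ → MvPolynomial (Fin d) Ω),
    (∀ j l, l < ρ j → (b j l).totalDegree ≤ ρ j - l ∧ ∀ t, v ((b j l).coeff t) ≤ 1) →
  ∀ (β : Ω) (c : ι × MonS d n D → Ω), (∀ u, v (β * c u) ≤ 1) →
  ∀ (x : Fin d → Ω) (s : Fin n → Ω), OnBase ρ b x s →
  ∃ (u : Ω) (ty : Option (Fin d)) (x' : Fin d → k) (s' : Fin n → k), u ≠ 0 ∧
    (∀ (q : MvPolynomial (Fin d ⊕ Fin n) Ω) (e : ℕ), q.totalDegree ≤ e * D →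
      (∀ t, v (q.coeff t) ≤ 1) → v (eval (Sum.elim x s) q) ≤ v u ^ e) ∧
    (∀ j, v (x j) < 1 → x' j = 0) ∧ OnBase ρ (bty r ρ b ty) x' s' ∧
    eval (Sum.elim x' s') (uty k ty (al0 D ty)) ≠ 0 ∧
    ∀ i, v (β * PKE.fval D c x s i / u) ≤ 1 ∧ r (β * PKE.fval D c x s i / u) =
      ∑ α : MonS d n D, r (β * c (i, α)) * eval (Sum.elim x' s') (uty k ty α)

/-- PZJ: the points at one place -/
def T_PZJ : Prop := ∀ (Ω k : Type) [Field Ω] [CharZero Ω] [IsAlgClosed Ω] [Field k] (p : ℕ)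
  (v : AbsoluteValue Ω ℝ) (r : Ω → k), Red v r → p.Prime → v (p : Ω) < 1 →
  ∀ (ℓ m : ℕ) [Fact ℓ.Prime], ¬ ℓ ∣ m → ℓ + 2 ≤ p → ∀ (a : Fin m → Ω) (β u : Ω), β ≠ 0 →
    v β ≤ v (p : Ω) → u ≠ 0 → (∀ κ : Fin m, v (a κ) ≤ v u ^ ((κ : ℕ) + 1)) →
  ∀ (g : ℕ) (f y : Fin g → Ω), (∀ i, v (β * f i / u) ≤ 1) →
    (∀ i, y i ^ ℓ = (SRK.fam a).eval (f i)) →
  ∃ (z : Fin g → Ω) (κ0 : Ω) (r0 : ℝ) (h : Fin g → k), κ0 ^ ℓ = u ^ m ∧ 0 < r0 ∧ r0 < 1 ∧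
    r0 ^ (p - 1) < v (p : Ω) ∧
    (∀ i, r (β * f i / u) ≠ 0 → z i ^ ℓ * f i = u ∧ v (z i ^ m * y i - κ0) < v κ0 ∧
      v (z i) = r0 ∧ h i ^ ℓ * r (β * f i / u) = 1) ∧
    ∀ T : Finset (Fin g), (∀ i ∈ T, r (β * f i / u) ≠ 0) → ∀ τ : Fin g → Ω,
      (∀ i, v (τ i) ≤ 1) → v (∑ i ∈ T, τ i * z i) < r0 → ∑ i ∈ T, r (τ i) * h i = 0

/-! ### Block 4: elimination -/

/-- ELJ (from PKD.T_NFB): elimination with exponents; adapt `Pool/Agent/PKD/ELI.lean` and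
`Pool/Agent/PKE/ELQ.lean` -/
def T_ELJ : Prop := ∀ (d n D : ℕ) (ρ : Fin n → ℕ) (ι A : Type) [Fintype ι] [DecidableEq ι]
  [Fintype A] [DecidableEq A] (Q : Finset (Fin d)) (E : ι → ℕ), (∀ i, 1 ≤ E i) →
  ∃ L : ℕ, ∀ (k : Type) [Field k] (b : Fin n → ℕ → MvPolynomial (Fin d) k)
    (u : A → MvPolynomial (Fin d ⊕ Fin n) k) (α0 : A) (S J W : Finset ι) (τ : ι → ι → k),
    (∀ j l, l < ρ j → (b j l).totalDegree ≤ ρ j - l) → (∀ α, (u α).totalDegree ≤ D) →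
    Disjoint S W → J ⊆ W → S.card + J.card + Q.card = d + 1 →
    ∃ Φ : MvPolynomial (ι × A) k, Φ ≠ 0 ∧ Φ.totalDegree ≤ L ∧
      ∀ c p s h, Sys ρ b u α0 Q E S J W τ c p s h → eval c Φ = 0

end PKJ
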