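import Mathlib
import Pool.Agent.PKJ.Targets
import Pool.Agent.PKD.RedLem

/-!
GBD: coefficients of a large power of a polynomial.
-/

set_option autoImplicit false

namespace PKJ

open Polynomial PKD

namespace GBD_

variable {Ω : Type} [Field Ω] {v : AbsoluteValue Ω ℝ} {r0 : ℝ}

/-- bound for the coefficients of a product -/
theorem mul_bd (na : IsNonarchimedean v) (h0 : 0 < r0) {f g : Polynomial Ω}
    (hf : ∀ n, v (f.coeff n) ≤ r0 ^ n) (hg : ∀ n, v (g.coeff n) ≤ r0 ^ n) (n : ℕ) :
    v ((f * g).coeff n) ≤ r0 ^ n := by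
  rw [Polynomial.coeff_mul]
  refine na_sum na _ _ _ (by positivity) fun i hi => ?_
  rw [Finset.HasAntidiagonal.mem_antidiagonal] at hi
  rw [v.map_mul, ← hi, pow_add]
  exact mul_le_mul (hf _) (hg _) (v.nonneg _) (by positivity)

theorem pow_bd (na : IsNonarchimedean v) (h0 : 0 < r0) {f : Polynomial Ω}
    (hf : ∀ n, v (f.coeff n) ≤ r0 ^ n) (N n : ℕ) : v ((f ^ N).coeff n) ≤ r0 ^ n := by
  induction N generalizing n with
  | zero =>
    rw [pow_zero, Polynomial.coeff_one]
    split_ifs with h
    · rw [h]; simp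
    · simp; positivity
  | succ N ih =>
    rw [pow_succ]
    exact mul_bd na h0 ih hf n

end GBD_

open GBD_ in
theorem p_GBD : T_GBD := by
  intro Ω _ _ v r0 na h0 g hg0 hg N
  set e : Polynomial Ω := g - 1 with he
  have hge : g = e + 1 := by rw [he]; ring
  have he0 : e.coeff 0 = 0 := by
    rw [he, Polynomial.coeff_sub, hg0]
    simp
  have hebd : ∀ n, v (e.coeff n) ≤ r0 ^ n := by
    intro n
    rcases Nat.eq_zero_or_pos n with h | h
    · rw [h, he0]; simp
    · rw [he, Polynomial.coeff_sub, Polynomial.coeff_one, if_neg (by omega), sub_zero]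
      exact hg n
  have hXe : ∀ i, (X : Polynomial Ω) ^ i ∣ e ^ i := fun i =>
    pow_dvd_pow_of_dvd (Polynomial.X_dvd_iff.2 he0) i
  have hlow : ∀ i j, j < i → (e ^ i).coeff j = 0 := fun i j hij =>
    Polynomial.X_pow_dvd_iff.1 (hXe i) j hij
  have hexp : ∀ j, (g ^ N).coeff j
      = ∑ i ∈ Finset.range (N + 1), (N.choose i : Ω) * (e ^ i).coeff j := by
    intro j
    rw [hge, add_pow, Polynomial.finsetSum_coeff]
    refine Finset.sum_congr rfl fun i _ => ?_
    rw [one_pow, mul_one, mul_comm, ← Polynomial.C_eq_natCast, Polynomial.coeff_C_mul]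
  refine ⟨?_, ?_, ?_⟩
  · rw [Polynomial.coeff_zero_eq_eval_zero, Polynomial.eval_pow,
      ← Polynomial.coeff_zero_eq_eval_zero, hg0, one_pow]
  · rw [hexp]
    have h1 : ∀ i ∈ Finset.range (N + 1), i ≠ 1 → (N.choose i : Ω) * (e ^ i).coeff 1 = 0 := by
      intro i _ hi
      rcases Nat.lt_or_ge 1 i with h | h
      · rw [hlow i 1 h, mul_zero]
      · have : i = 0 := by omega
        subst this
        rw [pow_zero, Polynomial.coeff_one]
        simp
    have h2 : e.coeff 1 = g.coeff 1 := by
      rw [he, Polynomial.coeff_sub, Polynomial.coeff_one]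
      simp
    rcases Nat.eq_zero_or_pos N with h | h
    · subst h
      simp [Polynomial.coeff_one]
    · rw [Finset.sum_eq_single_of_mem 1 (Finset.mem_range.2 (by omega)) h1, pow_one,
        Nat.choose_one_right, h2]
  · intro j hj
    obtain ⟨i, hi, hle⟩ := IsNonarchimedean.finset_image_add_of_nonempty (f := v) na
      (fun i => (N.choose i : Ω) * (e ^ i).coeff j)
      (t := Finset.range (N + 1)) ⟨0, by simp⟩
    rw [← hexp] at hle
    by_cases hij : 1 ≤ i ∧ i ≤ j
    · refine ⟨i, hij.1, hij.2, ?_⟩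
      rw [v.map_mul] at hle
      have h1 : v ((e ^ i).coeff j) ≤ r0 ^ j := pow_bd na h0 hebd i j
      have h2 : v ((N.choose i : ℕ) : Ω) * v ((i : ℕ) : Ω) ≤ v ((N : ℕ) : Ω) := by
        rcases Nat.eq_zero_or_pos N with h | h
        · subst h
          have : Nat.choose 0 i = 0 := Nat.choose_eq_zero_of_lt (by omega)
          rw [this]; simp
        · obtain ⟨N', rfl⟩ : ∃ N', N = N' + 1 := ⟨N - 1, by omega⟩
          obtain ⟨i', rfl⟩ : ∃ i', i = i' + 1 := ⟨i - 1, by omega⟩
          have h3 := Nat.add_one_mul_choose_eq N' i'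
          rw [← v.map_mul, ← Nat.cast_mul, ← h3, Nat.cast_mul, v.map_mul]
          exact mul_le_of_le_one_right (v.nonneg _) (na_nat na _)
      calc v ((g ^ N).coeff j) * v (i : Ω)
          ≤ v (N.choose i : Ω) * v ((e ^ i).coeff j) * v (i : Ω) :=
            mul_le_mul_of_nonneg_right hle (v.nonneg _)
        _ = v (N.choose i : Ω) * v (i : Ω) * v ((e ^ i).coeff j) := by ring
        _ ≤ v (N : Ω) * r0 ^ j := mul_le_mul h2 h1 (v.nonneg _) (v.nonneg _)
    · have hz : (e ^ i).coeff j = 0 := by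
        rcases Nat.eq_zero_or_pos i with h | h
        · subst h
          rw [pow_zero, Polynomial.coeff_one, if_neg (by omega)]
        · exact hlow i j (by omega)
      rw [hz, mul_zero, v.map_zero] at hle
      refine ⟨1, le_rfl, hj, ?_⟩
      have h1 : v ((g ^ N).coeff j) = 0 := le_antisymm hle (v.nonneg _)
      rw [h1, zero_mul]
      exact mul_nonneg (v.nonneg _) (by positivity)

end PKJ
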