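import Pool.Agent.PKJ.Targets
import Pool.Agent.PKD.RedLem

set_option autoImplicit false

/-!
# A coefficient functional which vanishes on the coordinate ring
-/

namespace PKJ

namespace LAM_

open PowerSeries Finset

variable {Ω : Type} [Field Ω]

/-- supported on the multiples of `ℓ` -/
def Sp (ℓ : ℕ) (F : PowerSeries Ω) : Prop := ∀ n, ¬ ℓ ∣ n → PowerSeries.coeff n F = 0

lemma sp_one (ℓ : ℕ) : Sp ℓ (1 : PowerSeries Ω) := by
  intro n hn
  rw [PowerSeries.coeff_one, if_neg]
  rintro rfl
  exact hn (dvd_zero _)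

lemma sp_mul {ℓ : ℕ} {F G : PowerSeries Ω} (hF : Sp ℓ F) (hG : Sp ℓ G) : Sp ℓ (F * G) := by
  intro n hn
  rw [PowerSeries.coeff_mul]
  refine Finset.sum_eq_zero fun ij hij => ?_
  rw [Finset.HasAntidiagonal.mem_antidiagonal] at hij
  by_cases h1 : ℓ ∣ ij.1
  · by_cases h2 : ℓ ∣ ij.2
    · exact absurd (hij ▸ dvd_add h1 h2) hn
    · rw [hG _ h2, mul_zero]
  · rw [hF _ h1, zero_mul]

lemma sp_pow {ℓ : ℕ} {F : PowerSeries Ω} (hF : Sp ℓ F) (k : ℕ) : Sp ℓ (F ^ k) := by
  induction k with
  | zero => rw [pow_zero]; exact sp_one ℓ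
  | succ k ih => rw [pow_succ]; exact sp_mul ih hF

variable {v : AbsoluteValue Ω ℝ}

lemma ib_one : Ib v (1 : PowerSeries Ω) := by
  intro n
  rw [PowerSeries.coeff_one]
  split_ifs
  · rw [v.map_one]
  · rw [v.map_zero]; exact zero_le_one

lemma ib_mul (na : IsNonarchimedean v) {F G : PowerSeries Ω} (hF : Ib v F) (hG : Ib v G) :
    Ib v (F * G) := by
  intro n
  rw [PowerSeries.coeff_mul]
  refine PKD.na_sum na _ _ 1 zero_le_one fun ij _ => ?_
  rw [v.map_mul]
  exact mul_le_one₀ (hF _) (v.nonneg _) (hG _)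

lemma ib_pow (na : IsNonarchimedean v) {F : PowerSeries Ω} (hF : Ib v F) (k : ℕ) :
    Ib v (F ^ k) := by
  induction k with
  | zero => rw [pow_zero]; exact ib_one
  | succ k ih => rw [pow_succ]; exact ib_mul na ih hF

/-- recursion for the coefficients of the inverse -/
lemma inv_rec {U I : PowerSeries Ω} (hU : constantCoeff U = 1) (h : U * I = 1) {n : ℕ}
    (hn : n ≠ 0) :
    coeff n I = -∑ ij ∈ (HasAntidiagonal.antidiagonal n).erase (0, n), coeff ij.1 U * coeff ij.2 I := by
  have h1 : coeff n (U * I) = 0 := by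
    rw [h, PowerSeries.coeff_one, if_neg hn]
  rw [PowerSeries.coeff_mul, ← Finset.add_sum_erase (HasAntidiagonal.antidiagonal n) _
    (show ((0 : ℕ), n) ∈ HasAntidiagonal.antidiagonal n by rw [Finset.HasAntidiagonal.mem_antidiagonal]; simp)] at h1
  have h2 : coeff 0 U = 1 := by rw [PowerSeries.coeff_zero_eq_constantCoeff_apply, hU]
  simp only [h2, one_mul] at h1
  exact eq_neg_of_add_eq_zero_left h1

lemma inv_exists (na : IsNonarchimedean v) (ℓ : ℕ) (U : PowerSeries Ω)
    (hU : constantCoeff U = 1) (hi : Ib v U) (hs : Sp ℓ U) :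
    ∃ I : PowerSeries Ω, U * I = 1 ∧ constantCoeff I = 1 ∧ Ib v I ∧ Sp ℓ I := by
  have h0 : U * U⁻¹ = 1 := PowerSeries.mul_inv_cancel U (by rw [hU]; exact one_ne_zero)
  have hc : constantCoeff U⁻¹ = 1 := by
    have h1 := congrArg constantCoeff h0
    rw [map_mul, hU, one_mul, map_one] at h1
    exact h1
  have hc0 : coeff 0 U⁻¹ = 1 := by
    rw [PowerSeries.coeff_zero_eq_constantCoeff_apply, hc]
  refine ⟨U⁻¹, h0, hc, ?_, ?_⟩
  · intro n
    induction n using Nat.strong_induction_on with
    | _ n ih =>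
      rcases Nat.eq_zero_or_pos n with rfl | hn
      · rw [hc0, v.map_one]
      · rw [inv_rec hU h0 hn.ne', v.map_neg]
        refine PKD.na_sum na _ _ 1 zero_le_one fun ij hij => ?_
        rw [Finset.mem_erase, Finset.HasAntidiagonal.mem_antidiagonal] at hij
        have hlt : ij.2 < n := by
          have h3 : ij.1 ≠ 0 := by
            intro h4
            apply hij.1
            ext
            · exact h4
            · have := hij.2
              simp only
              omega
          have := hij.2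
          omega
        rw [v.map_mul]
        exact mul_le_one₀ (hi _) (v.nonneg _) (ih _ hlt)
  · intro n
    induction n using Nat.strong_induction_on with
    | _ n ih =>
      intro hdvd
      have hn : n ≠ 0 := by
        rintro rfl
        exact hdvd (dvd_zero _)
      rw [inv_rec hU h0 hn, neg_eq_zero]
      refine Finset.sum_eq_zero fun ij hij => ?_
      rw [Finset.mem_erase, Finset.HasAntidiagonal.mem_antidiagonal] at hij
      have hlt : ij.2 < n := by
        have h3 : ij.1 ≠ 0 := by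
          intro h4
          apply hij.1
          ext
          · exact h4
          · have := hij.2
            simp only
            omega
        have := hij.2
        omega
      by_cases h1 : ℓ ∣ ij.1
      · by_cases h2 : ℓ ∣ ij.2
        · exact absurd (hij.2 ▸ dvd_add h1 h2) hdvd
        · rw [ih _ hlt h2, mul_zero]
      · rw [hs _ h1, zero_mul]

end LAM_

open LAM_ in
theorem p_LAM (h : SRK.T_BAS.{0}) : T_LAM := by
  intro Ω _ v ℓ m hℓ na hm hm2 a U φ hPh
  have hp : ℓ.Prime := hℓ.out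
  obtain ⟨I, hUI, hI0, hIi, hIs⟩ := inv_exists na ℓ U hPh.u0 hPh.ui hPh.ul
  -- the exponent
  obtain ⟨j0, hj0l, hj0⟩ : ∃ j0, j0 < ℓ ∧ m * j0 % ℓ = 1 := by
    have hco : Nat.Coprime m ℓ := ((Nat.Prime.coprime_iff_not_dvd hp).2 hm).symm
    obtain ⟨j, _, hj⟩ := Nat.exists_mul_mod_eq_one_of_coprime hco hp.one_lt
    refine ⟨j % ℓ, Nat.mod_lt _ hp.pos, ?_⟩
    rw [Nat.mul_mod, Nat.mod_mod, ← Nat.mul_mod, hj]
  have hj0pos : 1 ≤ j0 := by
    rcases Nat.eq_zero_or_pos j0 with h0 | h0
    · rw [h0, mul_zero, Nat.zero_mod] at hj0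
      omega
    · exact h0
  refine ⟨I ^ j0, ?_, ib_pow na hIi j0, ?_⟩
  · rw [map_pow, hI0, one_pow]
  -- one monomial
  have key : ∀ (n j : ℕ) (c : Ω), j < ℓ →
      (HahnSeries.single (-((ℓ * n + m * j : ℕ) : ℤ)) c *
        ((U ^ j * I ^ j0 : PowerSeries Ω) : LaurentSeries Ω)).coeff (-1) = 0 := by
    intro n j c hj
    rw [HahnSeries.coeff_single_mul, PowerSeries.coeff_coe]
    split_ifs with hneg
    · rw [mul_zero]
    · have hpos : 1 ≤ ℓ * n + m * j := by omega
      have hidx : ((-1 : ℤ) - -((ℓ * n + m * j : ℕ) : ℤ)).natAbs = ℓ * n + m * j - 1 := by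
        omega
      rw [hidx]
      by_cases hjj : j = j0
      · subst hjj
        rw [← mul_pow, hUI, one_pow, PowerSeries.coeff_one, if_neg, mul_zero]
        have : 2 * 1 ≤ m * j := Nat.mul_le_mul hm2 hj0pos
        omega
      · have hs : Sp ℓ (U ^ j * I ^ j0) := sp_mul (sp_pow hPh.ul j) (sp_pow hIs j0)
        rw [hs, mul_zero]
        intro hd
        apply hjj
        have h1 : m * j ≡ m * j0 [MOD ℓ] := by
          have h2 : (ℓ * n + m * j - 1) + 1 ≡ 1 [MOD ℓ] := by
            have := (Nat.modEq_zero_iff_dvd.2 hd).add_right 1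
            rwa [zero_add] at this
          rw [Nat.sub_add_cancel hpos] at h2
          have h3 : ℓ * n + m * j ≡ m * j [MOD ℓ] := by
            have h4 : ℓ * n ≡ 0 [MOD ℓ] := Nat.modEq_zero_iff_dvd.2 (dvd_mul_right _ _)
            have := h4.add_right (m * j)
            rwa [zero_add] at this
          have h5 : m * j0 ≡ 1 [MOD ℓ] := by
            unfold Nat.ModEq
            rw [hj0, Nat.mod_eq_of_lt hp.one_lt]
          exact (h3.symm.trans h2).trans h5.symm
        have hco : Nat.gcd ℓ m = 1 := (Nat.Prime.coprime_iff_not_dvd hp).2 hm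
        have h6 : j ≡ j0 [MOD ℓ] := Nat.ModEq.cancel_left_of_coprime hco h1
        exact Nat.ModEq.eq_of_lt_of_lt h6 hj hj0l
  have hpoly : ∀ (j : ℕ) (hj : j < ℓ) (p : Polynomial Ω),
      (φ (AdjoinRoot.of _ p * AdjoinRoot.root _ ^ j) *
        ((I ^ j0 : PowerSeries Ω) : LaurentSeries Ω)).coeff (-1) = 0 := by
    intro j hj p
    induction p using Polynomial.induction_on' with
    | add p q hp hq =>
      rw [map_add, add_mul, map_add, add_mul, HahnSeries.coeff_add, hp, hq, add_zero]
    | monomial n c =>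
      rw [← Polynomial.C_mul_X_pow_eq_monomial]
      simp only [map_mul, map_pow]
      rw [hPh.phC, hPh.phX, hPh.phY, HahnSeries.single_pow, mul_pow, HahnSeries.single_pow,
        one_pow, one_pow, HahnSeries.C_apply, HahnSeries.single_mul_single]
      have h1 := key n j c hj
      rw [PowerSeries.coe_mul, PowerSeries.coe_pow, PowerSeries.coe_pow] at h1
      rw [← h1]
      congr 1
      have h2 : (HahnSeries.single (-((ℓ * n + m * j : ℕ) : ℤ)) c : LaurentSeries Ω)
          = HahnSeries.single (0 + n • (-(ℓ : ℤ))) (c * 1) *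
            HahnSeries.single (j • (-(m : ℤ))) 1 := by
        have h3 : (0 + n • (-(ℓ : ℤ))) + j • (-(m : ℤ)) = -((ℓ * n + m * j : ℕ) : ℤ) := by
          rw [nsmul_eq_mul, nsmul_eq_mul]
          push_cast
          ring
        rw [HahnSeries.single_mul_single, mul_one, mul_one, h3]
      rw [h2]
      ring
  intro g
  obtain ⟨A, hA, _⟩ := h Ω ℓ hp.pos (SRK.fam a) g
  rw [hA]
  unfold SRK.el
  rw [map_sum, Finset.sum_mul]
  rw [HahnSeries.coeff_sum]
  exact Finset.sum_eq_zero fun j _ => hpoly j j.2 (A j)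

end PKJ
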