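import Mathlib
import Pool.Agent.PKJ.Targets
import Pool.Agent.PKD.RedLem
import Pool.Agent.PKJ.GBD

/-!
LLJ: the local lemma.
-/

set_option autoImplicit false

namespace PKJ

open PKD HahnSeries

namespace LLJ_

variable {Ω : Type} [Field Ω]

/-! ### Polynomials with constant coefficient `1` -/

theorem prod_coeff {ι : Type} (s : Finset ι) (f : ι → Polynomial Ω)
    (h : ∀ i ∈ s, (f i).coeff 0 = 1) :
    (∏ i ∈ s, f i).coeff 0 = 1 ∧ (∏ i ∈ s, f i).coeff 1 = ∑ i ∈ s, (f i).coeff 1 := by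
  classical
  induction s using Finset.induction_on with
  | empty => simp [Polynomial.coeff_one]
  | insert a s ha ih =>
    obtain ⟨h1, h2⟩ := ih fun i hi => h i (Finset.mem_insert_of_mem hi)
    have h3 := h a (Finset.mem_insert_self a s)
    rw [Finset.prod_insert ha, Finset.sum_insert ha]
    refine ⟨?_, ?_⟩
    · rw [Polynomial.mul_coeff_zero, h1, h3, one_mul]
    · rw [Polynomial.mul_coeff_one, h1, h2, h3]
      ring

theorem pow_coeff (f : Polynomial Ω) (h : f.coeff 0 = 1) (n : ℕ) :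
    (f ^ n).coeff 0 = 1 ∧ (f ^ n).coeff 1 = n * f.coeff 1 := by
  have h1 := prod_coeff (Finset.range n) (fun _ => f) (fun _ _ => h)
  rw [Finset.prod_const, Finset.card_range, Finset.sum_const, Finset.card_range,
    nsmul_eq_mul] at h1
  exact h1

theorem prod_bd {v : AbsoluteValue Ω ℝ} {r0 : ℝ} (na : IsNonarchimedean v) (h0 : 0 < r0)
    {ι : Type} (s : Finset ι) (f : ι → Polynomial Ω)
    (h : ∀ i ∈ s, ∀ n, v ((f i).coeff n) ≤ r0 ^ n) (n : ℕ) :
    v ((∏ i ∈ s, f i).coeff n) ≤ r0 ^ n := by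
  classical
  induction s using Finset.induction_on generalizing n with
  | empty =>
    have := GBD_.pow_bd na h0 (f := (1 : Polynomial Ω)) (fun n => by
      rw [Polynomial.coeff_one]
      split_ifs with h
      · rw [h]; simp
      · simp; positivity) 1 n
    simpa using this
  | insert a s ha ih =>
    rw [Finset.prod_insert ha]
    exact GBD_.mul_bd na h0 (h a (Finset.mem_insert_self a s))
      (ih fun i hi => h i (Finset.mem_insert_of_mem hi)) n

/-! ### Laurent series -/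

/-- evaluation at `z⁻¹` -/
noncomputable def ev : Polynomial Ω →+* LaurentSeries Ω :=
  Polynomial.eval₂RingHom HahnSeries.C (single (-1 : ℤ) 1)

theorem single_neg_pow (n : ℕ) :
    (single (-1 : ℤ) (1 : Ω)) ^ n = single (-(n : ℤ)) (1 : Ω) := by
  rw [HahnSeries.single_pow]
  simp

theorem ev_coeff (q : Polynomial Ω) (W : PowerSeries Ω) :
    (ev q * (W : LaurentSeries Ω)).coeff (-1)
      = ∑ j ∈ Finset.range q.natDegree, q.coeff (j + 1) * PowerSeries.coeff j W := by
  have h1 : ev q = ∑ j ∈ Finset.range (q.natDegree + 1),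
      (single (-(j : ℤ)) (q.coeff j) : LaurentSeries Ω) := by
    unfold ev
    rw [Polynomial.coe_eval₂RingHom, Polynomial.eval₂_eq_sum_range]
    refine Finset.sum_congr rfl fun j _ => ?_
    rw [single_neg_pow, HahnSeries.C_apply, HahnSeries.single_mul_single, zero_add, mul_one]
  have h2 : ∀ j : ℕ, ((single (-(j : ℤ)) (q.coeff j) : LaurentSeries Ω)
      * (W : LaurentSeries Ω)).coeff (-1) = q.coeff j * (W : LaurentSeries Ω).coeff ((j : ℤ) - 1) := by
    intro j
    have h3 : (-1 : ℤ) = ((j : ℤ) - 1) + (-(j : ℤ)) := by ring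
    rw [h3, HahnSeries.coeff_single_mul_add]
  rw [h1, Finset.sum_mul, HahnSeries.coeff_sum]
  rw [Finset.sum_congr rfl fun j _ => h2 j, Finset.sum_range_succ']
  have h4 : (W : LaurentSeries Ω).coeff (((0 : ℕ) : ℤ) - 1) = 0 := by
    rw [PowerSeries.coeff_coe, if_pos (by norm_num)]
  rw [h4, mul_zero, add_zero]
  refine Finset.sum_congr rfl fun j _ => ?_
  have h5 : (((j + 1 : ℕ) : ℤ) - 1) = (j : ℤ) := by push_cast; ring
  rw [h5, LaurentSeries.coeff_coe_powerSeries]

theorem order_coe {W : PowerSeries Ω} (hW : PowerSeries.constantCoeff W ≠ 0) :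
    (W : LaurentSeries Ω).order = 0 := by
  apply le_antisymm
  · apply HahnSeries.order_le_of_coeff_ne_zero
    have : (0 : ℤ) = ((0 : ℕ) : ℤ) := rfl
    rw [this, LaurentSeries.coeff_coe_powerSeries, PowerSeries.coeff_zero_eq_constantCoeff_apply]
    exact hW
  · have hne : (W : LaurentSeries Ω) ≠ 0 := by
      intro h
      have h1 := HahnSeries.ofPowerSeries_injective (Γ := ℤ) (R := Ω) (a₁ := W) (a₂ := 0)
        (by rw [h, map_zero])
      rw [h1, map_zero] at hW
      exact hW rfl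
    by_contra hcon
    push Not at hcon
    have h2 : (W : LaurentSeries Ω).coeff (W : LaurentSeries Ω).order ≠ 0 :=
      HahnSeries.coeff_order_eq_zero.not.2 hne
    rw [PowerSeries.coeff_coe, if_pos hcon] at h2
    exact h2 rfl

theorem order_single_mul {c : Ω} (hc : c ≠ 0) (k : ℤ) {W : PowerSeries Ω}
    (hW : PowerSeries.constantCoeff W ≠ 0) :
    ((single k c : LaurentSeries Ω) * (W : LaurentSeries Ω)).order = k := by
  have hne : (W : LaurentSeries Ω) ≠ 0 := by
    intro h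
    have h1 := HahnSeries.ofPowerSeries_injective (Γ := ℤ) (R := Ω) (a₁ := W) (a₂ := 0)
      (by rw [h, map_zero])
    rw [h1, map_zero] at hW
    exact hW rfl
  rw [HahnSeries.order_mul (by simpa using hc) hne, HahnSeries.order_single hc, order_coe hW,
    add_zero]

/-- the multiplicities of a power of an ideal of a divisor -/
theorem dv_pow (ℓ : ℕ) (f : Polynomial Ω) (ζ : Ω) {N : ℕ} (x y : Fin N → Ω)
    (α : Fin N → Fin ℓ → ℕ) (n : ℕ) :
    SRK.dv ℓ f ζ x y α ^ n = SRK.dv ℓ f ζ x y (fun i j => α i j * n) := by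
  unfold SRK.dv
  rw [← Finset.prod_pow]
  refine Finset.prod_congr rfl fun i _ => ?_
  rw [← Finset.prod_pow]
  refine Finset.prod_congr rfl fun j _ => ?_
  rw [← pow_mul]

/-- the final estimate: the product of linear factors, raised to a power `n` -/
theorem final [CharZero Ω] {v : AbsoluteValue Ω ℝ} {r0 : ℝ} {p : ℕ} (h7 : T_GBD) (h8 : T_PW)
    (na : IsNonarchimedean v) (hp : p.Prime) (hvp : v (p : Ω) < 1) (h0 : 0 < r0) (h1 : r0 < 1)
    (hr0 : r0 ^ (p - 1) < v (p : Ω)) {g : Polynomial Ω} (hg0 : g.coeff 0 = 1)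
    (hg : ∀ n, v (g.coeff n) ≤ r0 ^ n) {n : ℕ} (hn : 0 < n) {W : PowerSeries Ω}
    (hW0 : PowerSeries.constantCoeff W = 1) (hW : Ib v W)
    (hz : (ev (g ^ n) * (W : LaurentSeries Ω)).coeff (-1) = 0) : v (g.coeff 1) < r0 := by
  obtain ⟨e0, e1, e2⟩ := h7 Ω v r0 na h0 g hg0 hg n
  have hvn : 0 < v (n : Ω) := v.pos (by exact_mod_cast hn.ne')
  rw [ev_coeff] at hz
  -- split off the first term
  have hlt : v ((g ^ n).coeff 1) < v (n : Ω) * r0 := by
    rcases Nat.eq_zero_or_pos (g ^ n).natDegree with hd | hd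
    · have : (g ^ n).coeff 1 = 0 := Polynomial.coeff_eq_zero_of_natDegree_lt (by omega)
      rw [this, v.map_zero]
      positivity
    · obtain ⟨d, hd'⟩ : ∃ d, (g ^ n).natDegree = d + 1 := ⟨(g ^ n).natDegree - 1, by omega⟩
      rw [hd', Finset.sum_range_succ', zero_add, PowerSeries.coeff_zero_eq_constantCoeff_apply,
        hW0, mul_one] at hz
      have e3 : (g ^ n).coeff 1 = -∑ j ∈ Finset.range d,
          (g ^ n).coeff (j + 1 + 1) * PowerSeries.coeff (j + 1) W := by
        rw [eq_neg_iff_add_eq_zero, add_comm]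
        exact hz
      rw [e3, v.map_neg]
      refine na_sum_lt na _ _ _ (by positivity) fun j _ => ?_
      rw [v.map_mul]
      obtain ⟨i, hi1, hi2, hi3⟩ := e2 (j + 1 + 1) (by omega)
      have e4 := h8 Ω v p r0 na hp hvp h0 h1 hr0 i (j + 1 + 1) hi1 hi2 (by omega)
      have hvi : 0 < v (i : Ω) := v.pos (by exact_mod_cast (by omega : i ≠ 0))
      have e5 : v ((g ^ n).coeff (j + 1 + 1)) < v (n : Ω) * r0 := by
        have e6 : v ((g ^ n).coeff (j + 1 + 1)) * v (i : Ω) < (v (n : Ω) * r0) * v (i : Ω) := by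
          calc v ((g ^ n).coeff (j + 1 + 1)) * v (i : Ω) ≤ v (n : Ω) * r0 ^ (j + 1 + 1) := hi3
            _ < v (n : Ω) * (v (i : Ω) * r0) := mul_lt_mul_of_pos_left e4 hvn
            _ = (v (n : Ω) * r0) * v (i : Ω) := by ring
        exact lt_of_mul_lt_mul_right e6 hvi.le
      calc v ((g ^ n).coeff (j + 1 + 1)) * v (PowerSeries.coeff (j + 1) W)
          ≤ v ((g ^ n).coeff (j + 1 + 1)) * 1 :=
            mul_le_mul_of_nonneg_left (hW _) (v.nonneg _)
        _ < v (n : Ω) * r0 := by rw [mul_one]; exact e5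
  rw [e1, v.map_mul] at hlt
  exact lt_of_mul_lt_mul_left hlt hvn.le

theorem ib_mul {v : AbsoluteValue Ω ℝ} (na : IsNonarchimedean v) {V W : PowerSeries Ω}
    (hV : Ib v V) (hW : Ib v W) : Ib v (V * W) := by
  intro n
  rw [PowerSeries.coeff_mul]
  refine na_sum na _ _ _ zero_le_one fun i _ => ?_
  rw [v.map_mul]
  exact mul_le_one₀ (hV _) (v.nonneg _) (hW _)

end LLJ_

open LLJ_ in
theorem p_LLJ (h1 : T_PHI) (h2 : T_BDD) (h3 : T_LAM) (h4 : T_UNI) (h5 : T_PTI) (h6 : T_ORH)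
    (h7 : T_GBD) (h8 : T_PW) : T_LLJ := by
  intro Ω _ _ _ v p ℓ m _ _ na hvp hℓp hℓm hm a ha hsq ζ hζ N x y z r0 hy hz hzy hvz h0 h01 hr0
    α htors m' hm'
  have hp : p.Prime := Fact.out
  have hℓ : ℓ.Prime := Fact.out
  have hvℓ : v (ℓ : Ω) = 1 := by
    have h9 : IsCoprime (ℓ : ℤ) (p : ℤ) := by
      rw [Nat.isCoprime_iff_coprime, Nat.coprime_primes hℓ hp]
      omega
    have := na_coprime na hvp h9
    simpa using this
  obtain ⟨U, φ, hPh⟩ := h1 Ω v ℓ m na hvℓ a ha
  obtain ⟨B, ψ, hB, hψ⟩ := h2 Ω v ℓ m na a U φ hPh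
  obtain ⟨E, hE0, hE, hEφ⟩ := h3 Ω v ℓ m na hℓm hm a U φ hPh
  obtain ⟨n, hn, h, hh⟩ := htors
  -- the points
  have hζℓ : ζ ^ ℓ = 1 := hζ.pow_eq_one
  have hvζ : v ζ = 1 := by
    have h9 : v ζ ^ ℓ = 1 := by rw [← v.map_pow, hζℓ, v.map_one]
    exact (pow_eq_one_iff_of_nonneg (v.nonneg _) hℓ.ne_zero).1 h9
  set zz : Fin N → Fin ℓ → Ω := fun i j => ζ ^ ((j : ℕ) * m') * z i with hzz
  have hvzz : ∀ i j, v (zz i j) = r0 := by
    intro i j
    rw [hzz]
    beta_reduce
    rw [v.map_mul, v.map_pow, hvζ, one_pow, one_mul, hvz]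
  have hzz0 : ∀ i j, zz i j ≠ 0 := by
    intro i j hcon
    have := hvzz i j
    rw [hcon, v.map_zero] at this
    linarith
  have hpt : ∀ i (j : Fin ℓ), ∃ w : B, (w : LaurentSeries Ω) = single 1 1 - HahnSeries.C (zz i j) ∧
      Ideal.map ψ (SRK.pt ℓ (SRK.fam a) (x i) (ζ ^ (j : ℕ) * y i)) = Ideal.span {w} := by
    intro i j
    refine h5 Ω v ℓ m na hvℓ hℓm a ha U φ hPh B ψ hB hψ ζ hζ (x i) (ζ ^ (j : ℕ) * y i) (zz i j)
      ?_ ?_ ?_ ?_
    · rw [hvzz]; exact h01
    · rw [hzz]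
      beta_reduce
      rw [mul_pow, ← pow_mul, mul_comm _ ℓ, pow_mul, hζℓ, one_pow, one_mul, hz]
    · rw [mul_pow, ← pow_mul, mul_comm _ ℓ, pow_mul, hζℓ, one_pow, one_mul, hy]
    · have e1 : zz i j ^ m * (ζ ^ (j : ℕ) * y i) = z i ^ m * y i := by
        rw [hzz]
        beta_reduce
        have e2 : (ζ ^ ((j : ℕ) * m')) ^ m * ζ ^ (j : ℕ) = 1 := by
          rw [← pow_mul, ← _root_.pow_add]
          have e3 : (j : ℕ) * m' * m + (j : ℕ) = (m * m' + 1) * j := by ring
          obtain ⟨t, ht⟩ := hm'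
          rw [e3, ht, mul_assoc, pow_mul, hζℓ, one_pow]
        calc (ζ ^ ((j : ℕ) * m') * z i) ^ m * (ζ ^ (j : ℕ) * y i)
            = ((ζ ^ ((j : ℕ) * m')) ^ m * ζ ^ (j : ℕ)) * (z i ^ m * y i) := by ring
          _ = z i ^ m * y i := by rw [e2, one_mul]
      rw [e1]
      exact hzy i
  choose w hw1 hw2 using hpt
  -- the image of the ideal
  have hid : Ideal.span {ψ h} = Ideal.span {(∏ i, ∏ j, w i j ^ α i j) ^ n} := by
    have e1 : Ideal.map ψ (SRK.dv ℓ (SRK.fam a) ζ x y α ^ n) = Ideal.span {ψ h} := by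
      rw [hh, Ideal.map_span, Set.image_singleton]
    rw [← e1, Ideal.map_pow, SRK.dv, ← Ideal.span_singleton_pow]
    congr 1
    have hmp : ∀ {ι : Type} (s : Finset ι) (f : ι → Ideal (SRK.Crd ℓ (SRK.fam a))),
        Ideal.map ψ (∏ i ∈ s, f i) = ∏ i ∈ s, Ideal.map ψ (f i) :=
      fun s f => map_prod (Ideal.mapHom ψ) f s
    rw [hmp, ← Ideal.prod_span_singleton]
    refine Finset.prod_congr rfl fun i _ => ?_
    rw [hmp, ← Ideal.prod_span_singleton]
    refine Finset.prod_congr rfl fun j _ => ?_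
    rw [Ideal.map_pow, hw2, Ideal.span_singleton_pow]
  rw [Ideal.span_singleton_eq_span_singleton] at hid
  obtain ⟨u, hu⟩ := hid
  -- the unit
  obtain ⟨c, k, V, hc, hV0, hV, hF⟩ := h4 Ω v na ((u⁻¹ : Bˣ) : B) (u : B)
    ((hB _).1 (u⁻¹ : Bˣ).1.2) ((hB _).1 u.1.2) (by
      have e1 : ((u⁻¹ : Bˣ) : B) * (u : B) = 1 := u.inv_mul
      have e2 : ((((u⁻¹ : Bˣ) : B) * (u : B) : B) : LaurentSeries Ω) = ((1 : B) : LaurentSeries Ω) :=
        congrArg (fun b : B => (b : LaurentSeries Ω)) e1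
      exact e2)
  set Wp : PowerSeries Ω := (∏ i, ∏ j, (PowerSeries.X - PowerSeries.C (zz i j)) ^ α i j) ^ n
    with hWp
  have hWpc : PowerSeries.constantCoeff Wp ≠ 0 := by
    rw [hWp, map_pow, map_prod]
    apply pow_ne_zero
    rw [Finset.prod_ne_zero_iff]
    intro i _
    rw [map_prod, Finset.prod_ne_zero_iff]
    intro j _
    rw [map_pow]
    apply pow_ne_zero
    rw [map_sub, PowerSeries.constantCoeff_X, PowerSeries.constantCoeff_C, zero_sub]
    exact neg_ne_zero.2 (hzz0 i j)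
  have hφh : φ h = (single k c : LaurentSeries Ω) * ((V * Wp : PowerSeries Ω)) := by
    have e1 : ψ h = (∏ i, ∏ j, w i j ^ α i j) ^ n * ((u⁻¹ : Bˣ) : B) := by
      rw [← hu, mul_assoc, u.mul_inv, mul_one]
    rw [← hψ, e1]
    push_cast
    rw [hF, hWp]
    simp only [hw1, map_pow, map_prod, map_sub, HahnSeries.ofPowerSeries_X,
      HahnSeries.ofPowerSeries_C]
    ring
  obtain ⟨-, hord⟩ := h6 Ω v ℓ m ζ hζ hℓm a hsq U φ hPh N x y hy (fun i j => α i j * n) h
    (by rw [← dv_pow]; exact hh)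
  rw [hφh, order_single_mul hc k (by
    rw [map_mul, hV0, one_mul]
    exact hWpc)] at hord
  -- the polynomial
  set g : Polynomial Ω := ∏ i, ∏ j, (1 - Polynomial.C (zz i j) * Polynomial.X) ^ α i j with hg
  have hlin : ∀ i j, (1 - Polynomial.C (zz i j) * Polynomial.X : Polynomial Ω).coeff 0 = 1 ∧
      (1 - Polynomial.C (zz i j) * Polynomial.X : Polynomial Ω).coeff 1 = -zz i j := by
    intro i j
    constructor
    · simp
    · simp [Polynomial.coeff_one]
  have hlinbd : ∀ i j l, v ((1 - Polynomial.C (zz i j) * Polynomial.X : Polynomial Ω).coeff l)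
      ≤ r0 ^ l := by
    intro i j l
    rcases l with _ | _ | l
    · rw [(hlin i j).1]; simp
    · rw [zero_add, (hlin i j).2, v.map_neg, hvzz, pow_one]
    · have : (1 - Polynomial.C (zz i j) * Polynomial.X : Polynomial Ω).coeff (l + 1 + 1) = 0 := by
        simp [Polynomial.coeff_one]
      rw [this, v.map_zero]
      positivity
  have hev : ev (g ^ n) = (single k 1 : LaurentSeries Ω) * (Wp : LaurentSeries Ω) := by
    have e1 : ∀ i j, ev (1 - Polynomial.C (zz i j) * Polynomial.X)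
        = (single (-1 : ℤ) 1 : LaurentSeries Ω) * (single 1 1 - HahnSeries.C (zz i j)) := by
      intro i j
      rw [map_sub, map_one, map_mul]
      unfold ev
      rw [Polynomial.coe_eval₂RingHom, Polynomial.eval₂_C, Polynomial.eval₂_X, mul_sub,
        HahnSeries.single_mul_single, mul_comm (single (-1 : ℤ) (1 : Ω)) (HahnSeries.C _)]
      congr 1
      simp
    rw [hg, map_pow, map_prod]
    have e2 : ∀ i, ev (∏ j, (1 - Polynomial.C (zz i j) * Polynomial.X) ^ α i j)
        = (single (-1 : ℤ) 1 : LaurentSeries Ω) ^ (∑ j, α i j) *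
          ∏ j, ((single 1 1 - HahnSeries.C (zz i j) : LaurentSeries Ω)) ^ α i j := by
      intro i
      rw [map_prod, ← Finset.prod_pow_eq_pow_sum, ← Finset.prod_mul_distrib]
      refine Finset.prod_congr rfl fun j _ => ?_
      rw [map_pow, e1, mul_pow]
    rw [Finset.prod_congr rfl fun i _ => e2 i, Finset.prod_mul_distrib,
      Finset.prod_pow_eq_pow_sum, mul_pow, ← pow_mul, single_neg_pow, hord]
    have e3 : (∑ i, ∑ j, α i j) * n = ∑ i, ∑ j, α i j * n := by
      rw [Finset.sum_mul]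
      exact Finset.sum_congr rfl fun i _ => Finset.sum_mul _ _ _
    rw [e3, hWp]
    simp only [map_pow, map_prod, map_sub, HahnSeries.ofPowerSeries_X,
      HahnSeries.ofPowerSeries_C]
  have hzero : (ev (g ^ n) * ((V * E : PowerSeries Ω) : LaurentSeries Ω)).coeff (-1) = 0 := by
    have e1 := hEφ h
    have e2 : φ h * (E : LaurentSeries Ω)
        = (single 0 c : LaurentSeries Ω) * (ev (g ^ n) * ((V * E : PowerSeries Ω))) := by
      rw [hφh, hev]
      have e3 : (single k c : LaurentSeries Ω) = single 0 c * single k 1 := by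
        rw [HahnSeries.single_mul_single, zero_add, mul_one]
      rw [e3, map_mul, map_mul]
      ring
    rw [e2] at e1
    have e4 := HahnSeries.coeff_single_mul_add (R := Ω) (Γ := ℤ) (r := c)
      (x := ev (g ^ n) * ((V * E : PowerSeries Ω) : LaurentSeries Ω)) (a := -1) (b := 0)
    rw [add_zero, e1] at e4
    exact (mul_eq_zero.1 e4.symm).resolve_left hc
  have hg0 : ∀ i, (∏ j, (1 - Polynomial.C (zz i j) * Polynomial.X) ^ α i j).coeff 0 = 1 ∧
      (∏ j, (1 - Polynomial.C (zz i j) * Polynomial.X) ^ α i j).coeff 1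
        = ∑ j, (α i j : Ω) * -zz i j := by
    intro i
    obtain ⟨e1, e2⟩ := prod_coeff Finset.univ
      (fun j => (1 - Polynomial.C (zz i j) * Polynomial.X) ^ α i j)
      (fun j _ => (pow_coeff _ (hlin i j).1 _).1)
    refine ⟨e1, e2.trans ?_⟩
    refine Finset.sum_congr rfl fun j _ => ?_
    rw [(pow_coeff _ (hlin i j).1 _).2, (hlin i j).2]
  obtain ⟨hg1, hg2⟩ := prod_coeff Finset.univ
    (fun i => ∏ j, (1 - Polynomial.C (zz i j) * Polynomial.X) ^ α i j) (fun i _ => (hg0 i).1)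
  have hgbd : ∀ l, v (g.coeff l) ≤ r0 ^ l := fun l =>
    prod_bd na h0 _ _ (fun i _ l => prod_bd na h0 _ _ (fun j _ l =>
      GBD_.pow_bd na h0 (hlinbd i j) _ l) l) l
  have hfin := final h7 h8 na hp hvp h0 h01 hr0 hg1 hgbd hn (W := V * E)
    (by rw [map_mul, hV0, hE0, one_mul]) (ib_mul na hV hE) hzero
  have hres : g.coeff 1 = -∑ i, (∑ j : Fin ℓ, (α i j : Ω) * ζ ^ ((j : ℕ) * m')) * z i := by
    rw [hg, hg2, ← Finset.sum_neg_distrib]
    refine Finset.sum_congr rfl fun i _ => ?_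
    rw [(hg0 i).2, Finset.sum_mul, ← Finset.sum_neg_distrib]
    refine Finset.sum_congr rfl fun j _ => ?_
    rw [hzz]
    ring
  rw [hres, v.map_neg] at hfin
  exact hfin

end PKJ
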