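import Mathlib
import Pool.Agent.PKJ.Targets

/-!
NMP: the norm of a generator.
-/

set_option autoImplicit false

namespace PKJ

namespace NMP_

open Polynomial SRK

lemma deg_lt {S : Type*} [CommRing S] {m : ℕ} (a : Fin m → S) :
    degree (∑ k : Fin m, C (a k) * X ^ (m - 1 - (k : ℕ)) : S[X]) < m := by
  rw [degree_lt_iff_coeff_zero]
  intro j hj
  rw [finsetSum_coeff]
  refine Finset.sum_eq_zero fun k _ => ?_
  have hk := k.2
  rw [coeff_C_mul_X_pow, if_neg (by omega)]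

lemma fam_monic {S : Type*} [CommRing S] {m : ℕ} (a : Fin m → S) : (fam a).Monic :=
  monic_X_pow_add (deg_lt a)

lemma fam_natDegree {S : Type*} [CommRing S] [Nontrivial S] {m : ℕ} (a : Fin m → S) :
    (fam a).natDegree = m := by
  apply natDegree_eq_of_degree_eq_some
  unfold fam
  rw [degree_add_eq_left_of_degree_lt (by rw [degree_X_pow]; exact deg_lt a), degree_X_pow]

lemma exists_roots {K : Type*} [Field K] [IsAlgClosed K] {m : ℕ} (a : Fin m → K)
    (h : Squarefree (fam a)) : ∃ ω : Fin m → K, Function.Injective ω ∧ fam a = ff ω := by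
  classical
  have hsep : (fam a).Separable := PerfectField.separable_iff_squarefree.2 h
  have hnd : (fam a).roots.Nodup := nodup_roots hsep
  have hspl := IsAlgClosed.splits (fam a)
  have hcard : (fam a).roots.toFinset.card = m := by
    rw [Multiset.toFinset_card_of_nodup hnd, ← hspl.natDegree_eq_card_roots, fam_natDegree]
  let e : Fin m ≃ (fam a).roots.toFinset := ((fam a).roots.toFinset.equivFinOfCardEq hcard).symm
  refine ⟨fun w => (e w : K), fun i j hij => e.injective (Subtype.ext hij), ?_⟩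
  have h1 : ff (fun w => (e w : K)) = ∏ x : (fam a).roots.toFinset, (X - C (x : K)) := by
    unfold ff
    exact Equiv.prod_comp e (fun x : (fam a).roots.toFinset => X - C (x : K))
  rw [h1, Finset.prod_coe_sort (fam a).roots.toFinset (fun x => X - C x)]
  conv_lhs => rw [hspl.eq_prod_roots_of_monic (fam_monic a)]
  rw [Finset.prod_eq_multiset_prod, Multiset.toFinset_val, Multiset.dedup_eq_self.2 hnd]

theorem core (h1 : SRK.T_NMJ.{0}) (h2 : SRK.T_JQ.{0}) (h3 : SRK.T_BAS.{0}) (Ω : Type) [Field Ω]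
    (ℓ m : ℕ) [Fact ℓ.Prime] (ζ : Ω) (hζ : IsPrimitiveRoot ζ ℓ) (hm : ¬ ℓ ∣ m)
    (f : Polynomial Ω) (ω : Fin m → Ω) (hω : Function.Injective ω) (hf : f = ff ω)
    (N : ℕ) (x y : Fin N → Ω) (hxy : ∀ i, y i ^ ℓ = f.eval (x i))
    (α : Fin N → Fin ℓ → ℕ) (h : Crd ℓ f) (hd : dv ℓ f ζ x y α = Ideal.span {h}) :
    ∃ A : Fin ℓ → Polynomial Ω, h = el ℓ f A ∧ A ≠ 0 ∧ ∃ c : Ω, c ≠ 0 ∧
      ∏ t ∈ Finset.range ℓ, el ℓ f (tw ζ t A) =
        AdjoinRoot.of _ (C c * ∏ i, (X - C (x i)) ^ ∑ j, α i j) := by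
  subst hf
  have hp : ℓ.Prime := Fact.out
  obtain ⟨A, hA, _⟩ := h3 Ω ℓ hp.pos (ff ω) h
  have hJ := (h2 Ω ℓ hp m ω hω (fun _ => 0) (fun _ => hp.pos)).2.2.2 (fun _ => rfl)
  have hdv : dv ℓ (ff ω) ζ x y α * Jq ℓ ω (fun _ => 0) = Ideal.span {el ℓ (ff ω) A} := by
    rw [hJ, Ideal.mul_top, hd, ← hA]
  obtain ⟨_, c, hc, hprod⟩ := h1 Ω ℓ ζ hζ m ω hω hm N x y hxy α (fun _ => 0)
    (fun _ => hp.pos) A hdv
  have hqt : qt ω (fun _ => 0) = 1 := by
    unfold qt
    exact Finset.prod_eq_one fun w _ => pow_zero _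
  rw [hqt, mul_one] at hprod
  refine ⟨A, hA, ?_, c, hc, hprod⟩
  rintro rfl
  have hz : el ℓ (ff ω) (tw ζ 0 (0 : Fin ℓ → Polynomial Ω)) = 0 := by
    unfold el tw
    refine Finset.sum_eq_zero fun j _ => ?_
    rw [Pi.zero_apply, mul_zero, map_zero, zero_mul]
  rw [Finset.prod_eq_zero (Finset.mem_range.2 hp.pos) hz] at hprod
  have hinj : Function.Injective
      (AdjoinRoot.of ((X : Polynomial (Polynomial Ω)) ^ ℓ - C (ff ω))) := by
    refine AdjoinRoot.of.injective_of_degree_ne_zero ?_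
    rw [degree_X_pow_sub_C hp.pos]
    exact_mod_cast hp.ne_zero
  have h0 := hinj (hprod.symm.trans (map_zero _).symm)
  have hne : C c * ∏ i, (X - C (x i)) ^ ∑ j, α i j ≠ 0 := by
    refine mul_ne_zero (C_ne_zero.2 hc) (Finset.prod_ne_zero_iff.2 fun i _ => ?_)
    exact pow_ne_zero _ (X_sub_C_ne_zero _)
  exact hne h0

end NMP_

theorem p_NMP (h1 : SRK.T_NMJ.{0}) (h2 : SRK.T_JQ.{0}) (h3 : SRK.T_BAS.{0}) : T_NMP := by
  intro Ω _ _ ℓ m _ ζ hζ hm a ha N x y hxy α h hd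
  obtain ⟨ω, hω, hf⟩ := NMP_.exists_roots a ha
  exact NMP_.core h1 h2 h3 Ω ℓ m ζ hζ hm _ ω hω hf N x y hxy α h hd

end PKJ
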