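import Mathlib
import Pool.Agent.PKJ.Targets

set_option autoImplicit false

namespace PKJ

open MvPolynomial RD PKD

namespace ORD_

lemma lt_order {Ω : Type} [Field Ω] {x : LaurentSeries Ω} {o : ℤ}
    (h1 : ∀ k < o, x.coeff k = 0) (h2 : x.coeff o ≠ 0) : x ≠ 0 ∧ x.order = o := by
  have hx : x ≠ 0 := by
    rintro rfl
    exact h2 HahnSeries.coeff_zero
  refine ⟨hx, le_antisymm (HahnSeries.order_le_of_coeff_ne_zero h2) ?_⟩
  by_contra hcon
  push Not at hcon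
  exact hx (HahnSeries.coeff_order_eq_zero.mp (h1 _ hcon))

/-- a sum with one term of smallest order -/
lemma sum_order {Ω : Type} [Field Ω] {ι : Type} (s : Finset ι) (T : ι → LaurentSeries Ω)
    (j₀ : ι) (hs : j₀ ∈ s) (h0 : T j₀ ≠ 0)
    (h : ∀ j ∈ s, j ≠ j₀ → T j ≠ 0 → (T j₀).order < (T j).order) :
    ∑ j ∈ s, T j ≠ 0 ∧ (∑ j ∈ s, T j).order = (T j₀).order := by
  apply lt_order
  · intro k hk
    rw [HahnSeries.coeff_sum]
    refine Finset.sum_eq_zero fun j hj' => ?_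
    by_cases hj : j = j₀
    · rw [hj]; exact HahnSeries.coeff_eq_zero_of_lt_order hk
    · by_cases hT : T j = 0
      · rw [hT]; exact HahnSeries.coeff_zero
      · exact HahnSeries.coeff_eq_zero_of_lt_order (hk.trans (h j hj' hj hT))
  · rw [HahnSeries.coeff_sum, Finset.sum_eq_single j₀]
    · rw [Ne, HahnSeries.coeff_order_eq_zero]; exact h0
    · intro j hj' hj
      by_cases hT : T j = 0
      · rw [hT]; exact HahnSeries.coeff_zero
      · exact HahnSeries.coeff_eq_zero_of_lt_order (h j hj' hj hT)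
    · intro h; exact absurd hs h

lemma poly_order {Ω : Type} [Field Ω] (ℓ : ℕ) (hℓ : 0 < ℓ)
    (ψ : Polynomial Ω →+* LaurentSeries Ω)
    (hC : ∀ c : Ω, ψ (Polynomial.C c) = HahnSeries.C c)
    (hX : ψ Polynomial.X = HahnSeries.single (-(ℓ : ℤ)) 1) (P : Polynomial Ω) (hP : P ≠ 0) :
    ψ P ≠ 0 ∧ (ψ P).order = -((ℓ : ℤ) * P.natDegree) := by
  have hterm : ∀ i : ℕ, ψ (Polynomial.C (P.coeff i) * Polynomial.X ^ i) =
      HahnSeries.single (-((ℓ : ℤ) * i)) (P.coeff i) := by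
    intro i
    rw [map_mul, map_pow, hC, hX, HahnSeries.single_pow, HahnSeries.C_apply,
      HahnSeries.single_mul_single, one_pow, mul_one, zero_add]
    have e : (i • (-(ℓ : ℤ))) = -((ℓ : ℤ) * i) := by
      rw [nsmul_eq_mul]; push_cast; ring
    rw [e]
  have hsum : ψ P = ∑ i ∈ Finset.range (P.natDegree + 1),
      HahnSeries.single (-((ℓ : ℤ) * i)) (P.coeff i) := by
    conv_lhs => rw [P.as_sum_range_C_mul_X_pow]
    rw [map_sum]
    exact Finset.sum_congr rfl fun i _ => hterm i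
  have hlc : P.coeff P.natDegree ≠ 0 := by
    rw [Polynomial.coeff_natDegree]
    exact Polynomial.leadingCoeff_ne_zero.mpr hP
  have h1 := sum_order (Finset.range (P.natDegree + 1))
    (fun i : ℕ => (HahnSeries.single (-((ℓ : ℤ) * i)) (P.coeff i) : LaurentSeries Ω))
    P.natDegree (Finset.mem_range.mpr (Nat.lt_succ_self _))
    (by
      simp only [ne_eq, HahnSeries.single_eq_zero_iff]
      exact hlc)
    (by
      intro j hj hne hT
      simp only [ne_eq, HahnSeries.single_eq_zero_iff] at hT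
      rw [HahnSeries.order_single hlc, HahnSeries.order_single hT]
      have hj2 : j < P.natDegree := by
        have := Finset.mem_range.mp hj
        omega
      have hj3 : (j : ℤ) < P.natDegree := by exact_mod_cast hj2
      have hℓ2 : (0 : ℤ) < ℓ := by exact_mod_cast hℓ
      nlinarith)
  rw [hsum]
  refine ⟨h1.1, ?_⟩
  rw [h1.2]
  exact HahnSeries.order_single hlc

lemma root_order {Ω : Type} [Field Ω] {v : AbsoluteValue Ω ℝ} {ℓ m : ℕ} {a : Fin m → Ω}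
    {U : PowerSeries Ω} {φ : SRK.Crd ℓ (SRK.fam a) →+* LaurentSeries Ω} (h : Ph v ℓ a U φ) :
    φ (AdjoinRoot.root _) ≠ 0 ∧ (φ (AdjoinRoot.root _)).order = -(m : ℤ) := by
  have hU : (U : LaurentSeries Ω) ≠ 0 ∧ (U : LaurentSeries Ω).order = 0 := by
    apply lt_order
    · intro k hk
      rw [PowerSeries.coeff_coe, if_pos hk]
    · rw [PowerSeries.coeff_coe, if_neg (lt_irrefl _)]
      simp only [Int.natAbs_zero]
      rw [PowerSeries.coeff_zero_eq_constantCoeff_apply, h.u0]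
      exact one_ne_zero
  have hs : (HahnSeries.single (-(m : ℤ)) (1 : Ω) : LaurentSeries Ω) ≠ 0 := by
    simp
  rw [h.phY]
  refine ⟨mul_ne_zero hs hU.1, ?_⟩
  rw [HahnSeries.order_mul hs hU.1, hU.2, add_zero]
  exact HahnSeries.order_single one_ne_zero

lemma core {Ω : Type} [Field Ω] {v : AbsoluteValue Ω ℝ} {ℓ m : ℕ} (hℓ : 0 < ℓ)
    {a : Fin m → Ω} {U : PowerSeries Ω} {φ : SRK.Crd ℓ (SRK.fam a) →+* LaurentSeries Ω}
    (h : Ph v ℓ a U φ) (B : Fin ℓ → Polynomial Ω) (j₀ : Fin ℓ) (h0 : B j₀ ≠ 0)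
    (hmin : ∀ j, j ≠ j₀ → B j ≠ 0 → -((ℓ : ℤ) * (B j₀).natDegree + m * (j₀ : ℕ)) <
      -((ℓ : ℤ) * (B j).natDegree + m * (j : ℕ))) :
    φ (SRK.el ℓ (SRK.fam a) B) ≠ 0 ∧ (φ (SRK.el ℓ (SRK.fam a) B)).order =
      -((ℓ : ℤ) * (B j₀).natDegree + m * (j₀ : ℕ)) := by
  obtain ⟨hr0, hr⟩ := root_order h
  have hpoly := poly_order ℓ hℓ (φ.comp (AdjoinRoot.of _)) (fun c => h.phC c) h.phX
  have hterm : ∀ j, B j ≠ 0 →
      φ (AdjoinRoot.of _ (B j) * AdjoinRoot.root _ ^ (j : ℕ)) ≠ 0 ∧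
      (φ (AdjoinRoot.of _ (B j) * AdjoinRoot.root _ ^ (j : ℕ))).order =
        -((ℓ : ℤ) * (B j).natDegree + m * (j : ℕ)) := by
    intro j hj
    obtain ⟨e1, e2⟩ := hpoly (B j) hj
    rw [RingHom.comp_apply] at e1 e2
    rw [map_mul, map_pow]
    have e3 : φ (AdjoinRoot.root _) ^ (j : ℕ) ≠ 0 := pow_ne_zero _ hr0
    refine ⟨mul_ne_zero e1 e3, ?_⟩
    rw [HahnSeries.order_mul e1 e3, HahnSeries.order_pow, e2, hr]
    simp
    ring
  have hz : ∀ j, φ (AdjoinRoot.of _ (B j) * AdjoinRoot.root _ ^ (j : ℕ)) ≠ 0 → B j ≠ 0 := by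
    intro j hne hB
    apply hne
    rw [hB, map_zero, zero_mul, map_zero]
  have h1 := sum_order Finset.univ
    (fun j : Fin ℓ => φ (AdjoinRoot.of _ (B j) * AdjoinRoot.root _ ^ (j : ℕ))) j₀
    (Finset.mem_univ _) (hterm j₀ h0).1
    (by
      intro j _ hj hT
      rw [(hterm j₀ h0).2, (hterm j (hz j hT)).2]
      exact hmin j hj (hz j hT))
  unfold SRK.el
  rw [map_sum]
  refine ⟨h1.1, ?_⟩
  rw [h1.2]
  exact (hterm j₀ h0).2

end ORD_

open ORD_ in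
theorem p_ORD : T_ORD := by
  intro Ω _ v ℓ m _ hm a U φ hφ ζ hζ A hA
  have hℓp : ℓ.Prime := Fact.out
  have hℓ : 0 < ℓ := hℓp.pos
  have hζ0 : ζ ≠ 0 := by
    rintro rfl
    rw [zero_pow hℓ.ne'] at hζ
    exact zero_ne_one hζ
  obtain ⟨j₁, hj₁⟩ := Function.ne_iff.mp hA
  classical
  obtain ⟨j₀, hj₀, hmin⟩ := Finset.exists_min_image
    (Finset.univ.filter fun j => A j ≠ 0)
    (fun j : Fin ℓ => -((ℓ : ℤ) * (A j).natDegree + m * (j : ℕ)))
    ⟨j₁, Finset.mem_filter.mpr ⟨Finset.mem_univ _, hj₁⟩⟩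
  have h0 : A j₀ ≠ 0 := (Finset.mem_filter.mp hj₀).2
  have hlt : ∀ j, j ≠ j₀ → A j ≠ 0 → -((ℓ : ℤ) * (A j₀).natDegree + m * (j₀ : ℕ)) <
      -((ℓ : ℤ) * (A j).natDegree + m * (j : ℕ)) := by
    intro j hj hAj
    refine lt_of_le_of_ne (hmin j (Finset.mem_filter.mpr ⟨Finset.mem_univ _, hAj⟩)) ?_
    intro heq
    apply hj
    have e1 : (m : ℤ) * ((j : ℕ) - (j₀ : ℕ) : ℤ) =
        (ℓ : ℤ) * ((A j₀).natDegree - (A j).natDegree) := by linarith
    have e2 : (ℓ : ℤ) ∣ (m : ℤ) * ((j : ℕ) - (j₀ : ℕ) : ℤ) := ⟨_, e1⟩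
    have hp : Prime (ℓ : ℤ) := Nat.prime_iff_prime_int.mp hℓp
    have e3 : (ℓ : ℤ) ∣ ((j : ℕ) - (j₀ : ℕ) : ℤ) := by
      rcases hp.dvd_or_dvd e2 with h | h
      · exact absurd (Int.natCast_dvd_natCast.mp h) hm
      · exact h
    have e4 : |((j : ℕ) - (j₀ : ℕ) : ℤ)| < ℓ := by
      have h5 := j.isLt
      have h6 := j₀.isLt
      rw [abs_lt]
      constructor <;> omega
    have e5 := Int.eq_zero_of_abs_lt_dvd e3 e4
    apply Fin.ext
    omega
  obtain ⟨c1, c2⟩ := core hℓ hφ A j₀ h0 hlt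
  refine ⟨c1, fun t => ?_⟩
  have hC : ∀ j : Fin ℓ, (ζ ^ (t * (j : ℕ))) ≠ 0 := fun j => pow_ne_zero _ hζ0
  have hdeg : ∀ j : Fin ℓ, (SRK.tw ζ t A j).natDegree = (A j).natDegree := by
    intro j
    unfold SRK.tw
    exact Polynomial.natDegree_C_mul (hC j)
  have hne : ∀ j : Fin ℓ, SRK.tw ζ t A j ≠ 0 ↔ A j ≠ 0 := by
    intro j
    unfold SRK.tw
    rw [not_iff_not, mul_eq_zero, Polynomial.C_eq_zero]
    exact ⟨fun h => h.resolve_left (hC j), fun h => Or.inr h⟩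
  obtain ⟨-, d2⟩ := core hℓ hφ (SRK.tw ζ t A) j₀ ((hne j₀).mpr h0) (by
    intro j hj hT
    rw [hdeg, hdeg]
    exact hlt j hj ((hne j).mp hT))
  rw [d2, c2, hdeg]

end PKJ
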