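import Pool.Agent.PKJ.Targets

/-!
# The order at infinity of a generator
-/

set_option autoImplicit false

namespace PKJ

open MvPolynomial RD PKD

namespace ORH_

variable {Ω : Type} [Field Ω]

theorem ne_order {l : ℕ} (hl : 0 < l) (x : Ω) :
    (HahnSeries.single (-(l : ℤ)) 1 - HahnSeries.C x : LaurentSeries Ω) ≠ 0 ∧
    (HahnSeries.single (-(l : ℤ)) 1 - HahnSeries.C x : LaurentSeries Ω).order = -(l : ℤ) := by
  obtain ⟨F, hF⟩ : ∃ F : LaurentSeries Ω,
      F = HahnSeries.single (-(l : ℤ)) 1 - HahnSeries.C x := ⟨_, rfl⟩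
  rw [← hF]
  have hc : ∀ g : ℤ, g < 0 → F.coeff g = if g = -(l : ℤ) then 1 else 0 := by
    intro g hg
    rw [hF, HahnSeries.coeff_sub, HahnSeries.C_apply,
      HahnSeries.coeff_single_of_ne hg.ne, sub_zero, HahnSeries.coeff_single]
    by_cases h : g = -(l : ℤ)
    · rw [if_pos h, if_pos h]
    · rw [if_neg h, if_neg h]
  have h1 : F.coeff (-(l : ℤ)) ≠ 0 := by
    rw [hc _ (by omega), if_pos rfl]
    exact one_ne_zero
  have h0 : F ≠ 0 := HahnSeries.ne_zero_of_coeff_ne_zero h1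
  refine ⟨h0, le_antisymm (HahnSeries.order_le_of_coeff_ne_zero h1) ?_⟩
  by_contra hlt
  push Not at hlt
  have h2 : F.coeff F.order = 0 := by
    rw [hc _ (by omega), if_neg (by omega)]
  exact h0 (HahnSeries.coeff_order_eq_zero.1 h2)

theorem order_prod {ι : Type} (s : Finset ι) (f : ι → LaurentSeries Ω) (h : ∀ i ∈ s, f i ≠ 0) :
    (∏ i ∈ s, f i).order = ∑ i ∈ s, (f i).order := by
  classical
  induction s using Finset.induction_on with
  | empty => rw [Finset.prod_empty, Finset.sum_empty, HahnSeries.order_one]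
  | insert a s ha ih =>
    rw [Finset.prod_insert ha, Finset.sum_insert ha, HahnSeries.order_mul
      (h a (Finset.mem_insert_self a s))
      (Finset.prod_ne_zero_iff.2 fun i hi => h i (Finset.mem_insert_of_mem hi)),
      ih fun i hi => h i (Finset.mem_insert_of_mem hi)]

end ORH_

open ORH_ in
theorem p_ORH (h1 : T_ORD) (h2 : T_NMP) : T_ORH := by
  intro Ω _ _ v ℓ m _ ζ hζ hℓm a ha U φ hφ N x y hy α h hdv
  have hl : 0 < ℓ := (Fact.out : ℓ.Prime).pos
  obtain ⟨A, rfl, hA, c, hc, hprod⟩ := h2 Ω ℓ m ζ hζ hℓm a ha N x y hy α h hdv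
  obtain ⟨h0, hord⟩ := h1 Ω v ℓ m hℓm a U φ hφ ζ hζ.pow_eq_one A hA
  refine ⟨h0, ?_⟩
  have e := congrArg φ hprod
  have hR : φ (AdjoinRoot.of _ (Polynomial.C c * ∏ i, (Polynomial.X - Polynomial.C (x i)) ^
      ∑ j, α i j)) = HahnSeries.C c * ∏ i, (HahnSeries.single (-(ℓ : ℤ)) 1 -
      HahnSeries.C (x i)) ^ ∑ j, α i j := by
    simp only [map_mul, map_prod, map_pow, map_sub, hφ.phC, hφ.phX]
  rw [hR, map_prod] at e
  have hne : ∀ i, (HahnSeries.single (-(ℓ : ℤ)) 1 - HahnSeries.C (x i) : LaurentSeries Ω) ≠ 0 :=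
    fun i => (ne_order hl (x i)).1
  have hcne : (HahnSeries.C c : LaurentSeries Ω) ≠ 0 := by
    rw [HahnSeries.C_apply]
    exact HahnSeries.single_ne_zero hc
  have hRne : (HahnSeries.C c * ∏ i, (HahnSeries.single (-(ℓ : ℤ)) 1 -
      HahnSeries.C (x i)) ^ ∑ j, α i j : LaurentSeries Ω) ≠ 0 :=
    mul_ne_zero hcne (Finset.prod_ne_zero_iff.2 fun i _ => pow_ne_zero _ (hne i))
  have hLne : ∀ t ∈ Finset.range ℓ, φ (SRK.el ℓ (SRK.fam a) (SRK.tw ζ t A)) ≠ 0 := by
    apply Finset.prod_ne_zero_iff.1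
    rw [e]
    exact hRne
  have eo := congrArg HahnSeries.order e
  rw [order_prod _ _ hLne, HahnSeries.order_mul hcne
    (Finset.prod_ne_zero_iff.2 fun i _ => pow_ne_zero _ (hne i)), HahnSeries.order_C, zero_add,
    order_prod _ _ (fun i _ => pow_ne_zero _ (hne i)),
    Finset.sum_congr rfl (fun t _ => hord t), Finset.sum_const, Finset.card_range] at eo
  have e2 : ∀ i, ((HahnSeries.single (-(ℓ : ℤ)) 1 - HahnSeries.C (x i) : LaurentSeries Ω) ^
      ∑ j, α i j).order = -(ℓ : ℤ) * ((∑ j, α i j : ℕ) : ℤ) := by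
    intro i
    rw [HahnSeries.order_pow, (ne_order hl (x i)).2, nsmul_eq_mul]
    ring
  rw [Finset.sum_congr rfl (fun i _ => e2 i), ← Finset.mul_sum, nsmul_eq_mul] at eo
  have hl' : (ℓ : ℤ) ≠ 0 := by exact_mod_cast hl.ne'
  apply mul_left_cancel₀ hl'
  rw [eo]
  push_cast
  ring

end PKJ
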