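import Pool.Agent.PKJ.Targets
import Pool.Agent.PKE.PLCM
import Pool.Agent.PKD.PLCI
import Pool.Agent.PKD.PLCM
import Pool.Agent.PKD.PLC
import Pool.Agent.PKD.RedLem

/-!
The base at one place (PBJ).
-/

set_option autoImplicit false

namespace PKJ

open MvPolynomial RD PKD

namespace PBJ_

open PKD.PLCI_

/-- the case of an integral point -/
theorem case1 {Ω k : Type} [Field Ω] [Field k] {v : AbsoluteValue Ω ℝ} {r : Ω → k}
    (hr : Red v r) {d n D : ℕ} {ι : Type} (ρ : Fin n → ℕ)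
    (b : Fin n → ℕ → MvPolynomial (Fin d) Ω)
    (hb : ∀ j l, l < ρ j → (b j l).totalDegree ≤ ρ j - l ∧ ∀ t, v ((b j l).coeff t) ≤ 1)
    (β : Ω) (c : ι × MonS d n D → Ω) (hc : ∀ u, v (β * c u) ≤ 1)
    (x : Fin d → Ω) (s : Fin n → Ω) (hbase : OnBase ρ b x s) (hx : ∀ j, v (x j) ≤ 1) :
    ∃ (u : Ω) (ty : Option (Fin d)) (x' : Fin d → k) (s' : Fin n → k), u ≠ 0 ∧
    (∀ (q : MvPolynomial (Fin d ⊕ Fin n) Ω) (e : ℕ), q.totalDegree ≤ e * D →
      (∀ t, v (q.coeff t) ≤ 1) → v (eval (Sum.elim x s) q) ≤ v u ^ e) ∧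
    (∀ j, v (x j) < 1 → x' j = 0) ∧ OnBase ρ (bty r ρ b ty) x' s' ∧
    eval (Sum.elim x' s') (uty k ty (al0 D ty)) ≠ 0 ∧
    ∀ i, v (β * PKE.fval D c x s i / u) ≤ 1 ∧ r (β * PKE.fval D c x s i / u) =
      ∑ α : MonS d n D, r (β * c (i, α)) * eval (Sum.elim x' s') (uty k ty α) := by
  obtain ⟨hs, hon'⟩ := PLCM_base hr ρ b (fun j l hl => (hb j l hl).2) x s hbase hx
  have hz : ∀ j, v (Sum.elim x s j) ≤ 1 := by
    rintro (j | j)
    · exact hx j
    · exact hs j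
  refine ⟨1, none, fun j => r (x j), fun j => r (s j), one_ne_zero, ?_, ?_, hon', ?_, ?_⟩
  · intro q e _ hq
    rw [v.map_one, one_pow]
    exact (rdP_eval hr q hq (Sum.elim x s) hz).1
  · intro j hj
    exact (hr.ker _ (hx j)).2 hj
  · show eval (Sum.elim (fun j => r (x j)) (fun j => r (s j))) (um k (al0 D none)) ≠ 0
    rw [PKD.PLC_.al0_none]
    exact one_ne_zero
  · intro i
    rw [div_one]
    exact PKE.PLCM_.fval_red hr β c hc x s hx hs i

/-- the case of a point which is not integral -/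
theorem case2 {Ω k : Type} [Field Ω] [Field k] {v : AbsoluteValue Ω ℝ} {r : Ω → k}
    (hr : Red v r) {d n D : ℕ} {ι : Type} (ρ : Fin n → ℕ)
    (b : Fin n → ℕ → MvPolynomial (Fin d) Ω)
    (hb : ∀ j l, l < ρ j → (b j l).totalDegree ≤ ρ j - l ∧ ∀ t, v ((b j l).coeff t) ≤ 1)
    (β : Ω) (c : ι × MonS d n D → Ω) (hc : ∀ u, v (β * c u) ≤ 1)
    (x : Fin d → Ω) (s : Fin n → Ω) (hbase : OnBase ρ b x s) (m0 : Fin d) (hm1 : 1 < v (x m0))
    (hmax : ∀ j, v (x j) ≤ v (x m0)) :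
    ∃ (u : Ω) (ty : Option (Fin d)) (x' : Fin d → k) (s' : Fin n → k), u ≠ 0 ∧
    (∀ (q : MvPolynomial (Fin d ⊕ Fin n) Ω) (e : ℕ), q.totalDegree ≤ e * D →
      (∀ t, v (q.coeff t) ≤ 1) → v (eval (Sum.elim x s) q) ≤ v u ^ e) ∧
    (∀ j, v (x j) < 1 → x' j = 0) ∧ OnBase ρ (bty r ρ b ty) x' s' ∧
    eval (Sum.elim x' s') (uty k ty (al0 D ty)) ≠ 0 ∧
    ∀ i, v (β * PKE.fval D c x s i / u) ≤ 1 ∧ r (β * PKE.fval D c x s i / u) =
      ∑ α : MonS d n D, r (β * c (i, α)) * eval (Sum.elim x' s') (uty k ty α) := by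
  classical
  set s0 : Ω := x m0 with hs0def
  have hV0 : 0 < v s0 := by linarith
  have hs00 : s0 ≠ 0 := v.pos_iff.1 hV0
  have hx1 : ∀ j, v (x j / s0) ≤ 1 := fun j => by
    rw [map_div₀, div_le_one hV0]
    exact hmax j
  have hxe : (fun j => s0 * (x j / s0)) = x := by
    funext j
    field_simp
  -- the sizes of the integral coordinates
  have hble : ∀ j l, l < ρ j → v (eval x (b j l)) ≤ v s0 ^ (ρ j - l) := by
    intro j l hl
    have := eval_size hr (b j l) (hb j l hl).2 (ρ j - l) (hb j l hl).1 s0 hm1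
      (fun j => x j / s0) hx1
    rwa [hxe] at this
  have hsle : ∀ j, v (s j) ≤ v s0 := by
    intro j
    by_contra hlt
    push Not at hlt
    have hs0' : 0 < v (s j) := hV0.trans hlt
    have h3 := hbase j
    have h4 : v (∑ l ∈ Finset.range (ρ j), eval x (b j l) * s j ^ l) < v (s j) ^ ρ j := by
      refine na_sum_lt hr.na _ _ _ (by positivity) fun l hl => ?_
      rw [Finset.mem_range] at hl
      rw [v.map_mul, v.map_pow]
      calc v (eval x (b j l)) * v (s j) ^ l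
          ≤ v s0 ^ (ρ j - l) * v (s j) ^ l :=
            mul_le_mul_of_nonneg_right (hble j l hl) (by positivity)
        _ < v (s j) ^ (ρ j - l) * v (s j) ^ l :=
            mul_lt_mul_of_pos_right (pow_lt_pow_left₀ hlt hV0.le (by omega)) (by positivity)
        _ = v (s j) ^ ρ j := by rw [← pow_add, Nat.sub_add_cancel hl.le]
    have h6 : s j ^ ρ j = -∑ l ∈ Finset.range (ρ j), eval x (b j l) * s j ^ l :=
      eq_neg_of_add_eq_zero_left h3
    have h7 := congrArg v h6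
    rw [v.map_neg, v.map_pow] at h7
    rw [← h7] at h4
    exact lt_irrefl _ h4
  have hs1 : ∀ j, v (s j / s0) ≤ 1 := fun j => by
    rw [map_div₀, div_le_one hV0]
    exact hsle j
  set y : Fin d ⊕ Fin n → Ω := Sum.elim (fun j => x j / s0) (fun j => s j / s0) with hy
  have hy1 : ∀ j, v (y j) ≤ 1 := by
    rintro (j | j)
    · exact hx1 j
    · exact hs1 j
  have hye : (fun j => s0 * y j) = Sum.elim x s := by
    funext j
    rcases j with j | j
    · simp only [hy, Sum.elim_inl]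
      field_simp
    · simp only [hy, Sum.elim_inr]
      field_simp
  -- the functions
  set G : ι → Ω := fun i => β * PKE.fval D c x s i / s0 ^ D with hG
  set y' : Fin d ⊕ Fin n → k := Sum.elim (fun j => r (x j / s0)) (fun j => r (s j / s0)) with hy'
  have hyy : ∀ j, y' j = r (y j) := by
    rintro (j | j)
    · rfl
    · rfl
  have hm : ∀ α : MonS d n D, v (∏ j, y j ^ (α.1 j : ℕ)) ≤ 1 := by
    intro α
    refine na_prod_le _ _ fun j _ => ?_
    rw [v.map_pow]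
    exact pow_le_one₀ (v.nonneg _) (hy1 j)
  have hGe : ∀ i, G i = ∑ α : MonS d n D, (s0 ^ (D - ∑ j, (α.1 j : ℕ)))⁻¹ *
      (β * c (i, α) * ∏ j, y j ^ (α.1 j : ℕ)) := by
    intro i
    simp only [hG, PKE.fval]
    rw [Finset.mul_sum, Finset.sum_div]
    refine Finset.sum_congr rfl fun α _ => ?_
    have h1 : ∏ j, Sum.elim x s j ^ (α.1 j : ℕ) =
        s0 ^ (∑ j, (α.1 j : ℕ)) * ∏ j, y j ^ (α.1 j : ℕ) := by
      rw [← hye]
      simp only [mul_pow, Finset.prod_mul_distrib, Finset.prod_pow_eq_pow_sum]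
    have h2 : s0 ^ D = s0 ^ (D - ∑ j, (α.1 j : ℕ)) * s0 ^ (∑ j, (α.1 j : ℕ)) := by
      rw [← pow_add, Nat.sub_add_cancel α.2]
    rw [h1, h2]
    field_simp
  have hinv : ∀ j : ℕ, v ((s0 ^ j)⁻¹) ≤ 1 := by
    intro j
    rw [map_inv₀, v.map_pow]
    exact inv_le_one_of_one_le₀ (one_le_pow₀ hm1.le)
  have hterm0 : ∀ i (α : MonS d n D), v (β * c (i, α) * ∏ j, y j ^ (α.1 j : ℕ)) ≤ 1 := by
    intro i α
    rw [v.map_mul]
    exact mul_le_one₀ (hc (i, α)) (v.nonneg _) (hm α)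
  have hterm : ∀ i (α : MonS d n D), v ((s0 ^ (D - ∑ j, (α.1 j : ℕ)))⁻¹ *
      (β * c (i, α) * ∏ j, y j ^ (α.1 j : ℕ))) ≤ 1 := by
    intro i α
    rw [v.map_mul]
    exact mul_le_one₀ (hinv _) (v.nonneg _) (hterm0 i α)
  have hG1 : ∀ i, v (G i) ≤ 1 := by
    intro i
    rw [hGe]
    exact na_sum hr.na _ _ _ zero_le_one fun α _ => hterm i α
  have hGr : ∀ i, r (G i) = ∑ α : MonS d n D, r (β * c (i, α)) *
      eval y' (if ∑ j, (α.1 j : ℕ) = D then um k α else 0) := by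
    intro i
    rw [hGe, hr.sum _ _ fun α _ => hterm i α]
    refine Finset.sum_congr rfl fun α _ => ?_
    rw [hr.mul _ _ (hinv _) (hterm0 i α), hr.mul _ _ (hc (i, α)) (hm α),
      hr.prod _ _ (fun j _ => by
        rw [v.map_pow]
        exact pow_le_one₀ (v.nonneg _) (hy1 j))]
    split_ifs with h
    · rw [h, Nat.sub_self, pow_zero, inv_one, hr.one, one_mul, um, map_prod]
      congr 1
      refine Finset.prod_congr rfl fun j _ => ?_
      rw [map_pow, eval_X, hyy j, hr.pow (hy1 j)]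
    · have h3 : r ((s0 ^ (D - ∑ j, (α.1 j : ℕ)))⁻¹) = 0 := by
        rw [hr.ker _ (hinv _), map_inv₀, v.map_pow]
        have h4 : ∑ j, (α.1 j : ℕ) ≤ D := α.2
        exact inv_lt_one_of_one_lt₀ (one_lt_pow₀ hm1 (by omega))
      rw [h3, zero_mul, map_zero, mul_zero]
  have e0 : r (x m0 / s0) = 1 := by
    rw [← hs0def, div_self hs00, hr.one]
  refine ⟨s0 ^ D, some m0, fun j => r (x j / s0), fun j => r (s j / s0), pow_ne_zero _ hs00, ?_,
    ?_, ?_, ?_, ?_⟩
  · intro q e hq hq1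
    have := eval_size hr q hq1 (e * D) hq s0 hm1 y hy1
    rw [hye] at this
    rw [v.map_pow, ← pow_mul, mul_comm D e]
    exact this
  · intro j hj
    refine (hr.ker _ (hx1 j)).2 ?_
    rw [map_div₀, div_lt_one hV0]
    exact hj.trans hm1
  · intro j
    have h1 := hbase j
    have hcoef : ∀ l, l < ρ j → v ((s0 ^ (ρ j - l))⁻¹ * eval x (b j l)) ≤ 1 ∧
        r ((s0 ^ (ρ j - l))⁻¹ * eval x (b j l)) =
          eval (fun j => r (x j / s0)) (rdT r (ρ j - l) (b j l)) := by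
      intro l hl
      have := rdT_eval hr (b j l) (hb j l hl).2 (ρ j - l) (hb j l hl).1 s0 hm1
        (fun j => x j / s0) hx1
      rwa [hxe] at this
    have h2 : (s j / s0) ^ ρ j + ∑ l ∈ Finset.range (ρ j),
        ((s0 ^ (ρ j - l))⁻¹ * eval x (b j l)) * (s j / s0) ^ l = 0 := by
      have h3 : s0 ^ ρ j * ((s j / s0) ^ ρ j + ∑ l ∈ Finset.range (ρ j),
          ((s0 ^ (ρ j - l))⁻¹ * eval x (b j l)) * (s j / s0) ^ l) = 0 := by
        rw [← h1, mul_add, Finset.mul_sum, div_pow, mul_div_cancel₀ _ (pow_ne_zero _ hs00)]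
        congr 1
        refine Finset.sum_congr rfl fun l hl => ?_
        rw [Finset.mem_range] at hl
        have h4 : s0 ^ ρ j = s0 ^ (ρ j - l) * s0 ^ l := by
          rw [← pow_add, Nat.sub_add_cancel hl.le]
        rw [h4, div_pow]
        field_simp
      exact (mul_eq_zero.1 h3).resolve_left (pow_ne_zero _ hs00)
    have h5 : ∀ l ∈ Finset.range (ρ j),
        v (((s0 ^ (ρ j - l))⁻¹ * eval x (b j l)) * (s j / s0) ^ l) ≤ 1 := by
      intro l hl
      rw [v.map_mul, v.map_pow]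
      exact mul_le_one₀ (hcoef l (Finset.mem_range.1 hl)).1 (by positivity)
        (pow_le_one₀ (v.nonneg _) (hs1 j))
    have h6 := congrArg r h2
    rw [hr.zero, hr.add _ _ (by rw [v.map_pow]; exact pow_le_one₀ (v.nonneg _) (hs1 j))
      (na_sum hr.na _ _ _ zero_le_one h5), hr.pow (hs1 j), hr.sum _ _ h5] at h6
    rw [← h6]
    congr 1
    refine Finset.sum_congr rfl fun l hl => ?_
    have hl' := Finset.mem_range.1 hl
    rw [hr.mul _ _ (hcoef l hl').1 (by rw [v.map_pow]; exact pow_le_one₀ (v.nonneg _) (hs1 j)),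
      (hcoef l hl').2, hr.pow (hs1 j)]
    rfl
  · show eval (Sum.elim (fun j => r (x j / s0)) (fun j => r (s j / s0)))
      (if ∑ j, ((al0 (d := d) (n := n) D (some m0)).1 j : ℕ) = D then
      um k (al0 D (some m0)) else 0) ≠ 0
    rw [if_pos (PKD.PLC_.al0_some_sum D m0), PKD.PLC_.al0_some, Sum.elim_inl, e0, one_pow]
    exact one_ne_zero
  · intro i
    exact ⟨hG1 i, hGr i⟩

end PBJ_

theorem p_PBJ : T_PBJ := by
  intro Ω k _ _ v r hr d n D ι _ ρ b hb β c hc x s hbase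
  by_cases hx : ∀ j, v (x j) ≤ 1
  · exact PBJ_.case1 hr ρ b hb β c hc x s hbase hx
  · push Not at hx
    obtain ⟨j0, hj0⟩ := hx
    have : Nonempty (Fin d) := ⟨j0⟩
    obtain ⟨m0, hm0⟩ := Finite.exists_max fun j => v (x j)
    exact PBJ_.case2 hr ρ b hb β c hc x s hbase m0 (lt_of_lt_of_le hj0 (hm0 j0)) hm0

end PKJ
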