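import Pool.Agent.PKJ.Targets

set_option autoImplicit false

/-! PHI: existence of the expansion at infinity. -/

namespace PKJ

namespace PHI_

variable {Ω : Type} [Field Ω]

theorem v_sum_le (v : AbsoluteValue Ω ℝ) (hv : IsNonarchimedean v) {ι : Type} (s : Finset ι)
    (f : ι → Ω) (hf : ∀ i ∈ s, v (f i) ≤ 1) : v (∑ i ∈ s, f i) ≤ 1 := by
  classical
  induction s using Finset.induction_on with
  | empty => simp
  | insert i s hi ih =>
      rw [Finset.sum_insert hi]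
      refine le_trans (hv _ _) ?_
      refine max_le (hf i (Finset.mem_insert_self _ _)) ?_
      exact ih (fun j hj => hf j (Finset.mem_insert_of_mem hj))

theorem coeff_Wz (ℓ : ℕ) {m : ℕ} (a : Fin m → Ω) (n : ℕ) :
    PowerSeries.coeff n (Wz ℓ a) =
      (if n = 0 then 1 else 0) + ∑ κ : Fin m, if n = ℓ * ((κ : ℕ) + 1) then a κ else 0 := by
  unfold Wz
  rw [map_add, map_sum, PowerSeries.coeff_one]
  congr 1
  refine Finset.sum_congr rfl ?_
  intro κ _
  rw [PowerSeries.coeff_monomial]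

theorem Wz0 {ℓ : ℕ} (hℓ : 0 < ℓ) {m : ℕ} (a : Fin m → Ω) :
    PowerSeries.constantCoeff (Wz ℓ a) = 1 := by
  rw [← PowerSeries.coeff_zero_eq_constantCoeff_apply, coeff_Wz]
  rw [Finset.sum_eq_zero]
  · simp
  · intro κ _
    rw [if_neg]
    have : 0 < ℓ * ((κ : ℕ) + 1) := by positivity
    omega

theorem Wzi (v : AbsoluteValue Ω ℝ) (hv : IsNonarchimedean v) (ℓ : ℕ) {m : ℕ} (a : Fin m → Ω)
    (ha : ∀ κ, v (a κ) ≤ 1) : Ib v (Wz ℓ a) := by
  intro n
  rw [coeff_Wz]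
  refine le_trans (hv _ _) ?_
  refine max_le ?_ ?_
  · split_ifs <;> simp
  · refine v_sum_le v hv _ _ ?_
    intro κ _
    split_ifs
    · exact ha κ
    · simp

theorem Wzd (ℓ : ℕ) {m : ℕ} (a : Fin m → Ω) (n : ℕ) (hn : ¬ ℓ ∣ n) :
    PowerSeries.coeff n (Wz ℓ a) = 0 := by
  rw [coeff_Wz, if_neg, Finset.sum_eq_zero]
  · simp
  · intro κ _
    rw [if_neg]
    rintro rfl
    exact hn (Dvd.intro _ rfl)
  · rintro rfl
    exact hn (dvd_zero _)

theorem coe_monomial (n : ℕ) (c : Ω) :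
    ((PowerSeries.monomial n c : PowerSeries Ω) : LaurentSeries Ω) =
      HahnSeries.single (n : ℤ) c := by
  have h : (PowerSeries.monomial n c : PowerSeries Ω) = PowerSeries.C c * PowerSeries.X ^ n := by
    ext k
    rw [PowerSeries.coeff_monomial, PowerSeries.coeff_C_mul, PowerSeries.coeff_X_pow]
    split_ifs <;> simp
  rw [h, PowerSeries.coe_mul, PowerSeries.coe_C]
  have h2 : ((PowerSeries.X ^ n : PowerSeries Ω) : LaurentSeries Ω) =
      HahnSeries.single (n : ℤ) 1 := HahnSeries.ofPowerSeries_X_pow n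
  rw [h2, HahnSeries.C_apply, HahnSeries.single_mul_single]
  simp

theorem coe_Wz (ℓ : ℕ) {m : ℕ} (a : Fin m → Ω) :
    ((Wz ℓ a : PowerSeries Ω) : LaurentSeries Ω) =
      1 + ∑ κ : Fin m, HahnSeries.single ((ℓ * ((κ : ℕ) + 1) : ℕ) : ℤ) (a κ) := by
  have h : ((Wz ℓ a : PowerSeries Ω) : LaurentSeries Ω) =
      HahnSeries.ofPowerSeries ℤ Ω (Wz ℓ a) := rfl
  rw [h]
  unfold Wz
  rw [map_add, map_one, map_sum]
  congr 1
  refine Finset.sum_congr rfl ?_
  intro κ _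
  exact coe_monomial _ _

end PHI_

open PHI_ in
theorem p_PHI (h : T_RT) : T_PHI := by
  intro Ω _ v ℓ m hℓ hv hvℓ a ha
  have hℓ0 : 0 < ℓ := hℓ.out.pos
  obtain ⟨U, hU0, hUi, hUl, hUp⟩ := h Ω v ℓ hv hvℓ (Wz ℓ a) (Wz0 hℓ0 a) (Wzi v hv ℓ a ha)
    (Wzd ℓ a)
  set i : Polynomial Ω →+* LaurentSeries Ω :=
    Polynomial.eval₂RingHom HahnSeries.C (HahnSeries.single (-(ℓ : ℤ)) 1) with hi
  set x : LaurentSeries Ω := HahnSeries.single (-(m : ℤ)) 1 * (U : LaurentSeries Ω) with hx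
  have hxp : x ^ ℓ = HahnSeries.single (-((m : ℤ) * ℓ)) 1 * ((Wz ℓ a : PowerSeries Ω) :
      LaurentSeries Ω) := by
    rw [hx, mul_pow, HahnSeries.single_pow, one_pow, ← hUp]
    have h2 : ((U ^ ℓ : PowerSeries Ω) : LaurentSeries Ω) = (U : LaurentSeries Ω) ^ ℓ :=
      PowerSeries.coe_pow U ℓ
    rw [h2]
    congr 2
    rw [nsmul_eq_mul]
    ring_nf
  have hif : i (SRK.fam a) = HahnSeries.single (-((m : ℤ) * ℓ)) 1 * ((Wz ℓ a : PowerSeries Ω) :
      LaurentSeries Ω) := by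
    unfold SRK.fam
    rw [coe_Wz, map_add, map_sum, mul_add, mul_one, Finset.mul_sum]
    congr 1
    · rw [hi, map_pow]
      simp only [Polynomial.coe_eval₂RingHom, Polynomial.eval₂_X]
      rw [HahnSeries.single_pow, one_pow, nsmul_eq_mul]
      congr 1
      ring_nf
    · refine Finset.sum_congr rfl ?_
      intro κ _
      rw [hi, map_mul, map_pow]
      simp only [Polynomial.coe_eval₂RingHom, Polynomial.eval₂_X, Polynomial.eval₂_C]
      rw [HahnSeries.single_pow, one_pow, nsmul_eq_mul, HahnSeries.C_apply,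
        HahnSeries.single_mul_single, HahnSeries.single_mul_single, zero_add, mul_one, one_mul]
      congr 1
      have hκ := κ.2
      have h3 : ((m - 1 - (κ : ℕ) : ℕ) : ℤ) = (m : ℤ) - 1 - (κ : ℕ) := by omega
      rw [h3]
      push_cast
      ring_nf
  refine ⟨U, AdjoinRoot.lift i x ?_, ?_⟩
  · rw [Polynomial.eval₂_sub, Polynomial.eval₂_pow, Polynomial.eval₂_X, Polynomial.eval₂_C, hxp,
      hif, sub_self]
  · refine ⟨hU0, hUi, hUl, hUp, ?_, ?_, ?_⟩
    · intro c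
      rw [AdjoinRoot.lift_of, hi]
      simp
    · rw [AdjoinRoot.lift_of, hi]
      simp
    · rw [AdjoinRoot.lift_root]

end PKJ
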