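import Mathlib
import Pool.Agent.PKJ.Targets

set_option autoImplicit false

namespace PKJ

namespace PTI_

open Polynomial

/-- the valuation ring -/
def vO {Ω : Type} [Field Ω] (v : AbsoluteValue Ω ℝ) (hv : IsNonarchimedean v) : Subring Ω where
  carrier := {x | v x ≤ 1}
  mul_mem' := by
    intro a b ha hb
    simp only [Set.mem_ofPred_eq] at ha hb ⊢
    rw [map_mul]
    exact mul_le_one₀ ha (v.nonneg b) hb
  one_mem' := by simp
  add_mem' := by
    intro a b ha hb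
    simp only [Set.mem_ofPred_eq] at ha hb ⊢
    exact (hv a b).trans (max_le ha hb)
  zero_mem' := by simp
  neg_mem' := by
    intro a ha
    simp only [Set.mem_ofPred_eq] at ha ⊢
    rwa [map_neg_eq_map]

theorem bd_ps {Ω : Type} [Field Ω] (v : AbsoluteValue Ω ℝ) (F : PowerSeries Ω) (h : Ib v F) :
    Bd v (F : LaurentSeries Ω) := by
  refine ⟨1, fun n => ?_⟩
  rw [PowerSeries.coeff_coe]
  split_ifs
  · simp
  · exact h _

theorem bd_single {Ω : Type} [Field Ω] (v : AbsoluteValue Ω ℝ) (n : ℤ) (c : Ω) :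
    Bd v (HahnSeries.single n c : LaurentSeries Ω) := by
  refine ⟨v c, fun k => ?_⟩
  rw [HahnSeries.coeff_single]
  split_ifs
  · exact le_rfl
  · simp

theorem eval_fam {Ω : Type} [Field Ω] {m : ℕ} (a : Fin m → Ω) (x : Ω) :
    (SRK.fam a).eval x = x ^ m + ∑ κ : Fin m, a κ * x ^ (m - 1 - (κ : ℕ)) := by
  simp [SRK.fam, eval_finsetSum]

theorem dvd_core {R Ω : Type} [CommRing R] [Field Ω] (c : Ω →+* R) (ℓ m : ℕ)
    (a : Fin m → Ω) (Z Z' V : R) (hZ : Z * Z' = 1)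
    (hV : V ^ ℓ = 1 + ∑ κ : Fin m, c (a κ) * Z ^ (ℓ * ((κ : ℕ) + 1)))
    (x z1 y1 : Ω) (hx : z1 ^ ℓ * x = 1) (hy : y1 ^ ℓ = (SRK.fam a).eval x)
    (hS : IsUnit (∑ i ∈ Finset.range ℓ, V ^ i * (c (z1 ^ m * y1)) ^ (ℓ - 1 - i))) (hℓ : ℓ ≠ 0) :
    (Z - c z1) ∣ Z' ^ m * V - c y1 := by
  have hz1 : z1 ≠ 0 := by
    rintro rfl
    rw [zero_pow hℓ, zero_mul] at hx
    exact zero_ne_one hx
  have hU0 : (z1 ^ m * y1) ^ ℓ = 1 + ∑ κ : Fin m, a κ * z1 ^ (ℓ * ((κ : ℕ) + 1)) := by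
    rw [mul_pow, hy, eval_fam, mul_add, Finset.mul_sum]
    congr 1
    · rw [← pow_mul, mul_comm m ℓ, pow_mul, ← mul_pow, hx, one_pow]
    · refine Finset.sum_congr rfl fun κ _ => ?_
      have hκ := κ.2
      have e1 : (z1 ^ m) ^ ℓ = z1 ^ (ℓ * ((κ : ℕ) + 1)) * (z1 ^ ℓ) ^ (m - 1 - (κ : ℕ)) := by
        rw [← pow_mul, ← pow_mul, ← pow_add]
        congr 1
        rw [← mul_add, mul_comm]
        congr 1
        omega
      rw [e1]
      calc z1 ^ (ℓ * ((κ : ℕ) + 1)) * (z1 ^ ℓ) ^ (m - 1 - (κ : ℕ)) *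
            (a κ * x ^ (m - 1 - (κ : ℕ))) = a κ * z1 ^ (ℓ * ((κ : ℕ) + 1)) *
              (z1 ^ ℓ * x) ^ (m - 1 - (κ : ℕ)) := by rw [mul_pow]; ring
        _ = _ := by rw [hx, one_pow, mul_one]
  have h1 : (Z - c z1) ∣ V ^ ℓ - (c (z1 ^ m * y1)) ^ ℓ := by
    rw [← map_pow, hU0, hV]
    rw [map_add, map_one, map_sum]
    have e2 : (1 + ∑ κ : Fin m, c (a κ) * Z ^ (ℓ * ((κ : ℕ) + 1))) -
        (1 + ∑ κ : Fin m, c (a κ * z1 ^ (ℓ * ((κ : ℕ) + 1)))) =
        ∑ κ : Fin m, c (a κ) * (Z ^ (ℓ * ((κ : ℕ) + 1)) - (c z1) ^ (ℓ * ((κ : ℕ) + 1))) := by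
      rw [add_sub_add_left_eq_sub, ← Finset.sum_sub_distrib]
      refine Finset.sum_congr rfl fun κ _ => ?_
      rw [map_mul, map_pow, mul_sub]
    rw [e2]
    exact Finset.dvd_sum fun κ _ => Dvd.dvd.mul_left (sub_dvd_pow_sub_pow _ _ _) _
  have h2 : (Z - c z1) ∣ V - c (z1 ^ m * y1) := by
    rw [← (Commute.all V (c (z1 ^ m * y1))).geom_sum₂_mul] at h1
    exact (hS.dvd_mul_left).1 h1
  have hu : IsUnit ((c z1) ^ m * Z ^ m) := by
    refine IsUnit.mul (IsUnit.pow _ ?_) (IsUnit.pow _ ?_)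
    · exact (IsUnit.mk0 z1 hz1).map c
    · exact IsUnit.of_mul_eq_one _ hZ
  refine (hu.dvd_mul_left).1 ?_
  have e3 : (c z1) ^ m * Z ^ m * (Z' ^ m * V - c y1) =
      (c z1) ^ m * (V - c (z1 ^ m * y1)) - c (z1 ^ m * y1) * (Z ^ m - (c z1) ^ m) := by
    have : Z ^ m * Z' ^ m = 1 := by rw [← mul_pow, hZ, one_pow]
    calc (c z1) ^ m * Z ^ m * (Z' ^ m * V - c y1)
        = (c z1) ^ m * (Z ^ m * Z' ^ m) * V - (c z1) ^ m * Z ^ m * c y1 := by ring
      _ = _ := by rw [this, map_mul, map_pow]; ring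
  rw [e3]
  exact dvd_sub (Dvd.dvd.mul_left h2 _) (Dvd.dvd.mul_left (sub_dvd_pow_sub_pow _ _ _) _)

theorem span_core {R : Type} [CommRing R] (w P G u : R) (hu : IsUnit u) (h : IsCoprime P G)
    (α β : R) (hα : α = u * (w * P)) (hβ : β = w * G) :
    Ideal.span {α, β} = Ideal.span {w} := by
  refine le_antisymm ?_ ?_
  · rw [Ideal.span_le]
    rintro t ht
    rcases ht with rfl | ht
    · rw [hα]
      exact Ideal.mem_span_singleton.2 ⟨u * P, by ring⟩
    · rw [Set.mem_singleton_iff] at ht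
      rw [ht, hβ]
      exact Ideal.mem_span_singleton.2 ⟨G, rfl⟩
  · rw [Ideal.span_le, Set.singleton_subset_iff]
    obtain ⟨u', hu'⟩ := hu.exists_left_inv
    obtain ⟨s, t, hst⟩ := h
    refine Ideal.mem_span_pair.2 ⟨s * u', t, ?_⟩
    rw [hα, hβ]
    calc s * u' * (u * (w * P)) + t * (w * G) = w * (s * P * (u' * u) + t * G) := by ring
      _ = w := by rw [hu', mul_one, hst, mul_one]

theorem main_core {R Ω : Type} [CommRing R] [IsDomain R] [Field Ω] (c : Ω →+* R) (ℓ m : ℕ)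
    [Fact ℓ.Prime] (hlm : ¬ ℓ ∣ m) (Z Z' V : R) (hZ : Z * Z' = 1) (ζ : Ω)
    (hζ : IsPrimitiveRoot ζ ℓ) (x y z0 : Ω) (hx : z0 ^ ℓ * x = 1) (hy : y ≠ 0)
    (hD : ∀ z1 y1, z1 ^ ℓ = z0 ^ ℓ → y1 ^ ℓ = y ^ ℓ → z1 ^ m * y1 = z0 ^ m * y →
      (Z - c z1) ∣ Z' ^ m * V - c y1) :
    Ideal.span {Z' ^ ℓ - c x, Z' ^ m * V - c y} = Ideal.span {Z - c z0} := by
  have hℓ : ℓ.Prime := Fact.out
  obtain ⟨G, hG⟩ := hD z0 y rfl rfl rfl
  have hζR : IsPrimitiveRoot (c ζ) ℓ := hζ.map_of_injective c.injective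
  have h1 : Z ^ ℓ - (c z0) ^ ℓ = ∏ s ∈ Finset.range ℓ, (Z - (c ζ) ^ s * c z0) := by
    rw [hζR.pow_sub_pow_eq_prod_sub_mul Z (c z0) hℓ.pos]
    symm
    refine Finset.prod_nbij (fun s => (c ζ) ^ s) ?_ ?_ ?_ ?_
    · intro s _
      rw [Polynomial.mem_nthRootsFinset hℓ.pos]
      rw [← pow_mul, mul_comm, pow_mul, hζR.pow_eq_one, one_pow]
    · intro s hs t ht hst
      exact hζR.pow_inj (Finset.mem_range.1 hs) (Finset.mem_range.1 ht) hst
    · intro t ht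
      have ht' : t ^ ℓ = 1 := (Polynomial.mem_nthRootsFinset hℓ.pos _).1 ht
      obtain ⟨i, hi, hit⟩ := hζR.eq_pow_of_pow_eq_one ht'
      exact ⟨i, Finset.mem_coe.2 (Finset.mem_range.2 hi), hit⟩
    · intro s _
      rfl
  have h0 : (0 : ℕ) ∈ Finset.range ℓ := Finset.mem_range.2 hℓ.pos
  rw [← Finset.mul_prod_erase _ _ h0, pow_zero, one_mul] at h1
  have hcop : IsCoprime (∏ s ∈ (Finset.range ℓ).erase 0, (Z - (c ζ) ^ s * c z0)) G := by
    refine IsCoprime.prod_left fun s hs => ?_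
    obtain ⟨hs0, hs1⟩ := Finset.mem_erase.1 hs
    have hs2 := Finset.mem_range.1 hs1
    have hζ1 : ζ ^ ℓ = 1 := hζ.pow_eq_one
    have hz : (ζ ^ s * z0) ^ ℓ = z0 ^ ℓ := by
      rw [mul_pow, ← pow_mul, mul_comm s ℓ, pow_mul, hζ1, one_pow, one_mul]
    have hyt : (ζ ^ ((ℓ - 1) * (m * s)) * y) ^ ℓ = y ^ ℓ := by
      rw [mul_pow, ← pow_mul, mul_comm _ ℓ, pow_mul, hζ1, one_pow, one_mul]
    have hzy : (ζ ^ s * z0) ^ m * (ζ ^ ((ℓ - 1) * (m * s)) * y) = z0 ^ m * y := by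
      have : ζ ^ (s * m) * ζ ^ ((ℓ - 1) * (m * s)) = 1 := by
        rw [← pow_add]
        have e : s * m + (ℓ - 1) * (m * s) = ℓ * (m * s) := by
          obtain ⟨k, rfl⟩ : ∃ k, ℓ = k + 1 := ⟨ℓ - 1, by have := hℓ.pos; omega⟩
          simp only [Nat.add_sub_cancel]
          ring
        rw [e, pow_mul, hζ1, one_pow]
      calc (ζ ^ s * z0) ^ m * (ζ ^ ((ℓ - 1) * (m * s)) * y)
          = (ζ ^ (s * m) * ζ ^ ((ℓ - 1) * (m * s))) * (z0 ^ m * y) := by
            rw [mul_pow, ← pow_mul]; ring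
        _ = _ := by rw [this, one_mul]
    obtain ⟨H, hH⟩ := hD _ _ hz hyt hzy
    have hne : (ζ ^ ((ℓ - 1) * (m * s)) - 1) * y ≠ 0 := by
      refine mul_ne_zero ?_ hy
      intro h
      have h' : ζ ^ ((ℓ - 1) * (m * s)) = 1 := sub_eq_zero.1 h
      have := (hζ.pow_eq_one_iff_dvd _).1 h'
      rcases (Nat.Prime.dvd_mul hℓ).1 this with h | h
      · have h3 := hℓ.two_le
        have := Nat.le_of_dvd (by omega) h
        omega
      · rcases (Nat.Prime.dvd_mul hℓ).1 h with h | h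
        · exact hlm h
        · have := Nat.le_of_dvd (Nat.pos_of_ne_zero hs0) h
          omega
    have hdiff : (Z - c z0) * G - (Z - c (ζ ^ s * z0)) * H =
        c ((ζ ^ ((ℓ - 1) * (m * s)) - 1) * y) := by
      rw [← hG, ← hH, sub_mul, one_mul, map_sub]
      ring
    have hinv : c (((ζ ^ ((ℓ - 1) * (m * s)) - 1) * y)⁻¹) *
        c ((ζ ^ ((ℓ - 1) * (m * s)) - 1) * y) = 1 := by
      rw [← map_mul, inv_mul_cancel₀ hne, map_one]
    refine ⟨- c (((ζ ^ ((ℓ - 1) * (m * s)) - 1) * y)⁻¹) * H,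
      c (((ζ ^ ((ℓ - 1) * (m * s)) - 1) * y)⁻¹) * (Z - c z0), ?_⟩
    rw [← hinv, ← hdiff, map_mul, map_pow]
    ring
  have hu : IsUnit (-(c x * Z' ^ ℓ)) := by
    refine IsUnit.neg (IsUnit.mul ?_ (IsUnit.pow _ ?_))
    · have hx0 : x ≠ 0 := by
        rintro rfl
        rw [mul_zero] at hx
        exact zero_ne_one hx
      exact (IsUnit.mk0 x hx0).map c
    · exact IsUnit.of_mul_eq_one _ (by rw [mul_comm]; exact hZ)
  refine span_core _ _ G _ hu hcop _ _ ?_ hG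
  rw [← h1]
  have e1 : Z ^ ℓ * Z' ^ ℓ = 1 := by rw [← mul_pow, hZ, one_pow]
  have e2 : (c z0) ^ ℓ * c x = 1 := by rw [← map_pow, ← map_mul, hx, map_one]
  calc Z' ^ ℓ - c x = Z' ^ ℓ * ((c z0) ^ ℓ * c x) - c x * (Z ^ ℓ * Z' ^ ℓ) := by
        rw [e1, e2]; ring
    _ = _ := by ring

theorem unit_O {Ω : Type} [Field Ω] (v : AbsoluteValue Ω ℝ) (hv : IsNonarchimedean v)
    (t : vO v hv) (ht : v (t : Ω) = 1) : IsUnit t := by
  have h0 : (t : Ω) ≠ 0 := by
    intro h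
    rw [h, map_zero] at ht
    exact zero_ne_one ht
  have hi : (t : Ω)⁻¹ ∈ vO v hv := by
    change v ((t : Ω)⁻¹) ≤ 1
    rw [map_inv₀, ht, inv_one]
  refine IsUnit.of_mul_eq_one ⟨_, hi⟩ (Subtype.ext ?_)
  exact mul_inv_cancel₀ h0

/-- the sum of powers of `U0` close to `1` -/
theorem sum_unit {Ω : Type} [Field Ω] (v : AbsoluteValue Ω ℝ) (hv : IsNonarchimedean v) (ℓ : ℕ)
    (hl : v (ℓ : Ω) = 1) (t : Ω) (ht : v (t - 1) < 1) :
    v (∑ i ∈ Finset.range ℓ, t ^ (ℓ - 1 - i)) = 1 := by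
  have ht1 : v t ≤ 1 := by
    have : t = (t - 1) + 1 := by ring
    rw [this]
    exact (hv _ _).trans (max_le ht.le (by simp))
  have hpow : ∀ n : ℕ, v (t ^ n - 1) < 1 := by
    intro n
    induction n with
    | zero => simp
    | succ n ih =>
      have e : t ^ (n + 1) - 1 = (t ^ n - 1) * t + (t - 1) := by ring
      rw [e]
      refine (hv _ _).trans_lt (max_lt ?_ ht)
      rw [map_mul]
      calc v (t ^ n - 1) * v t ≤ v (t ^ n - 1) * 1 :=
            mul_le_mul_of_nonneg_left ht1 (v.nonneg _)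
        _ < 1 := by rw [mul_one]; exact ih
  have hsum : v ((∑ i ∈ Finset.range ℓ, t ^ (ℓ - 1 - i)) - (ℓ : Ω)) < 1 := by
    have e : (∑ i ∈ Finset.range ℓ, t ^ (ℓ - 1 - i)) - (ℓ : Ω) =
        ∑ i ∈ Finset.range ℓ, (t ^ (ℓ - 1 - i) - 1) := by
      rw [Finset.sum_sub_distrib]
      simp
    rw [e]
    have : ∀ (s : Finset ℕ) (f : ℕ → Ω), (∀ i ∈ s, v (f i) < 1) → v (∑ i ∈ s, f i) < 1 := by
      intro s f
      induction s using Finset.induction_on with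
      | empty => intro _; simp
      | insert a s ha ih =>
        intro h
        rw [Finset.sum_insert ha]
        refine (hv _ _).trans_lt (max_lt (h a (Finset.mem_insert_self _ _)) ?_)
        exact ih fun i hi => h i (Finset.mem_insert_of_mem hi)
    exact this _ _ fun i _ => hpow _
  set S := ∑ i ∈ Finset.range ℓ, t ^ (ℓ - 1 - i) with hS
  refine le_antisymm ?_ ?_
  · have : S = (S - (ℓ : Ω)) + ℓ := by ring
    rw [this]
    exact (hv _ _).trans (max_le hsum.le hl.le)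
  · by_contra hlt
    push Not at hlt
    have : (ℓ : Ω) = S + -(S - (ℓ : Ω)) := by ring
    have h2 : v (ℓ : Ω) < 1 := by
      rw [this]
      refine (hv _ _).trans_lt (max_lt hlt ?_)
      rwa [map_neg_eq_map]
    rw [hl] at h2
    exact lt_irrefl _ h2

end PTI_

open PTI_ Polynomial in
theorem p_PTI : T_PTI := by
  intro Ω _ v ℓ m _ hv hl hlm a ha U φ hP B ψ hB hψ ζ hζ x y z0 hz0 hx hy hzy
  have hℓ : ℓ.Prime := Fact.out
  -- constants
  have hCmem : ∀ c : Ω, (HahnSeries.C c : LaurentSeries Ω) ∈ B := fun c =>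
    (hB _).2 (bd_single v 0 c)
  let cc : Ω →+* B := RingHom.codRestrict (HahnSeries.C : Ω →+* LaurentSeries Ω) B hCmem
  have hcc : ∀ c : Ω, ((cc c : B) : LaurentSeries Ω) = HahnSeries.C c := fun c => rfl
  -- integral power series
  have hpsmem : ∀ F : PowerSeries (vO v hv),
      ((HahnSeries.ofPowerSeries ℤ Ω).comp (PowerSeries.map (vO v hv).subtype)) F ∈ B := by
    intro F
    refine (hB _).2 (bd_ps v _ fun n => ?_)
    rw [PowerSeries.coeff_map]
    exact (PowerSeries.coeff n F).2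
  let ι : PowerSeries (vO v hv) →+* B := RingHom.codRestrict
    ((HahnSeries.ofPowerSeries ℤ Ω).comp (PowerSeries.map (vO v hv).subtype)) B hpsmem
  have hι : ∀ F, ((ι F : B) : LaurentSeries Ω) =
      ((PowerSeries.map (vO v hv).subtype F : PowerSeries Ω) : LaurentSeries Ω) := fun F => rfl
  let U' : PowerSeries (vO v hv) := PowerSeries.mk fun n => ⟨PowerSeries.coeff n U, hP.ui n⟩
  have hU' : PowerSeries.map (vO v hv).subtype U' = U := by
    ext n
    rw [PowerSeries.coeff_map, PowerSeries.coeff_mk]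
    rfl
  let Z : B := ⟨HahnSeries.single 1 1, (hB _).2 (bd_single v _ _)⟩
  let Z' : B := ⟨HahnSeries.single (-1) 1, (hB _).2 (bd_single v _ _)⟩
  have hZ : Z * Z' = 1 := by
    refine Subtype.ext ?_
    change (HahnSeries.single 1 1 : LaurentSeries Ω) * HahnSeries.single (-1) 1 = 1
    rw [HahnSeries.single_mul_single, add_neg_cancel, mul_one]
    rfl
  let V : B := ι U'
  have hVv : ((V : B) : LaurentSeries Ω) = (U : LaurentSeries Ω) := by
    rw [hι, hU']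
  have hZv : ∀ n : ℕ, ((Z ^ n : B) : LaurentSeries Ω) = HahnSeries.single (n : ℤ) 1 := by
    intro n
    change (HahnSeries.single 1 1 : LaurentSeries Ω) ^ n = _
    rw [HahnSeries.single_pow, one_pow]
    simp
  have hZ'v : ∀ n : ℕ, ((Z' ^ n : B) : LaurentSeries Ω) = HahnSeries.single (-(n : ℤ)) 1 := by
    intro n
    change (HahnSeries.single (-1) 1 : LaurentSeries Ω) ^ n = _
    rw [HahnSeries.single_pow, one_pow]
    simp
  have hVℓ : V ^ ℓ = 1 + ∑ κ : Fin m, cc (a κ) * Z ^ (ℓ * ((κ : ℕ) + 1)) := by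
    refine Subtype.ext ?_
    have e1 : ((V ^ ℓ : B) : LaurentSeries Ω) = ((U ^ ℓ : PowerSeries Ω) : LaurentSeries Ω) := by
      rw [PowerSeries.coe_pow, ← hVv]
      rfl
    rw [e1, hP.up]
    have e2 : ((1 + ∑ κ : Fin m, cc (a κ) * Z ^ (ℓ * ((κ : ℕ) + 1)) : B) : LaurentSeries Ω) =
        1 + ∑ κ : Fin m, (cc (a κ) : LaurentSeries Ω) *
          ((Z ^ (ℓ * ((κ : ℕ) + 1)) : B) : LaurentSeries Ω) := by
      push_cast
      rfl
    rw [e2]
    unfold Wz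
    rw [PowerSeries.coe_add, PowerSeries.coe_one]
    congr 1
    rw [map_sum]
    refine Finset.sum_congr rfl fun κ _ => ?_
    rw [hZv, hcc]
    rw [HahnSeries.C_apply, HahnSeries.single_mul_single, zero_add, mul_one]
    ext k
    rw [PowerSeries.coeff_coe, HahnSeries.coeff_single, PowerSeries.coeff_monomial]
    split_ifs <;> first | rfl | omega
  have hS : ∀ U0 : Ω, v (U0 - 1) < 1 →
      IsUnit (∑ i ∈ Finset.range ℓ, V ^ i * (cc U0) ^ (ℓ - 1 - i)) := by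
    intro U0 h0
    have h01 : U0 ∈ vO v hv := by
      change v U0 ≤ 1
      have : U0 = (U0 - 1) + 1 := by ring
      rw [this]
      exact (hv _ _).trans (max_le h0.le (by simp))
    have hT : IsUnit (∑ i ∈ Finset.range ℓ,
        U' ^ i * (PowerSeries.C (⟨U0, h01⟩ : vO v hv)) ^ (ℓ - 1 - i)) := by
      rw [PowerSeries.isUnit_iff_constantCoeff]
      have hc : PowerSeries.constantCoeff U' = 1 := by
        rw [← PowerSeries.coeff_zero_eq_constantCoeff_apply, PowerSeries.coeff_mk]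
        refine Subtype.ext ?_
        change PowerSeries.coeff 0 U = 1
        rw [PowerSeries.coeff_zero_eq_constantCoeff_apply, hP.u0]
      refine unit_O v hv _ ?_
      rw [map_sum]
      simp only [map_mul, map_pow, hc, one_pow, one_mul, PowerSeries.constantCoeff_C]
      push_cast
      exact sum_unit v hv ℓ hl U0 h0
    have e : ι (∑ i ∈ Finset.range ℓ,
        U' ^ i * (PowerSeries.C (⟨U0, h01⟩ : vO v hv)) ^ (ℓ - 1 - i)) =
        ∑ i ∈ Finset.range ℓ, V ^ i * (cc U0) ^ (ℓ - 1 - i) := by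
      rw [map_sum]
      refine Finset.sum_congr rfl fun i _ => ?_
      rw [map_mul, map_pow, map_pow]
      congr 2
      refine Subtype.ext ?_
      rw [hι, PowerSeries.map_C, PowerSeries.coe_C]
      rfl
    rw [← e]
    exact hT.map ι
  have hy0 : y ≠ 0 := by
    rintro rfl
    rw [mul_zero, zero_sub, map_neg_eq_map, map_one] at hzy
    exact lt_irrefl _ hzy
  refine ⟨Z - cc z0, rfl, ?_⟩
  rw [SRK.pt, Ideal.map_span, Set.image_pair]
  have e1 : ψ (AdjoinRoot.of _ (X - C x)) = Z' ^ ℓ - cc x := by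
    refine Subtype.ext ?_
    rw [hψ, map_sub, map_sub, hP.phX, hP.phC]
    change _ = ((Z' ^ ℓ : B) : LaurentSeries Ω) - _
    rw [hZ'v]
    rfl
  have e2 : ψ (AdjoinRoot.root _ - AdjoinRoot.of _ (C y)) = Z' ^ m * V - cc y := by
    refine Subtype.ext ?_
    rw [hψ, map_sub, hP.phY, hP.phC]
    change _ = ((Z' ^ m : B) : LaurentSeries Ω) * ((V : B) : LaurentSeries Ω) - _
    rw [hZ'v, hVv]
    rfl
  rw [e1, e2]
  refine main_core cc ℓ m hlm Z Z' V hZ ζ hζ x y z0 hx hy0 ?_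
  intro z1 y1 h1 h2 h3
  refine dvd_core cc ℓ m a Z Z' V hZ hVℓ x z1 y1 (by rw [h1, hx]) (by rw [h2, hy]) ?_ hℓ.ne_zero
  refine hS _ ?_
  rw [h3]
  exact hzy

end PKJ
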