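import Pool.Agent.PKJ.Targets
import Pool.Agent.PKD.RedLem

/-!
The numerical estimate for the denominators.
-/

set_option autoImplicit false

namespace PKJ

open MvPolynomial RD PKD

namespace PW_

theorem bern (p a : ℕ) (hp : 1 ≤ p) : a * (p - 1) + 1 ≤ p ^ a := by
  obtain ⟨q, rfl⟩ := Nat.exists_eq_add_of_le hp
  have h := one_add_mul_le_pow (R := ℤ) (a := (q : ℤ)) (by linarith [Int.natCast_nonneg q]) a
  have h2 : a * q + 1 ≤ (1 + q) ^ a := by
    zify
    linarith
  have h3 : 1 + q - 1 = q := by omega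
  rw [h3]
  exact h2

end PW_

theorem p_PW : T_PW := by
  intro Ω _ _ v p r0 na hp hvp h0 h1 hr i j hi hij hj
  obtain ⟨a, i', hi', e⟩ := Nat.exists_eq_pow_mul_and_not_dvd (show i ≠ 0 by omega) p
    hp.ne_one
  have hco : v ((i' : ℕ) : Ω) = 1 := by
    have h2 : IsCoprime (i' : ℤ) (p : ℤ) := by
      rw [Nat.isCoprime_iff_coprime]
      exact ((Nat.Prime.coprime_iff_not_dvd hp).2 hi').symm
    have h3 := na_coprime na hvp h2
    rwa [Int.cast_natCast] at h3
  have hvi : v (i : Ω) = v (p : Ω) ^ a := by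
    rw [e]
    push_cast
    rw [v.map_mul, v.map_pow, hco, mul_one]
  have hi0 : 0 < i' := by
    rcases Nat.eq_zero_or_pos i' with h | h
    · rw [h, mul_zero] at e
      omega
    · exact h
  have hpa : p ^ a ≤ i := by
    rw [e]
    exact Nat.le_mul_of_pos_right _ hi0
  have hb := PW_.bern p a hp.one_lt.le
  have hexp : a * (p - 1) ≤ j - 1 := by omega
  have hj1 : r0 ^ j = r0 ^ (j - 1) * r0 := by
    rw [← pow_succ]
    congr 1
    omega
  rw [hj1, hvi]
  refine mul_lt_mul_of_pos_right ?_ h0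
  rcases Nat.eq_zero_or_pos a with ha | ha
  · rw [ha, pow_zero]
    exact pow_lt_one₀ h0.le h1 (by omega)
  · calc r0 ^ (j - 1) ≤ r0 ^ (a * (p - 1)) := pow_le_pow_of_le_one h0.le h1.le hexp
      _ = (r0 ^ (p - 1)) ^ a := by rw [← pow_mul, mul_comm]
      _ < v (p : Ω) ^ a := pow_lt_pow_left₀ hr (pow_nonneg h0.le _) (by omega)

end PKJ
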