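import Mathlib
import Pool.Agent.PKJ.Targets
import Pool.Agent.PKD.RedLem

/-!
PZJ: the points at one place
-/

set_option autoImplicit false

namespace PKJ

open MvPolynomial RD PKD

namespace PZJ_

/-- an element whose `ℓ`-th power is close to `1` is close to an `ℓ`-th root of unity -/
theorem near {Ω : Type} [Field Ω] [CharZero Ω] [IsAlgClosed Ω] (v : AbsoluteValue Ω ℝ) (ℓ : ℕ)
    (hℓ : 0 < ℓ) (t : Ω) (ht : v (t ^ ℓ - 1) < 1) : ∃ μ : Ω, μ ^ ℓ = 1 ∧ v (t - μ) < 1 := by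
  have : NeZero ℓ := ⟨hℓ.ne'⟩
  have : NeZero (ℓ : Ω) := ⟨by exact_mod_cast hℓ.ne'⟩
  obtain ⟨ζ, hζ⟩ := HasEnoughRootsOfUnity.exists_primitiveRoot Ω ℓ
  have h1 := congrArg (Polynomial.eval t) (Polynomial.X_pow_sub_one_eq_prod hℓ hζ)
  simp only [Polynomial.eval_sub, Polynomial.eval_pow, Polynomial.eval_X, Polynomial.eval_one,
    Polynomial.eval_prod, Polynomial.eval_C] at h1
  by_contra hcon
  push Not at hcon
  rw [h1, map_prod] at ht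
  refine absurd ht (not_lt.2 ?_)
  have h2 : ∀ i ∈ Polynomial.nthRootsFinset ℓ (1 : Ω), 1 ≤ v (t - i) := fun i hi =>
    hcon i ((Polynomial.mem_nthRootsFinset hℓ _).1 hi)
  have h3 := Finset.prod_le_prod (s := Polynomial.nthRootsFinset ℓ (1 : Ω))
    (f := fun _ => (1 : ℝ)) (g := fun i => v (t - i)) (fun i _ => zero_le_one) h2
  simpa using h3

/-- an exponent -/
theorem expo (ℓ m : ℕ) [Fact ℓ.Prime] (h : ¬ ℓ ∣ m) : ∃ e : ℕ, ℓ ∣ m * e + 1 := by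
  have hm : (m : ZMod ℓ) ≠ 0 := by
    intro h0
    exact h ((ZMod.natCast_eq_zero_iff _ _).1 h0)
  refine ⟨(-(m : ZMod ℓ)⁻¹).val, ?_⟩
  rw [← ZMod.natCast_eq_zero_iff]
  push_cast
  rw [ZMod.natCast_zmod_val]
  rw [mul_neg, mul_inv_cancel₀ hm]
  ring

/-- one point -/
theorem point {Ω k : Type} [Field Ω] [CharZero Ω] [IsAlgClosed Ω] [Field k]
    (v : AbsoluteValue Ω ℝ) (r : Ω → k) (hr : Red v r) (ℓ m : ℕ) [hF : Fact ℓ.Prime]
    (hm : ¬ ℓ ∣ m) (a : Fin m → Ω) (β u : Ω) (hβ : β ≠ 0) (hβ1 : v β < 1) (hu : u ≠ 0)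
    (ha : ∀ κ : Fin m, v (a κ) ≤ v u ^ ((κ : ℕ) + 1)) (κ0 ρ : Ω) (hκ : κ0 ^ ℓ = u ^ m)
    (hρ : ρ ^ ℓ = β) (f y : Ω) (hf : v (β * f / u) ≤ 1) (hy : y ^ ℓ = (SRK.fam a).eval f)
    (hrf : r (β * f / u) ≠ 0) :
    ∃ z : Ω, z ^ ℓ * f = u ∧ v (z ^ m * y - κ0) < v κ0 ∧ v z = v ρ ∧
      r (z / ρ) ^ ℓ * r (β * f / u) = 1 := by
  have hℓ : 0 < ℓ := hF.out.pos
  have hvf : v (β * f / u) = 1 := by
    refine le_antisymm hf ?_
    by_contra hc
    push Not at hc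
    exact hrf ((hr.ker _ hf).2 hc)
  have hf0 : f ≠ 0 := by
    rintro rfl
    simp at hvf
  have hu0 : 0 < v u := v.pos hu
  have hvf0 : 0 < v f := v.pos hf0
  have hvβ0 : 0 < v β := v.pos hβ
  have hρ0 : ρ ≠ 0 := by
    rintro rfl
    rw [zero_pow hℓ.ne'] at hρ
    exact hβ hρ.symm
  have hκ0 : κ0 ≠ 0 := by
    rintro rfl
    rw [zero_pow hℓ.ne'] at hκ
    exact pow_ne_zero m hu hκ.symm
  have hvκ0 : 0 < v κ0 := v.pos hκ0
  have huf : v u = v β * v f := by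
    rw [map_div₀, map_mul, div_eq_one_iff_eq hu0.ne'] at hvf
    exact hvf.symm
  obtain ⟨w, hw⟩ := IsAlgClosed.exists_pow_nat_eq (u / f) hℓ
  -- the `ℓ`-th power of `w ^ m * y / κ0`
  have hpow : (w ^ m * y / κ0) ^ ℓ - 1 = ∑ κ : Fin m, a κ / f ^ ((κ : ℕ) + 1) := by
    have e1 : (w ^ m * y / κ0) ^ ℓ = (SRK.fam a).eval f / f ^ m := by
      rw [div_pow, mul_pow, ← pow_mul, mul_comm m ℓ, pow_mul, hw, hy, hκ, div_pow]
      field_simp
    rw [e1]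
    have e2 : (SRK.fam a).eval f = f ^ m + ∑ κ : Fin m, a κ * f ^ (m - 1 - (κ : ℕ)) := by
      unfold SRK.fam
      simp [Polynomial.eval_finsetSum]
    rw [e2, add_div, div_self (pow_ne_zero m hf0), add_sub_cancel_left, Finset.sum_div]
    refine Finset.sum_congr rfl fun κ _ => ?_
    have e3 : f ^ m = f ^ (m - 1 - (κ : ℕ)) * f ^ ((κ : ℕ) + 1) := by
      rw [← pow_add]
      congr 1
      have := κ.2
      omega
    rw [e3]
    field_simp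
  have hlt : v ((w ^ m * y / κ0) ^ ℓ - 1) < 1 := by
    rw [hpow]
    refine na_sum_lt hr.na _ _ _ one_pos fun κ _ => ?_
    rw [map_div₀, map_pow, div_lt_one (by positivity)]
    refine (ha κ).trans_lt ?_
    refine pow_lt_pow_left₀ ?_ hu0.le (Nat.succ_ne_zero _)
    rw [huf]
    nlinarith
  obtain ⟨μ, hμ, hμ1⟩ := near v ℓ hℓ _ hlt
  obtain ⟨e, he⟩ := expo ℓ m hm
  have hμ0 : μ ≠ 0 := by
    rintro rfl
    rw [zero_pow hℓ.ne'] at hμ
    exact zero_ne_one hμ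
  have hvμ : v μ = 1 := by
    have h1 : v μ ^ ℓ = 1 := by rw [← map_pow, hμ, map_one]
    exact (pow_eq_one_iff_of_nonneg (v.nonneg _) hℓ.ne').1 h1
  have hμe : μ ^ (m * e + 1) = 1 := by
    obtain ⟨c, hc⟩ := he
    rw [hc, pow_mul, hμ, one_pow]
  have hz1 : (μ ^ e * w) ^ ℓ = u / f := by
    rw [mul_pow, ← pow_mul, mul_comm e ℓ, pow_mul, hμ, one_pow, one_mul, hw]
  refine ⟨μ ^ e * w, ?_, ?_, ?_, ?_⟩
  · rw [hz1]
    field_simp
  · have e1 : (μ ^ e * w) ^ m * y - κ0 = κ0 * (μ ^ (m * e) * (w ^ m * y / κ0 - μ)) := by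
      have e2 : μ ^ (m * e) * μ = 1 := by rw [← pow_succ]; exact hμe
      have e3 : (μ ^ e * w) ^ m = μ ^ (m * e) * w ^ m := by
        rw [mul_pow, ← pow_mul, mul_comm e m]
      rw [e3, mul_sub, e2]
      field_simp
    rw [e1, map_mul, map_mul, map_pow, hvμ, one_pow, one_mul]
    calc v κ0 * v (w ^ m * y / κ0 - μ) < v κ0 * 1 := mul_lt_mul_of_pos_left hμ1 hvκ0
      _ = v κ0 := mul_one _
  · have h1 : v (μ ^ e * w) ^ ℓ = v ρ ^ ℓ := by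
      rw [← map_pow, ← map_pow, hz1, hρ, map_div₀, huf]
      field_simp
    exact (pow_left_inj₀ (v.nonneg _) (v.nonneg _) hℓ.ne').1 h1
  · have hvz : v (μ ^ e * w) = v ρ := by
      have h1 : v (μ ^ e * w) ^ ℓ = v ρ ^ ℓ := by
        rw [← map_pow, ← map_pow, hz1, hρ, map_div₀, huf]
        field_simp
      exact (pow_left_inj₀ (v.nonneg _) (v.nonneg _) hℓ.ne').1 h1
    have hv1 : v (μ ^ e * w / ρ) ≤ 1 := by
      rw [map_div₀, hvz, div_self (v.pos hρ0).ne']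
    rw [← hr.pow hv1, ← hr.mul _ _ (by rw [map_pow]; exact pow_le_one₀ (v.nonneg _) hv1) hf]
    have h2 : (μ ^ e * w / ρ) ^ ℓ * (β * f / u) = 1 := by
      rw [div_pow, hz1, hρ]
      field_simp
    rw [h2, hr.one]

end PZJ_

theorem p_PZJ : T_PZJ := by
  intro Ω k _ _ _ _ p v r hr hp hvp ℓ m _ hm hlp a β u hβ hβp hu ha g f y hf hy
  classical
  have hℓ : 0 < ℓ := (Fact.out : ℓ.Prime).pos
  obtain ⟨κ0, hκ⟩ := IsAlgClosed.exists_pow_nat_eq (u ^ m) hℓ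
  obtain ⟨ρ, hρ⟩ := IsAlgClosed.exists_pow_nat_eq β hℓ
  have hp0 : (p : Ω) ≠ 0 := by exact_mod_cast hp.ne_zero
  have hvp0 : 0 < v (p : Ω) := v.pos hp0
  have hρ0 : ρ ≠ 0 := by
    rintro rfl
    rw [zero_pow hℓ.ne'] at hρ
    exact hβ hρ.symm
  have hvρ0 : 0 < v ρ := v.pos hρ0
  have hvρℓ : v ρ ^ ℓ = v β := by rw [← map_pow, hρ]
  have hβ1 : v β < 1 := lt_of_le_of_lt hβp hvp
  have hvρ1 : v ρ < 1 := by
    by_contra hc
    push Not at hc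
    have := one_le_pow₀ hc (n := ℓ)
    rw [hvρℓ] at this
    linarith
  have hpt : ∀ i, ∃ z : Ω, r (β * f i / u) ≠ 0 → (z ^ ℓ * f i = u ∧
      v (z ^ m * y i - κ0) < v κ0 ∧ v z = v ρ ∧ r (z / ρ) ^ ℓ * r (β * f i / u) = 1) := by
    intro i
    by_cases h : r (β * f i / u) = 0
    · exact ⟨0, fun h' => absurd h h'⟩
    · obtain ⟨z, hz⟩ := PZJ_.point v r hr ℓ m hm a β u hβ hβ1 hu ha κ0 ρ hκ hρ (f i) (y i)
        (hf i) (hy i) h
      exact ⟨z, fun _ => hz⟩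
  choose z hz using hpt
  refine ⟨z, κ0, v ρ, fun i => r (z i / ρ), hκ, hvρ0, hvρ1, ?_, ?_, ?_⟩
  · have h1 : v ρ ^ (p - 1) ≤ v ρ ^ (ℓ + 1) :=
      pow_le_pow_of_le_one hvρ0.le hvρ1.le (by omega)
    refine h1.trans_lt ?_
    rw [pow_succ, hvρℓ]
    calc v β * v ρ ≤ v (p : Ω) * v ρ := mul_le_mul_of_nonneg_right hβp hvρ0.le
      _ < v (p : Ω) * 1 := mul_lt_mul_of_pos_left hvρ1 hvp0
      _ = v (p : Ω) := mul_one _
  · intro i hi
    exact hz i hi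
  · intro T hT τ hτ hs
    have h1 : ∀ i ∈ T, v (z i / ρ) ≤ 1 := by
      intro i hi
      rw [map_div₀, (hz i (hT i hi)).2.2.1, div_self hvρ0.ne']
    have h2 : ∀ i ∈ T, v (τ i * (z i / ρ)) ≤ 1 := by
      intro i hi
      rw [map_mul]
      exact mul_le_one₀ (hτ i) (v.nonneg _) (h1 i hi)
    have h3 : r (∑ i ∈ T, τ i * (z i / ρ)) = ∑ i ∈ T, r (τ i) * r (z i / ρ) := by
      rw [hr.sum _ _ h2]
      exact Finset.sum_congr rfl fun i hi => hr.mul _ _ (hτ i) (h1 i hi)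
    rw [← h3]
    have h4 : ∑ i ∈ T, τ i * (z i / ρ) = (∑ i ∈ T, τ i * z i) / ρ := by
      rw [Finset.sum_div]
      exact Finset.sum_congr rfl fun i _ => by ring
    have h5 : v (∑ i ∈ T, τ i * (z i / ρ)) < 1 := by
      rw [h4, map_div₀, div_lt_one hvρ0]
      exact hs
    exact (hr.ker _ h5.le).2 h5

end PKJ
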