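import Mathlib
import Pool.Agent.PKJ.Targets

/-!
RLJ: the relations as a subspace, the same for all absolute values.
-/

set_option autoImplicit false

namespace PKJ

open Polynomial

namespace RLJ_

/-- a finite sum of relations is a relation -/
theorem TR_sum {K : Type} [Field K] (ℓ : ℕ) (f : K[X]) (ζ : K) {n : ℕ} (x y : Fin n → K)
    (hadd : ∀ β β' : Fin n → K, SRK.TR ℓ f ζ x y β → SRK.TR ℓ f ζ x y β' →
      SRK.TR ℓ f ζ x y (β + β'))
    {ι : Type*} (s : Finset ι) (β : ι → Fin n → K) (h : ∀ i ∈ s, SRK.TR ℓ f ζ x y (β i)) :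
    SRK.TR ℓ f ζ x y (∑ i ∈ s, β i) := by
  classical
  induction s using Finset.induction_on with
  | empty =>
    refine ⟨fun _ _ => 0, by simp, 1, one_pos, 1, ?_⟩
    simp [SRK.dv, Ideal.one_eq_top]
  | insert a s ha ih =>
    rw [Finset.sum_insert ha]
    exact hadd _ _ (h a (Finset.mem_insert_self _ _))
      (ih fun i hi => h i (Finset.mem_insert_of_mem hi))

/-- change of the index set -/
theorem dv_reindex {K : Type} [Field K] (ℓ : ℕ) (f : K[X]) (ζ : K) {n n' : ℕ}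
    (x y : Fin n → K) (α : Fin n → Fin ℓ → ℕ) (S : Finset (Fin n)) (hS : ∀ i ∈ S, α i = 0)
    (σ : Fin n' ≃ {i : Fin n // i ∉ S}) :
    SRK.dv ℓ f ζ (fun i => x (σ i)) (fun i => y (σ i)) (fun i => α (σ i))
      = SRK.dv ℓ f ζ x y α := by
  classical
  unfold SRK.dv
  rw [← Finset.prod_subset (Finset.subset_univ Sᶜ) (f := fun i => ∏ j : Fin ℓ,
    SRK.pt ℓ f (x i) (ζ ^ (j : ℕ) * y i) ^ α i j)]
  · rw [← Equiv.prod_comp σ.symm]
    simp only [Equiv.apply_symm_apply]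
    rw [← Finset.prod_subtype (Sᶜ) (by simp) (fun i => ∏ j : Fin ℓ,
      SRK.pt ℓ f (x i) (ζ ^ (j : ℕ) * y i) ^ α i j)]
  · intro i _ hi
    have hi' : i ∈ S := by simpa using hi
    rw [hS i hi']
    simp

theorem fam_natDegree {S : Type} [Field S] {m : ℕ} (a : Fin m → S) :
    (SRK.fam a).natDegree = m := by
  unfold SRK.fam
  rw [Polynomial.natDegree_add_eq_left_of_degree_lt, Polynomial.natDegree_X_pow]
  rw [Polynomial.degree_X_pow]
  refine (Polynomial.degree_sum_le _ _).trans_lt ?_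
  refine (Finset.sup_lt_iff (WithBot.bot_lt_coe m)).2 ?_
  intro k _
  refine (Polynomial.degree_C_mul_X_pow_le _ _).trans_lt ?_
  have hk := k.2
  exact Nat.cast_lt.2 (by omega : m - 1 - (k : ℕ) < m)

/-- the scaled polynomial -/
theorem fam_scale {K : Type} [Field K] {m : ℕ} (a : Fin m → K) (u : K) (hu : u ≠ 0) :
    C (u ^ m) * SRK.fam (fun κ : Fin m => a κ / u ^ ((κ : ℕ) + 1))
      = (SRK.fam a).comp (C u * X) := by
  unfold SRK.fam
  rw [mul_add, add_comp, pow_comp, X_comp, Polynomial.sum_comp, Finset.mul_sum, mul_pow, ← C_pow]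
  congr 1
  refine Finset.sum_congr rfl fun κ _ => ?_
  rw [mul_comp, C_comp, pow_comp, X_comp, mul_pow, ← C_pow, ← mul_assoc, ← mul_assoc, ← C_mul,
    ← C_mul]
  congr 2
  have h1 : m = (m - 1 - (κ : ℕ)) + ((κ : ℕ) + 1) := by
    have := κ.2
    omega
  have h2 : u ^ m = u ^ (m - 1 - (κ : ℕ)) * u ^ ((κ : ℕ) + 1) := by
    rw [← pow_add, ← h1]
  rw [h2]
  field_simp

theorem fam_scale_eval {K : Type} [Field K] {m : ℕ} (a : Fin m → K) (u : K) (hu : u ≠ 0)
    (x : K) :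
    (SRK.fam (fun κ : Fin m => a κ / u ^ ((κ : ℕ) + 1))).eval (x / u)
      = (SRK.fam a).eval x / u ^ m := by
  have h := congrArg (Polynomial.eval (x / u)) (fam_scale a u hu)
  rw [eval_mul, eval_C, eval_comp, eval_mul, eval_C, eval_X, mul_div_cancel₀ x hu] at h
  rw [eq_div_iff (pow_ne_zero m hu), ← h]
  ring

theorem fam_scale_squarefree {K : Type} [Field K] {m : ℕ} (a : Fin m → K) (u : K)
    (hu : u ≠ 0) (h : Squarefree (SRK.fam a)) :
    Squarefree (SRK.fam (fun κ : Fin m => a κ / u ^ ((κ : ℕ) + 1))) := by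
  have hu1 : C u⁻¹ * C u = (1 : K[X]) := by rw [← C_mul, inv_mul_cancel₀ hu, C_1]
  have hinv : ∀ q : K[X], (q.comp (C u * X)).comp (C u⁻¹ * X) = q := by
    intro q
    rw [comp_assoc, mul_comp, C_comp, X_comp, ← mul_assoc, mul_comm (C u), hu1, one_mul,
      comp_X]
  have hinv' : ∀ q : K[X], (q.comp (C u⁻¹ * X)).comp (C u * X) = q := by
    intro q
    rw [comp_assoc, mul_comp, C_comp, X_comp, ← mul_assoc, hu1, one_mul, comp_X]
  intro d hd
  have h1 : d * d ∣ (SRK.fam a).comp (C u * X) := by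
    rw [← fam_scale a u hu]
    exact hd.mul_left _
  obtain ⟨q, hq⟩ := h1
  have h2 : (d.comp (C u⁻¹ * X)) * (d.comp (C u⁻¹ * X)) ∣ SRK.fam a := by
    refine ⟨q.comp (C u⁻¹ * X), ?_⟩
    rw [← mul_comp, ← mul_comp, ← hq, hinv]
  have h3 := h _ h2
  have h4 : IsUnit ((compRingHom (C u * X)) (d.comp (C u⁻¹ * X))) := h3.map _
  rw [coe_compRingHom_apply, hinv'] at h4
  exact h4

end RLJ_

open RLJ_ in
theorem p_RLJ (h1 : T_LLJ) (h2 : T_EMJ) (h3 : T_VI) (h4 : T_SCJ) (h5 : SRK.T_MOD.{0}) :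
    T_RLJ := by
  classical
  intro Ω _ _ _ ℓ m hℓ hlm hm a hsq ζ hζ g x y hy e hrel
  obtain ⟨α, hind, htor⟩ := hrel
  have hdeg : ¬ ℓ ∣ (SRK.fam a).natDegree := by rwa [fam_natDegree]
  obtain ⟨hadd, hsmul, hsat, hrep⟩ := h5 Ω ℓ ζ hζ _ hsq hdeg g x y hy
  -- the exponent `m'`
  obtain ⟨m', hm'⟩ : ∃ m' : ℕ, ℓ ∣ m * m' + 1 := by
    have hm0 : (m : ZMod ℓ) ≠ 0 := by
      rw [Ne, ZMod.natCast_eq_zero_iff]
      exact hlm
    refine ⟨(-(m : ZMod ℓ)⁻¹).val, ?_⟩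
    rw [← ZMod.natCast_eq_zero_iff]
    push_cast
    rw [ZMod.natCast_val, ZMod.cast_id', id, mul_neg, mul_inv_cancel₀ hm0]
    ring
  have hlm' : ¬ ℓ ∣ m' := by
    intro h
    have h6 : ℓ ∣ 1 := (Nat.dvd_add_right (h.mul_left m)).1 hm'
    exact hℓ.out.one_lt.ne' (Nat.dvd_one.1 h6)
  obtain ⟨φ, hφ⟩ := h2 Ω ℓ ζ hζ m' hlm'
  set A := Algebra.adjoin ℤ {ζ} with hA
  have hζF : ζ ∈ (IntermediateField.adjoin ℚ {ζ}) := IntermediateField.mem_adjoin_simple_self ℚ ζ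
  have hAF : ∀ β ∈ A, β ∈ (IntermediateField.adjoin ℚ {ζ}) := by
    intro β hβ
    have : A ≤ ((IntermediateField.adjoin ℚ {ζ}).toSubalgebra.restrictScalars ℤ) := by
      apply Algebra.adjoin_le
      intro z hz
      rw [Set.mem_singleton_iff.1 hz]
      exact hζF
    exact this hβ
  have hζA : ζ ∈ A := Algebra.subset_adjoin (Set.mem_singleton ζ)
  have hsumA : ∀ c : Fin ℓ → ℕ, ∑ j : Fin ℓ, (c j : Ω) * ζ ^ (j : ℕ) ∈ A := by
    intro c
    refine sum_mem fun j _ => mul_mem (natCast_mem A _) (pow_mem hζA _)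
  let row : Fin e → (Fin g → (IntermediateField.adjoin ℚ {ζ})) := fun k i => ⟨∑ j : Fin ℓ, (α k i j : Ω) * ζ ^ (j : ℕ),
    hAF _ (hsumA _)⟩
  let G : (Fin g → (IntermediateField.adjoin ℚ {ζ})) →ₗ[(IntermediateField.adjoin ℚ {ζ})] (Fin g → Ω) :=
    LinearMap.pi fun i => (Algebra.linearMap (IntermediateField.adjoin ℚ {ζ}) Ω).comp (LinearMap.proj i)
  have hindF : LinearIndependent (IntermediateField.adjoin ℚ {ζ}) row := by
    have hK : LinearIndependent (IntermediateField.adjoin ℚ {ζ})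
        (fun (k : Fin e) (i : Fin g) => ∑ j : Fin ℓ, (α k i j : Ω) * ζ ^ (j : ℕ)) :=
      hind.restrict_scalars (by
        intro x y hxy
        have : ((x : (IntermediateField.adjoin ℚ {ζ})) : Ω) * 1 = ((y : (IntermediateField.adjoin ℚ {ζ})) : Ω) * 1 := by
          simpa [Algebra.smul_def] using hxy
        exact Subtype.ext (by simpa using this))
    have hcomp : (fun (k : Fin e) (i : Fin g) => ∑ j : Fin ℓ, (α k i j : Ω) * ζ ^ (j : ℕ)) =
        G ∘ row := by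
      funext k i
      simp only [Function.comp, G, LinearMap.pi_apply, LinearMap.comp_apply, LinearMap.proj_apply,
        Algebra.linearMap_apply]
      rfl
    rw [hcomp] at hK
    exact LinearIndependent.of_comp G hK
  let U : Submodule (IntermediateField.adjoin ℚ {ζ}) (Fin g → (IntermediateField.adjoin ℚ {ζ})) := Submodule.span (IntermediateField.adjoin ℚ {ζ}) (Set.range row)
  have hU : Module.finrank (IntermediateField.adjoin ℚ {ζ}) U = e := by
    simpa using finrank_span_eq_card hindF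
  refine ⟨φ, U, hU, ?_⟩
  intro p v hp na hvp hlp u κ0 hu hκ hvu D z r0 hr0 hr1 hrp hz τ hτ hτD hvτ
  have : Fact p.Prime := ⟨hp⟩
  obtain ⟨hden, hcom⟩ := h3 Ω ℓ ζ hζ
  obtain ⟨γ, hγA, hvγ, hγτ⟩ := hcom v na φ (Fin g) τ hvτ
  have hκ0 : κ0 ≠ 0 := by
    intro h
    rw [h, zero_pow hℓ.out.ne_zero] at hκ
    exact pow_ne_zero m hu hκ.symm
  -- the relation `γ τ`
  obtain ⟨ψ, hψ⟩ := (Submodule.mem_span_range_iff_exists_fun (IntermediateField.adjoin ℚ {ζ})).1 hτ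
  have hψd := fun k : Fin e => hden (ψ k)
  choose q hq0 hqA using hψd
  set Q : ℕ := ∏ k, q k with hQ
  have hQ0 : Q ≠ 0 := Finset.prod_ne_zero_iff.2 fun k _ => hq0 k
  have hQK : (Q : Ω) ≠ 0 := by exact_mod_cast hQ0
  have hQψ : ∀ k, (Q : Ω) * (ψ k : Ω) ∈ A := by
    intro k
    have h6 : Q = (∏ l ∈ Finset.univ.erase k, q l) * q k :=
      (Finset.prod_erase_mul _ _ (Finset.mem_univ k)).symm
    rw [h6, Nat.cast_mul, mul_assoc]
    exact mul_mem (natCast_mem A _) (hqA k)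
  have hTR1 : SRK.TR ℓ (SRK.fam a) ζ x y
      (∑ k : Fin e, ((Q : Ω) * (ψ k : Ω)) • fun i => ∑ j : Fin ℓ, (α k i j : Ω) * ζ ^ (j : ℕ)) := by
    apply TR_sum ℓ (SRK.fam a) ζ _ _ hadd
    intro k _
    exact hsmul _ (hQψ k) _ ⟨α k, fun i => rfl, htor k⟩
  have hTR2 : SRK.TR ℓ (SRK.fam a) ζ x y ((Q : Ω) • fun i => (γ : Ω) * (τ i : Ω)) := by
    have h7 := hsmul (γ : Ω) hγA _ hTR1
    convert h7 using 1
    funext i
    have h8 : (τ i : Ω) = ∑ k, (ψ k : Ω) * ∑ j : Fin ℓ, (α k i j : Ω) * ζ ^ (j : ℕ) := by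
      rw [← hψ]
      simp only [Finset.sum_apply, Pi.smul_apply, smul_eq_mul]
      push_cast
      rfl
    simp only [Pi.smul_apply, Finset.sum_apply, smul_eq_mul]
    rw [h8, Finset.mul_sum, Finset.mul_sum, Finset.mul_sum]
    refine Finset.sum_congr rfl fun k _ => ?_
    ring
  have hTR3 : SRK.TR ℓ (SRK.fam a) ζ x y (fun i => (γ : Ω) * (τ i : Ω)) :=
    hsat _ (natCast_mem A Q) hQK _ hγτ hTR2
  obtain ⟨b, hb, hbtor⟩ := hTR3
  set b' : Fin g → Fin ℓ → ℕ := fun i => if i ∈ D then 0 else b i with hb'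
  have hrepb : ∀ i, (γ : Ω) * (τ i : Ω) = ∑ j : Fin ℓ, (b' i j : Ω) * ζ ^ (j : ℕ) := by
    intro i
    by_cases hi : i ∈ D
    · rw [hτD i hi]
      simp [hb', hi]
    · refine (hb i).trans ?_
      simp [hb', hi]
  have htor' : SRK.Tors ℓ (SRK.fam a) ζ x y b' := by
    apply hrep b'
    have h9 : (fun i => ∑ j : Fin ℓ, (b' i j : Ω) * ζ ^ (j : ℕ)) =
        fun i => (γ : Ω) * (τ i : Ω) := by
      funext i
      exact (hrepb i).symm
    rw [h9]
    exact ⟨b, hb, hbtor⟩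
  -- scaling and reindexing
  have hscl := h4 Ω ℓ m hℓ.out.pos a ζ u κ0 hu hκ g x y b' htor'
  have σ : Fin (Fintype.card {i : Fin g // i ∉ D}) ≃ {i : Fin g // i ∉ D} :=
    (Fintype.equivFin _).symm
  have hvu0 : 0 < v u := v.pos hu
  have hvκ : 0 < v κ0 := v.pos hκ0
  have hll := h1 Ω v p ℓ m na hvp hlp hlm hm (fun κ : Fin m => a κ / u ^ ((κ : ℕ) + 1))
    (by
      intro κ
      rw [map_div₀, map_pow]
      exact div_le_one_of_le₀ (hvu κ) (by positivity))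
    (fam_scale_squarefree a u hu hsq) ζ hζ _ (fun i => x (σ i) / u) (fun i => y (σ i) / κ0)
    (fun i => z (σ i)) r0
    (by
      intro i
      rw [fam_scale_eval a u hu, div_pow, hy, hκ])
    (by
      intro i
      have := (hz (σ i) (σ i).2).1
      rw [← mul_div_assoc, this, div_self hu])
    (by
      intro i
      have := (hz (σ i) (σ i).2).2.1
      have e1 : z (σ i) ^ m * (y (σ i) / κ0) - 1 = (z (σ i) ^ m * y (σ i) - κ0) / κ0 := by
        field_simp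
      rw [e1, map_div₀, div_lt_one hvκ]
      exact this)
    (fun i => (hz (σ i) (σ i).2).2.2) hr0 hr1 hrp (fun i => b' (σ i))
    (by
      obtain ⟨M, hM, h, hh⟩ := hscl
      refine ⟨M, hM, h, ?_⟩
      rw [← hh]
      congr 1
      exact dv_reindex ℓ _ ζ (fun i => x i / u) (fun i => y i / κ0) b' D (by
        intro i hi
        simp [hb', hi]) σ)
    m' hm'
  -- the coefficients
  have hcoef : ∀ i, ∑ j : Fin ℓ, (b' i j : Ω) * ζ ^ ((j : ℕ) * m') = φ γ * φ (τ i) := by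
    intro i
    have h10 : γ * τ i = ∑ j : Fin ℓ, (b' i j : (IntermediateField.adjoin ℚ {ζ})) *
        (IntermediateField.AdjoinSimple.gen ℚ ζ) ^ (j : ℕ) := by
      apply Subtype.ext
      refine (hrepb i).trans ?_
      push_cast
      rfl
    rw [← map_mul, h10, map_sum]
    refine Finset.sum_congr rfl fun j _ => ?_
    rw [map_mul, map_pow, hφ, map_natCast, ← pow_mul, mul_comm (j : ℕ) m']
  have h11 : ∑ i : Fin (Fintype.card {i : Fin g // i ∉ D}),
      (∑ j : Fin ℓ, (b' (σ i) j : Ω) * ζ ^ ((j : ℕ) * m')) * z (σ i)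
      = φ γ * ∑ i ∈ Dᶜ, φ (τ i) * z i := by
    rw [Finset.mul_sum, ← Equiv.sum_comp σ.symm]
    simp only [Equiv.apply_symm_apply]
    rw [← Finset.sum_subtype (Dᶜ) (by simp) (fun i =>
      (∑ j : Fin ℓ, (b' i j : Ω) * ζ ^ ((j : ℕ) * m')) * z i)]
    refine Finset.sum_congr rfl fun i _ => ?_
    rw [hcoef i, mul_assoc]
  rw [h11, map_mul, hvγ, one_mul] at hll
  exact hll

end PKJ
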