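import Mathlib
import Pool.Agent.PKJ.Targets

/-!
RT: roots of power series over the valuation ring.
-/

set_option autoImplicit false

namespace PKJ

namespace RT_

open PowerSeries

variable {Ω : Type} [Field Ω]

/-- Integral power series in `z ^ ℓ`. -/
def Good (v : AbsoluteValue Ω ℝ) (ℓ : ℕ) (F : PowerSeries Ω) : Prop :=
  Ib v F ∧ ∀ n, ¬ ℓ ∣ n → PowerSeries.coeff n F = 0

lemma sum_le_one {v : AbsoluteValue Ω ℝ} (hv : IsNonarchimedean v) {ι : Type} (s : Finset ι)
    (f : ι → Ω) (h : ∀ i ∈ s, v (f i) ≤ 1) : v (∑ i ∈ s, f i) ≤ 1 := by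
  classical
  induction s using Finset.induction_on with
  | empty => simp
  | insert a s ha ih =>
    rw [Finset.sum_insert ha]
    refine (hv _ _).trans (max_le (h a (Finset.mem_insert_self _ _)) (ih fun i hi => h i ?_))
    exact Finset.mem_insert_of_mem hi

lemma good_one (v : AbsoluteValue Ω ℝ) (ℓ : ℕ) : Good v ℓ 1 := by
  refine ⟨fun n => ?_, fun n hn => ?_⟩
  · rw [PowerSeries.coeff_one]
    split_ifs <;> simp
  · rw [PowerSeries.coeff_one, if_neg]
    rintro rfl
    exact hn (dvd_zero _)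

lemma good_mul {v : AbsoluteValue Ω ℝ} {ℓ : ℕ} (hv : IsNonarchimedean v) {F G : PowerSeries Ω}
    (hF : Good v ℓ F) (hG : Good v ℓ G) : Good v ℓ (F * G) := by
  refine ⟨fun n => ?_, fun n hn => ?_⟩
  · rw [PowerSeries.coeff_mul]
    apply sum_le_one hv
    intro i _
    rw [map_mul]
    exact mul_le_one₀ (hF.1 _) (v.nonneg _) (hG.1 _)
  · rw [PowerSeries.coeff_mul]
    apply Finset.sum_eq_zero
    rintro ⟨a, b⟩ hab
    rw [Finset.HasAntidiagonal.mem_antidiagonal] at hab
    simp only at hab ⊢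
    by_cases ha : ℓ ∣ a
    · have hb : ¬ ℓ ∣ b := fun hb => hn (hab ▸ dvd_add ha hb)
      rw [hG.2 b hb, mul_zero]
    · rw [hF.2 a ha, zero_mul]

lemma good_pow {v : AbsoluteValue Ω ℝ} {ℓ : ℕ} (hv : IsNonarchimedean v) {F : PowerSeries Ω}
    (hF : Good v ℓ F) (m : ℕ) : Good v ℓ (F ^ m) := by
  induction m with
  | zero => rw [pow_zero]; exact good_one v ℓ
  | succ m ih => rw [pow_succ]; exact good_mul hv ih hF

/-- The approximations. -/
noncomputable def P (ℓ : ℕ) (W : PowerSeries Ω) : ℕ → PowerSeries Ω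
  | 0 => 1
  | n + 1 => P ℓ W n + PowerSeries.monomial (n + 1)
      ((PowerSeries.coeff (n + 1) W - PowerSeries.coeff (n + 1) (P ℓ W n ^ ℓ)) / (ℓ : Ω))

lemma step_dvd (Q : PowerSeries Ω) (hQ : PowerSeries.constantCoeff Q = 1) (n : ℕ) (c : Ω) (m : ℕ) :
    (PowerSeries.X : PowerSeries Ω) ^ (n + 2) ∣
      (Q + PowerSeries.monomial (n + 1) c) ^ m - Q ^ m - (m : PowerSeries Ω) *
        PowerSeries.monomial (n + 1) c := by
  set M := PowerSeries.monomial (n + 1) c with hM
  have hMX : M = PowerSeries.C c * PowerSeries.X ^ (n + 1) := by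
    rw [hM, PowerSeries.monomial_eq_C_mul_X_pow]
  have h1 : ∀ F : PowerSeries Ω, PowerSeries.constantCoeff F = 0 →
      (PowerSeries.X : PowerSeries Ω) ^ (n + 2) ∣ M * F := by
    intro F hF
    obtain ⟨G, rfl⟩ := PowerSeries.X_dvd_iff.2 hF
    refine ⟨PowerSeries.C c * G, ?_⟩
    rw [hMX]
    ring
  induction m with
  | zero => simp
  | succ m ih =>
    have e : (Q + M) ^ (m + 1) - Q ^ (m + 1) - ((m + 1 : ℕ) : PowerSeries Ω) * M =
        (Q + M) * ((Q + M) ^ m - Q ^ m - (m : PowerSeries Ω) * M) +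
          (M * (Q ^ m - 1) + (m : PowerSeries Ω) * (M * (Q - 1)) +
            (m : PowerSeries Ω) * (M * M)) := by
      push_cast
      ring
    rw [e]
    apply dvd_add (Dvd.dvd.mul_left ih _)
    apply dvd_add (dvd_add _ _)
    · apply Dvd.dvd.mul_left
      apply h1
      rw [hMX]
      simp
    · apply h1
      simp [hQ]
    · apply Dvd.dvd.mul_left
      apply h1
      simp [hQ]

lemma P_const (ℓ : ℕ) (W : PowerSeries Ω) (n : ℕ) :
    PowerSeries.constantCoeff (P ℓ W n) = 1 := by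
  induction n with
  | zero => simp [P]
  | succ n ih =>
    rw [P, map_add, ih, PowerSeries.monomial_eq_C_mul_X_pow]
    simp

lemma P_good {v : AbsoluteValue Ω ℝ} {ℓ : ℕ} (hv : IsNonarchimedean v) (hℓ : v (ℓ : Ω) = 1)
    (W : PowerSeries Ω) (hW : Good v ℓ W) (n : ℕ) : Good v ℓ (P ℓ W n) := by
  induction n with
  | zero => exact good_one v ℓ
  | succ n ih =>
    have hp := good_pow hv ih ℓ
    refine ⟨fun j => ?_, fun j hj => ?_⟩
    · rw [P, map_add, PowerSeries.coeff_monomial]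
      refine (hv _ _).trans (max_le (ih.1 j) ?_)
      split_ifs with h
      · rw [map_div₀, hℓ, div_one, sub_eq_add_neg]
        refine (hv _ _).trans (max_le (hW.1 _) ?_)
        rw [v.map_neg]
        exact hp.1 _
      · simp
    · rw [P, map_add, PowerSeries.coeff_monomial, ih.2 j hj, zero_add]
      split_ifs with h
      · rw [← h, hW.2 j hj, hp.2 j hj, sub_zero, zero_div]
      · rfl

lemma P_pow {ℓ : ℕ} (h0 : (ℓ : Ω) ≠ 0) (W : PowerSeries Ω)
    (hW : PowerSeries.constantCoeff W = 1) (n : ℕ) :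
    ∀ j ≤ n, PowerSeries.coeff j (P ℓ W n ^ ℓ) = PowerSeries.coeff j W := by
  induction n with
  | zero =>
    intro j hj
    have : j = 0 := Nat.le_zero.1 hj
    subst this
    simp [P, hW]
  | succ n ih =>
    intro j hj
    have hd := step_dvd (P ℓ W n) (P_const ℓ W n) n
      ((PowerSeries.coeff (n + 1) W - PowerSeries.coeff (n + 1) (P ℓ W n ^ ℓ)) / (ℓ : Ω)) ℓ
    rw [PowerSeries.X_pow_dvd_iff] at hd
    have hd' := hd j (by omega)
    rw [map_sub, map_sub, sub_eq_zero, sub_eq_iff_eq_add] at hd'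
    rw [P, hd']
    have e : PowerSeries.coeff j ((ℓ : PowerSeries Ω) * PowerSeries.monomial (n + 1)
        ((PowerSeries.coeff (n + 1) W - PowerSeries.coeff (n + 1) (P ℓ W n ^ ℓ)) / (ℓ : Ω))) =
        if j = n + 1 then
          (PowerSeries.coeff (n + 1) W - PowerSeries.coeff (n + 1) (P ℓ W n ^ ℓ)) else 0 := by
      rw [← nsmul_eq_mul, map_nsmul, PowerSeries.coeff_monomial]
      split_ifs with h
      · rw [nsmul_eq_mul]
        field_simp
      · simp
    rw [e]
    split_ifs with h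
    · rw [h]; ring
    · rw [zero_add]
      exact ih j (by omega)

lemma P_stab (ℓ : ℕ) (W : PowerSeries Ω) (n j : ℕ) (hj : j ≤ n) :
    PowerSeries.coeff j (P ℓ W n) = PowerSeries.coeff j (P ℓ W j) := by
  induction n with
  | zero =>
    have : j = 0 := Nat.le_zero.1 hj
    rw [this]
  | succ n ih =>
    rcases Nat.lt_or_ge j (n + 1) with h | h
    · rw [P, map_add, PowerSeries.coeff_monomial, if_neg (by omega), add_zero]
      exact ih (by omega)
    · have : j = n + 1 := le_antisymm hj h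
      rw [this]

end RT_

open RT_ in
theorem p_RT : T_RT := by
  intro Ω _ v ℓ hv hℓ W hW0 hWi hWs
  have h0 : (ℓ : Ω) ≠ 0 := by
    intro h
    rw [h, map_zero] at hℓ
    exact zero_ne_one hℓ
  have hg := fun n => P_good hv hℓ W ⟨hWi, hWs⟩ n
  refine ⟨PowerSeries.mk fun n => PowerSeries.coeff n (P ℓ W n), ?_, ?_, ?_, ?_⟩
  · rw [← PowerSeries.coeff_zero_eq_constantCoeff_apply, PowerSeries.coeff_mk,
      PowerSeries.coeff_zero_eq_constantCoeff_apply, P_const]
  · intro n
    rw [PowerSeries.coeff_mk]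
    exact (hg n).1 n
  · intro n hn
    rw [PowerSeries.coeff_mk]
    exact (hg n).2 n hn
  · ext n
    set U : PowerSeries Ω := PowerSeries.mk fun n => PowerSeries.coeff n (P ℓ W n) with hU
    have h1 : (PowerSeries.X : PowerSeries Ω) ^ (n + 1) ∣ U - P ℓ W n := by
      rw [PowerSeries.X_pow_dvd_iff]
      intro j hj
      rw [map_sub, hU, PowerSeries.coeff_mk, P_stab ℓ W n j (by omega), sub_self]
    have h2 : (PowerSeries.X : PowerSeries Ω) ^ (n + 1) ∣ U ^ ℓ - P ℓ W n ^ ℓ :=
      h1.trans (sub_dvd_pow_sub_pow _ _ _)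
    rw [PowerSeries.X_pow_dvd_iff] at h2
    have h3 := h2 n (by omega)
    rw [map_sub, sub_eq_zero] at h3
    rw [h3]
    exact P_pow h0 W hW0 n n le_rfl

end PKJ
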