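import Mathlib
import Pool.Agent.PKJ.Targets

set_option autoImplicit false

namespace PKJ

namespace SCJ_

open Polynomial

theorem exists_fun {α : Type} (s : Multiset α) (m : ℕ) (hs : Multiset.card s = m) :
    ∃ ω : Fin m → α, s = (Finset.univ : Finset (Fin m)).val.map ω := by
  obtain ⟨l, rfl⟩ := Quot.exists_rep s
  subst hs
  refine ⟨fun i => l.get (Fin.cast (by simp) i), ?_⟩
  rw [Fin.univ_val_map]
  have : List.ofFn (fun i : Fin (Multiset.card (Quot.mk _ l : Multiset α)) => l.get (Fin.cast (by simp) i)) = l := by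
    apply List.ext_get
    · simp
    · intro n h1 h2
      simp
  rw [this]
  rfl

theorem fam_eval {S : Type} [CommRing S] {m : ℕ} (a : Fin m → S) (t : S) :
    (SRK.fam a).eval t = t ^ m + ∑ k : Fin m, a k * t ^ (m - 1 - (k : ℕ)) := by
  simp [SRK.fam, eval_finsetSum]

theorem fam_monic {S : Type} [CommRing S] [Nontrivial S] {m : ℕ} (a : Fin m → S) :
    (SRK.fam a).Monic ∧ (SRK.fam a).natDegree = m := by
  have hd : (∑ k : Fin m, C (a k) * X ^ (m - 1 - (k : ℕ)) : S[X]).degree < m := by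
    refine (degree_sum_le _ _).trans_lt ?_
    rw [Finset.sup_lt_iff (by exact_mod_cast WithBot.bot_lt_coe m)]
    intro k _
    refine (degree_C_mul_X_pow_le _ _).trans_lt ?_
    have := k.isLt
    exact_mod_cast (by omega : m - 1 - (k : ℕ) < m)
  refine ⟨monic_X_pow_add hd, ?_⟩
  have h2 : (SRK.fam a).degree = m := by
    unfold SRK.fam
    rw [degree_add_eq_left_of_degree_lt]
    · simp
    · simpa using hd
  exact natDegree_eq_of_degree_eq_some h2

theorem fam_ff {Ω : Type} [Field Ω] [IsAlgClosed Ω] {m : ℕ} (a : Fin m → Ω) :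
    ∃ ω : Fin m → Ω, SRK.fam a = SRK.ff ω := by
  have hs : (SRK.fam a).Splits := IsAlgClosed.splits _
  have hc : Multiset.card (SRK.fam a).roots = m := by
    rw [← hs.natDegree_eq_card_roots, (fam_monic a).2]
  obtain ⟨ω, hω⟩ := exists_fun _ m hc
  refine ⟨ω, ?_⟩
  have h1 := hs.eq_prod_roots_of_monic (fam_monic a).1
  rw [hω, Multiset.map_map] at h1
  rw [h1]
  rfl

end SCJ_

theorem p_SCJ (h : SRK.T_SCL.{0}) : T_SCJ := by
  intro Ω _ _ ℓ m hℓ a ζ u κ0 hu hκ N x y α hT
  obtain ⟨ω, hω⟩ := SCJ_.fam_ff (fun κ : Fin m => a κ / u ^ ((κ : ℕ) + 1))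
  have hκ0 : κ0 ≠ 0 := by
    rintro rfl
    rw [zero_pow hℓ.ne'] at hκ
    exact pow_ne_zero m hu hκ.symm
  have hfam : SRK.fam a = SRK.ff (fun w => u * ω w) := by
    apply Polynomial.funext
    intro t
    have h1 := SCJ_.fam_eval (fun κ : Fin m => a κ / u ^ ((κ : ℕ) + 1)) (t / u)
    rw [hω] at h1
    have h2 : (SRK.ff (fun w => u * ω w)).eval t = u ^ m * (SRK.ff ω).eval (t / u) := by
      simp only [SRK.ff, Polynomial.eval_prod, Polynomial.eval_sub, Polynomial.eval_X,
        Polynomial.eval_C]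
      have : (u ^ m : Ω) = ∏ _w : Fin m, u := by simp
      rw [this, ← Finset.prod_mul_distrib]
      refine Finset.prod_congr rfl fun w _ => ?_
      field_simp
    rw [h2, h1, SCJ_.fam_eval, mul_add, Finset.mul_sum]
    congr 1
    · rw [div_pow]; field_simp
    · refine Finset.sum_congr rfl fun k _ => ?_
      have hk := k.isLt
      obtain ⟨j, hj⟩ : ∃ j, m = (k : ℕ) + 1 + j := ⟨m - 1 - k, by omega⟩
      have hj' : m - 1 - (k : ℕ) = j := by omega
      rw [hj', div_pow]
      have : (u ^ m : Ω) = u ^ ((k : ℕ) + 1) * u ^ j := by rw [← pow_add, ← hj]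
      rw [this]
      field_simp
  rw [hω]
  apply h Ω ℓ hℓ m ω ζ u κ0 hu hκ
  rw [← hfam]
  have hx : (fun i => u * (x i / u)) = x := by
    funext i; field_simp
  have hy : (fun i => κ0 * (y i / κ0)) = y := by
    funext i; field_simp
  rw [hx, hy]
  exact hT

end PKJ
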