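import Pool.Agent.PKJ.Targets
import Pool.Agent.PKE.STP

/-! From a bad multisection to the residue fields of all the embeddings. -/

set_option autoImplicit false
set_option maxHeartbeats 4000000

namespace PKJ

open MvPolynomial RD PKD

open PKE (sec flat Dat Rz)
open PKE.STP_

/-- the place property of the relations on one curve -/
def PlP {Ω : Type} [Field Ω] [CharZero Ω] (ℓ : ℕ) {m g : ℕ} (a : Fin m → Ω) (ζ : Ω)
    (x y : Fin g → Ω) (φ : IntermediateField.adjoin ℚ {ζ} →+* Ω)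
    (U : Submodule (IntermediateField.adjoin ℚ {ζ}) (Fin g → IntermediateField.adjoin ℚ {ζ})) :
    Prop :=
  ∀ (p : ℕ) (v : AbsoluteValue Ω ℝ), p.Prime → IsNonarchimedean v → v (p : Ω) < 1 →
      ℓ + 2 ≤ p → ∀ u κ0 : Ω, u ≠ 0 → κ0 ^ ℓ = u ^ m →
      (∀ κ : Fin m, v (a κ) ≤ v u ^ ((κ : ℕ) + 1)) →
      ∀ (D : Finset (Fin g)) (z : Fin g → Ω) (r0 : ℝ), 0 < r0 → r0 < 1 →
      r0 ^ (p - 1) < v (p : Ω) →
      (∀ i, i ∉ D → z i ^ ℓ * x i = u ∧ v (z i ^ m * y i - κ0) < v κ0 ∧ v (z i) = r0) →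
      ∀ τ ∈ U, (∀ i ∈ D, τ i = 0) → (∀ i, v (φ (τ i)) ≤ 1) →
        v (∑ i ∈ Dᶜ, φ (τ i) * z i) < r0

namespace STJ_

/-- the relations on one curve, also for `e = 0` -/
theorem blk (hRLJ : T_RLJ) {Ω : Type} [Field Ω] [CharZero Ω] [IsAlgClosed Ω] (ℓ m : ℕ)
    (hℓ : ℓ.Prime) (hm : ¬ ℓ ∣ m) (hm2 : 2 ≤ m) (a : Fin m → Ω) (g : ℕ) (x : Fin g → Ω) (e : ℕ)
    (h : e ≠ 0 → Squarefree (SRK.fam a) ∧ ∃ (ζ : Ω) (y : Fin g → Ω), IsPrimitiveRoot ζ ℓ ∧
      (∀ i, y i ^ ℓ = (SRK.fam a).eval (x i)) ∧ SRK.Rel ℓ (SRK.fam a) ζ x y e) :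
    ∃ (ζ : Ω) (y : Fin g → Ω) (φ : IntermediateField.adjoin ℚ {ζ} →+* Ω)
      (U : Submodule (IntermediateField.adjoin ℚ {ζ}) (Fin g → IntermediateField.adjoin ℚ {ζ})),
      IsPrimitiveRoot ζ ℓ ∧ (∀ i, y i ^ ℓ = (SRK.fam a).eval (x i)) ∧
      Module.finrank (IntermediateField.adjoin ℚ {ζ}) U = e ∧ PlP ℓ a ζ x y φ U := by
  haveI : Fact ℓ.Prime := ⟨hℓ⟩
  by_cases he : e = 0
  · haveI : NeZero (ℓ : Ω) := ⟨Nat.cast_ne_zero.2 hℓ.ne_zero⟩
    obtain ⟨ζ, hζ⟩ := HasEnoughRootsOfUnity.exists_primitiveRoot Ω ℓ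
    have hy : ∀ i, ∃ y : Ω, y ^ ℓ = (SRK.fam a).eval (x i) := fun i =>
      IsAlgClosed.exists_pow_nat_eq _ hℓ.pos
    choose y hy using hy
    refine ⟨ζ, y, (algebraMap (IntermediateField.adjoin ℚ {ζ}) Ω), ⊥, hζ, hy, ?_, ?_⟩
    · rw [he]; exact finrank_bot _ _
    · intro p v hp hna hvp hlp u κ0 hu hκ ha D z r0 hr0 hr1 hr2 hz τ hτ hτD hτi
      have : τ = 0 := (Submodule.mem_bot _).1 hτ
      subst this
      simpa using hr0
  · obtain ⟨hsq, ζ, y, hζ, hy, hrel⟩ := h he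
    obtain ⟨φ, U, hU, hpl⟩ := hRLJ Ω ℓ m hm hm2 a hsq ζ hζ g x y hy e hrel
    exact ⟨ζ, y, φ, U, hζ, hy, hU, hpl⟩

end STJ_

open STJ_

theorem step (hRLJ : T_RLJ) (hPBJ : T_PBJ) (hPZJ : T_PZJ) {Ω kk : Type} [Field Ω] [CharZero Ω]
    [IsAlgClosed Ω] [Field kk] {p : ℕ} {v : AbsoluteValue Ω ℝ} {r : Ω → kk}
    (hr : Red v r) (hp : p.Prime) (hvp : v (p : Ω) < 1) {m : ℕ} (g ℓ M : Fin m → ℕ)
    (hℓ : ∀ k, (ℓ k).Prime) (hM : ∀ k, ¬ ℓ k ∣ M k) (hM2 : ∀ k, 2 ≤ M k)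
    (hlp : ∀ k, ℓ k + 2 ≤ p)
    {d n D N : ℕ} (σ : Fin N → Ω →+* Ω)
    (Ds : (k : Fin m) → ℕ → Finset (ZMod (ℓ k) → Dat (g k) kk))
    (hDs : ∀ (k : Fin m) (e : ℕ) (ζ : Ω), IsPrimitiveRoot ζ (ℓ k) →
      ∀ U : Submodule (IntermediateField.adjoin ℚ {ζ})
        (Fin (g k) → IntermediateField.adjoin ℚ {ζ}),
        Module.finrank (IntermediateField.adjoin ℚ {ζ}) U = e →
        ∃ D ∈ Ds k e, ∀ (s : ℕ) (ψ : IntermediateField.adjoin ℚ {ζ} →+* Ω),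
          ψ (IntermediateField.AdjoinSimple.gen ℚ ζ) = ζ ^ s →
          Rz (fun x => v (ψ x)) (fun x => r (ψ x)) U e (D (s : ZMod (ℓ k))))
    (ρ : Fin n → ℕ)
    (b : Fin n → ℕ → MvPolynomial (Fin d) Ω)
    (A : (k : Fin m) → Fin (M k) → MvPolynomial (Fin d ⊕ Fin n) Ω)
    (hb : ∀ j l, l < ρ j → (b j l).totalDegree ≤ ρ j - l)
    (hbi : ∀ i j l, l < ρ j → ∀ t, v (σ i ((b j l).coeff t)) ≤ 1)
    (hA : ∀ i k κ t, v (σ i ((A k κ).coeff t)) ≤ 1)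
    (hdeg : ∀ k (κ : Fin (M k)), (A k κ).totalDegree ≤ ((κ : ℕ) + 1) * D)
    (β : Ω) (c : (Σ k, Fin (g k)) × MonS d n D → Ω) (hβ0 : β ≠ 0)
    (hβ : ∀ i, v (σ i β) ≤ v (p : Ω)) (hc : ∀ i u, v (σ i (β * c u)) ≤ 1)
    (hbad : Bad g ℓ M D ρ b A c) :
    ∃ (Q : Finset (Fin d)) (e : Fin m → ℕ) (De : (k : Fin m) → ZMod (ℓ k) → Dat (g k) kk),
      (∀ k, e k ≤ g k) ∧ ∑ k, e k + Q.card = d + 1 ∧ (∀ k, De k ∈ Ds k (e k)) ∧
      ∀ j : Fin N, ∃ (cl : (k : Fin m) → ZMod (ℓ k)) (S S' J W : Finset (Σ k, Fin (g k))),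
        Disjoint S' W ∧ J ⊆ W ∧ S'.card + J.card + Q.card = d + 1 ∧
        ∃ ty x' s' h, Sys ρ (bty (fun x => r (σ j x)) ρ b ty) (uty kk ty) (al0 D ty) Q
          (fun i => ℓ i.1) S' J W
          (flat (fun k _ => De k (cl k)) (fun _ => true) S)
          (fun u => r (σ j (β * c u))) x' s' h := by
  classical
  obtain ⟨Q, G, hG, hbad⟩ := hbad
  obtain ⟨u, hu⟩ := exists_point p hp.ne_zero G hG
  obtain ⟨x, s, hon, hxQ, e, he, hrel⟩ := hbad _ hu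
  choose ζ y φ U hζ hy hU hPl using fun k => blk hRLJ (ℓ k) (M k) (hℓ k) (hM k) (hM2 k)
    (fun κ => eval (Sum.elim x s) (A k κ)) (g k) (fun i => PKE.fval D c x s ⟨k, i⟩) (e k) (hrel k)
  choose De hDe1 hDe2 using fun k => hDs k (e k) (ζ k) (hζ k) (U k) (hU k)
  have heg : ∀ k, e k ≤ g k := by
    intro k
    rw [← hU k]
    refine (Submodule.finrank_le _).trans ?_
    rw [Module.finrank_fin_fun]
  refine ⟨Q, e, De, heg, he, hDe1, fun j => ?_⟩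
  obtain ⟨u0, ty, x', s', hu0, hev, hx0, hbase, hal, hfv⟩ :=
    hPBJ Ω kk (v.comp (σ j).injective) (fun x => r (σ j x)) (hr.comp (σ j)) d n D
      (Σ k, Fin (g k)) ρ b (fun i l hl => ⟨hb i l hl, fun t => hbi j i l hl t⟩) β c
      (fun u => hc j u) x s hon
  choose z κ0 r0 h hκ0 hr0 hr1 hrp hz hrelk using fun k => by
    haveI : Fact (ℓ k).Prime := ⟨hℓ k⟩
    exact hPZJ Ω kk p (v.comp (σ j).injective) (fun x => r (σ j x)) (hr.comp (σ j)) hp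
      (by change v (σ j (p : Ω)) < 1; rw [map_natCast]; exact hvp) (ℓ k) (M k) (hM k) (hlp k)
      (fun κ => eval (Sum.elim x s) (A k κ)) β u0 hβ0
      (by change v (σ j β) ≤ v (σ j (p : Ω)); rw [map_natCast]; exact hβ j) hu0
      (fun κ => hev (A k κ) ((κ : ℕ) + 1) (hdeg k κ) (fun t => hA j k κ t)) (g k)
      (fun i => PKE.fval D c x s ⟨k, i⟩) (y k) (fun i => (hfv ⟨k, i⟩).1) (hy k)
  -- the bad indices
  set S : Finset (Σ k, Fin (g k)) := Finset.univ.filter fun i =>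
    r (σ j (β * PKE.fval D c x s i / u0)) = 0 with hSdef
  have hSm : ∀ k i, (⟨k, i⟩ : Σ k, Fin (g k)) ∈ S ↔
      r (σ j (β * PKE.fval D c x s ⟨k, i⟩ / u0)) = 0 := by
    intro k i
    simp [hSdef]
  -- the embedding
  have hcl : ∀ k, ∃ s : ℕ, ((σ j).comp (φ k)) (IntermediateField.AdjoinSimple.gen ℚ (ζ k)) =
      ζ k ^ s := by
    intro k
    have h1 : (((σ j).comp (φ k)) (IntermediateField.AdjoinSimple.gen ℚ (ζ k))) ^ ℓ k = 1 := by
      rw [← map_pow]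
      have h2 : (IntermediateField.AdjoinSimple.gen ℚ (ζ k)) ^ ℓ k = 1 := by
        apply Subtype.ext
        simpa using (hζ k).pow_eq_one
      rw [h2, map_one]
    haveI : NeZero (ℓ k) := ⟨(hℓ k).ne_zero⟩
    obtain ⟨i, -, hi⟩ := (hζ k).eq_pow_of_pow_eq_one h1
    exact ⟨i, hi.symm⟩
  choose sk hsk using hcl
  set cl : (k : Fin m) → ZMod (ℓ k) := fun k => (sk k : ZMod (ℓ k)) with hcldef
  have hRz : ∀ k, Rz (fun x : IntermediateField.adjoin ℚ {ζ k} => v (σ j (φ k x)))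
      (fun x => r (σ j (φ k x))) (U k) (e k) (De k (cl k)) := fun k =>
    hDe2 k (sk k) ((σ j).comp (φ k)) (hsk k)
  -- the pivots
  set J0 : Finset (Σ k, Fin (g k)) := Finset.univ.sigma fun k => (De k (cl k) (sec S k)).1 with hJ0
  have hJ0m : ∀ (k : Fin m) (i : Fin (g k)), (⟨k, i⟩ : Σ k, Fin (g k)) ∈ J0 ↔
      i ∈ (De k (cl k) (sec S k)).1 := by
    intro k i
    rw [hJ0, Finset.mem_sigma]
    simp
  have hdis : Disjoint J0 S := by
    rw [Finset.disjoint_left]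
    rintro ⟨k, i⟩ hi hi'
    rw [hJ0m] at hi
    have h1 := (hRz k (sec S k)).1
    exact (Finset.disjoint_left.1 h1) hi ((mem_sec S k i).2 hi')
  have hcard : ∑ k, e k ≤ J0.card + S.card := by
    rw [hJ0, Finset.card_sigma, ← card_sec S, ← Finset.sum_add_distrib]
    exact Finset.sum_le_sum fun k _ => (hRz k (sec S k)).2.1
  have hrows : ∀ (k : Fin m) (i : Fin (g k)), i ∈ (De k (cl k) (sec S k)).1 →
      (De k (cl k) (sec S k)).2 i i = 1 ∧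
      (∀ i' ∈ (De k (cl k) (sec S k)).1, i' ≠ i → (De k (cl k) (sec S k)).2 i i' = 0) ∧
      ∑ i' ∈ (sec S k)ᶜ, (De k (cl k) (sec S k)).2 i i' * h k i' = 0 := by
    intro k i hi
    obtain ⟨-, -, τ, hτ⟩ := hRz k (sec S k)
    obtain ⟨h1, h2, h3, h4, h5⟩ := hτ i hi
    refine ⟨?_, ?_, ?_⟩
    · rw [← (h5 i).2, h2]
      simp [hr.one]
    · intro i' hi' hne
      rw [← (h5 i').2, h3 i' hi' hne]
      simp [hr.zero]
    · have h6 := hPl k p (v.comp (σ j).injective) hp (hr.comp (σ j)).na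
        (by change v (σ j (p : Ω)) < 1; rw [map_natCast]; exact hvp) (hlp k) u0 (κ0 k) hu0
        (hκ0 k) (fun κ => hev (A k κ) ((κ : ℕ) + 1) (hdeg k κ) (fun t => hA j k κ t))
        (sec S k) (z k) (r0 k) (hr0 k) (hr1 k) (hrp k)
        (fun i' hi' => by
          have h7 : r (σ j (β * PKE.fval D c x s ⟨k, i'⟩ / u0)) ≠ 0 := fun hc' =>
            hi' ((mem_sec S k i').2 ((hSm k i').2 hc'))
          have h8 := hz k i' h7
          exact ⟨h8.1, h8.2.1, h8.2.2.1⟩) (τ i) h1 h4 (fun i' => (h5 i').1)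
      have h7 := hrelk k (sec S k)ᶜ (by
          intro i' hi' hc'
          exact (Finset.mem_compl.1 hi') ((mem_sec S k i').2 ((hSm k i').2 hc')))
        (fun i' => φ k (τ i i')) (fun i' => (h5 i').1) h6
      rw [← h7]
      refine Finset.sum_congr rfl fun i' _ => ?_
      rw [← (h5 i').2]
  have hQ0 : ∀ i ∈ Q, x' i = 0 := by
    intro i hi
    refine hx0 i ?_
    change v (σ j (x i)) < 1
    rw [hxQ i hi, map_mul, map_natCast, map_intCast, v.map_mul]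
    calc v (p : Ω) * v ((u i : ℤ) : Ω) ≤ v (p : Ω) * 1 :=
          mul_le_mul_of_nonneg_left (na_int hr.na _) (v.nonneg _)
      _ < 1 := by rw [mul_one]; exact hvp
  have hS : ∀ i ∈ S, ∑ α, r (σ j (β * c (i, α))) * eval (Sum.elim x' s') (uty kk ty α) = 0 := by
    rintro ⟨k, i⟩ hi
    rw [← (hfv ⟨k, i⟩).2]
    exact (hSm k i).1 hi
  have hW : ∀ i : Σ k, Fin (g k), i ∉ S → h i.1 i.2 ^ ℓ i.1 *
      ∑ α, r (σ j (β * c (i, α))) * eval (Sum.elim x' s') (uty kk ty α) = 1 := by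
    rintro ⟨k, i⟩ hi
    rw [← (hfv ⟨k, i⟩).2]
    exact (hz k i (fun hc' => hi ((hSm k i).2 hc'))).2.2.2
  by_cases hSc : ∑ k, e k ≤ S.card
  · obtain ⟨S1, hS1, hS1c⟩ := Finset.exists_subset_card_eq hSc
    refine ⟨cl, S, S1, ∅, ∅, Finset.disjoint_empty_right _, Finset.empty_subset _, by
      rw [hS1c, Finset.card_empty, add_zero]; exact he, ty, x', s', fun i => h i.1 i.2, hbase, hQ0,
      hal, fun i hi => hS i (hS1 hi), by simp, by simp⟩
  · push Not at hSc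
    obtain ⟨J1, hJ1, hJ1c⟩ := Finset.exists_subset_card_eq
      (show ∑ k, e k - S.card ≤ J0.card by omega)
    have hJ1W : J1 ⊆ Sᶜ := by
      intro i hi
      rw [Finset.mem_compl]
      exact fun h' => (Finset.disjoint_left.1 hdis) (hJ1 hi) h'
    refine ⟨cl, S, S, J1, Sᶜ, disjoint_compl_right, hJ1W, by omega, ty, x', s',
      fun i => h i.1 i.2, hbase, hQ0, hal,
      fun i hi => hS i hi, fun i hi => hW i (Finset.mem_compl.1 hi), ?_⟩
    rintro ⟨k, i⟩ hi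
    obtain ⟨h1, h2, h3⟩ := hrows k i ((hJ0m k i).1 (hJ1 hi))
    -- the sum over the whole complement
    have h4 : ∑ y ∈ Sᶜ, flat (fun k _ => De k (cl k)) (fun _ => true) S ⟨k, i⟩ y *
        h y.1 y.2 = 0 := by
      have e1 : ∑ y ∈ Sᶜ, flat (fun k _ => De k (cl k)) (fun _ => true) S ⟨k, i⟩ y * h y.1 y.2 =
          ∑ y ∈ (Finset.univ.sigma fun k' => (sec S k')ᶜ),
            flat (fun k _ => De k (cl k)) (fun _ => true) S ⟨k, i⟩ y * h y.1 y.2 := by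
        congr 1
        ext ⟨k', i'⟩
        simp [mem_sec]
      rw [e1, Finset.sum_sigma, Finset.sum_eq_single k]
      · rw [← neg_eq_zero, ← Finset.sum_neg_distrib, ← h3]
        refine Finset.sum_congr rfl fun i' _ => ?_
        rw [flat_same]
        ring
      · intro k' _ hk
        refine Finset.sum_eq_zero fun i' _ => ?_
        rw [flat_ne _ _ _ _ _ hk, zero_mul]
      · intro h'
        exact absurd (Finset.mem_univ _) h'
    rw [← Finset.sum_sdiff hJ1W] at h4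
    have h5 : ∑ y ∈ J1, flat (fun k _ => De k (cl k)) (fun _ => true) S ⟨k, i⟩ y * h y.1 y.2 =
        - h k i := by
      rw [Finset.sum_eq_single_of_mem _ hi]
      · rw [flat_same, h1, neg_mul, one_mul]
      · rintro ⟨k', i'⟩ hi' hne
        by_cases hk : k' = k
        · subst hk
          have hne' : i' ≠ i := by
            rintro rfl
            exact hne rfl
          rw [flat_same, h2 i' ((hJ0m k' i').1 (hJ1 hi')) hne', neg_zero, zero_mul]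
        · rw [flat_ne _ _ _ _ _ hk, zero_mul]
    rw [h5] at h4
    linear_combination -h4

end PKJ
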