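import Mathlib
import Pool.Agent.PKJ.Targets
import Pool.Agent.PKD.RedLem

/-!
UNI: units of the ring of bounded Laurent series.
-/

set_option autoImplicit false

namespace PKJ

open PKD Filter Topology

namespace UNI_

/-- a sequence of reals tending to `0` with a positive value attains its maximum; take the least
index -/
theorem exists_least_max {u : ℕ → ℝ} (hu : Tendsto u atTop (𝓝 0)) {n0 : ℕ} (hn0 : 0 < u n0) :
    ∃ a, (∀ j, u j ≤ u a) ∧ ∀ j, j < a → u j < u a := by
  have h1 : ∃ a, ∀ j, u j ≤ u a := by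
    have h2 : ∀ᶠ j in atTop, u j < u n0 := hu.eventually (gt_mem_nhds hn0)
    rw [eventually_atTop] at h2
    obtain ⟨N, hN⟩ := h2
    obtain ⟨a, -, ha⟩ := Finset.exists_max_image (Finset.range (N + n0 + 1)) u
      ⟨0, Finset.mem_range.2 (by omega)⟩
    refine ⟨a, fun j => ?_⟩
    by_cases hj : j < N + n0 + 1
    · exact ha j (Finset.mem_range.2 hj)
    · exact (hN j (by omega)).le.trans (ha n0 (Finset.mem_range.2 (by omega)))
  classical
  refine ⟨Nat.find h1, Nat.find_spec h1, fun j hj => ?_⟩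
  by_contra hcon
  push Not at hcon
  exact Nat.find_min h1 hj fun i => (Nat.find_spec h1 i).trans hcon

variable {Ω : Type} [Field Ω] {v : AbsoluteValue Ω ℝ}

theorem ps_unit (na : IsNonarchimedean v) {V V' : PowerSeries Ω} {C C' : ℝ}
    (hV0 : PowerSeries.constantCoeff V = 1) (hV0' : PowerSeries.constantCoeff V' = 1)
    (hC : ∀ n, v (PowerSeries.coeff n V) ≤ C) (hC' : ∀ n, v (PowerSeries.coeff n V') ≤ C')
    (hVV : V * V' = 1) : Ib v V := by
  intro n0
  by_contra hcon
  push Not at hcon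
  -- choice of the radius
  have hρ : ∃ ρ : ℝ, 0 < ρ ∧ ρ < 1 ∧ 1 < v (PowerSeries.coeff n0 V) * ρ ^ n0 := by
    have h1 : Tendsto (fun ρ : ℝ => v (PowerSeries.coeff n0 V) * ρ ^ n0) (𝓝[<] 1)
        (𝓝 (v (PowerSeries.coeff n0 V) * 1 ^ n0)) := by
      have hc : Continuous (fun ρ : ℝ => v (PowerSeries.coeff n0 V) * ρ ^ n0) := by fun_prop
      exact (hc.tendsto 1).mono_left nhdsWithin_le_nhds
    rw [one_pow, mul_one] at h1
    have h2 : ∀ᶠ ρ : ℝ in 𝓝[<] 1, 1 < v (PowerSeries.coeff n0 V) * ρ ^ n0 :=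
      h1.eventually (lt_mem_nhds hcon)
    have h3 : ∀ᶠ ρ : ℝ in 𝓝[<] 1, ρ < 1 := eventually_mem_nhdsWithin
    have h4 : ∀ᶠ ρ : ℝ in 𝓝[<] 1, 0 < ρ :=
      (lt_mem_nhds (show (0 : ℝ) < 1 by norm_num)).filter_mono nhdsWithin_le_nhds
    obtain ⟨ρ, hρ⟩ := (h2.and (h3.and h4)).exists
    exact ⟨ρ, hρ.2.2, hρ.2.1, hρ.1⟩
  obtain ⟨ρ, hρ0, hρ1, hρn⟩ := hρ
  have hlim : ∀ (W : PowerSeries Ω) (B : ℝ), (∀ n, v (PowerSeries.coeff n W) ≤ B) →
      Tendsto (fun n => v (PowerSeries.coeff n W) * ρ ^ n) atTop (𝓝 0) := by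
    intro W B hB
    have h1 : Tendsto (fun n : ℕ => B * ρ ^ n) atTop (𝓝 0) := by
      have := (tendsto_pow_atTop_nhds_zero_of_lt_one hρ0.le hρ1).const_mul B
      rwa [mul_zero] at this
    refine squeeze_zero (fun n => by positivity) (fun n => ?_) h1
    exact mul_le_mul_of_nonneg_right (hB n) (by positivity)
  have hone : (0 : ℝ) < v (PowerSeries.coeff 0 V') * ρ ^ 0 := by
    rw [PowerSeries.coeff_zero_eq_constantCoeff_apply, hV0']
    simp
  obtain ⟨a, ha1, ha2⟩ := exists_least_max (hlim V C hC) (n0 := n0) (by linarith)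
  obtain ⟨b, hb1, hb2⟩ := exists_least_max (hlim V' C' hC') hone
  have hA : 1 < v (PowerSeries.coeff a V) * ρ ^ a := hρn.trans_le (ha1 n0)
  have hB : 0 < v (PowerSeries.coeff b V') * ρ ^ b := hone.trans_le (hb1 0)
  have ha0 : a ≠ 0 := by
    rintro rfl
    rw [PowerSeries.coeff_zero_eq_constantCoeff_apply, hV0] at hA
    simp at hA
  -- the coefficient of the product
  have hcoef : ∑ p ∈ Finset.HasAntidiagonal.antidiagonal (a + b),
      PowerSeries.coeff p.1 V * PowerSeries.coeff p.2 V' = 0 := by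
    rw [← PowerSeries.coeff_mul, hVV, PowerSeries.coeff_one, if_neg (by omega)]
  have hmem : (a, b) ∈ Finset.HasAntidiagonal.antidiagonal (a + b) := by
    rw [Finset.HasAntidiagonal.mem_antidiagonal]
  rw [← Finset.add_sum_erase _ _ hmem] at hcoef
  have hpos : 0 < v (PowerSeries.coeff a V * PowerSeries.coeff b V') := by
    rw [v.map_mul]
    have h1 : 0 < v (PowerSeries.coeff a V) := by
      by_contra h
      push Not at h
      have : v (PowerSeries.coeff a V) * ρ ^ a ≤ 0 := mul_nonpos_of_nonpos_of_nonneg h (by positivity)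
      linarith
    have h2 : 0 < v (PowerSeries.coeff b V') := by
      by_contra h
      push Not at h
      have : v (PowerSeries.coeff b V') * ρ ^ b ≤ 0 := mul_nonpos_of_nonpos_of_nonneg h (by positivity)
      linarith
    exact mul_pos h1 h2
  have hlt : v (∑ p ∈ (Finset.HasAntidiagonal.antidiagonal (a + b)).erase (a, b),
      PowerSeries.coeff p.1 V * PowerSeries.coeff p.2 V')
      < v (PowerSeries.coeff a V * PowerSeries.coeff b V') := by
    refine na_sum_lt na _ _ _ hpos fun p hp => ?_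
    rw [Finset.mem_erase, Finset.HasAntidiagonal.mem_antidiagonal] at hp
    obtain ⟨hp1, hp2⟩ := hp
    rw [v.map_mul, v.map_mul]
    have e1 : v (PowerSeries.coeff p.1 V) * v (PowerSeries.coeff p.2 V') * ρ ^ (a + b)
        = (v (PowerSeries.coeff p.1 V) * ρ ^ p.1) * (v (PowerSeries.coeff p.2 V') * ρ ^ p.2) := by
      rw [← hp2, pow_add]; ring
    have e2 : v (PowerSeries.coeff a V) * v (PowerSeries.coeff b V') * ρ ^ (a + b)
        = (v (PowerSeries.coeff a V) * ρ ^ a) * (v (PowerSeries.coeff b V') * ρ ^ b) := by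
      rw [pow_add]; ring
    have hρab : 0 < ρ ^ (a + b) := by positivity
    refine lt_of_mul_lt_mul_right ?_ hρab.le
    rw [e1, e2]
    rcases lt_trichotomy p.1 a with h | h | h
    · exact (mul_le_mul_of_nonneg_left (hb1 _) (by positivity)).trans_lt
        (mul_lt_mul_of_pos_right (ha2 _ h) hB)
    · exact absurd (Prod.ext h (by omega : p.2 = b)) hp1
    · have h3 : p.2 < b := by omega
      exact mul_lt_mul' (ha1 _) (hb2 _ h3) (by positivity) (by linarith)
  have h5 : PowerSeries.coeff a V * PowerSeries.coeff b V'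
      = -∑ p ∈ (Finset.HasAntidiagonal.antidiagonal (a + b)).erase (a, b),
      PowerSeries.coeff p.1 V * PowerSeries.coeff p.2 V' := eq_neg_of_add_eq_zero_left hcoef
  rw [h5, v.map_neg] at hlt
  exact lt_irrefl _ hlt

end UNI_

open UNI_ HahnSeries in
theorem p_UNI : T_UNI := by
  intro Ω _ v na F G hF hG hFG
  obtain ⟨C, hC⟩ := hF
  obtain ⟨C', hC'⟩ := hG
  have hF0 : F ≠ 0 := by
    rintro rfl
    rw [zero_mul] at hFG
    exact zero_ne_one hFG
  have hG0 : G ≠ 0 := by
    rintro rfl
    rw [mul_zero] at hFG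
    exact zero_ne_one hFG
  have hord : F.order + G.order = 0 := by
    rw [← HahnSeries.order_mul hF0 hG0, hFG, HahnSeries.order_one]
  set P : PowerSeries Ω := LaurentSeries.powerSeriesPart F with hP
  set P' : PowerSeries Ω := LaurentSeries.powerSeriesPart G with hP'
  have hFP : (single F.order 1 : LaurentSeries Ω) * (P : LaurentSeries Ω) = F :=
    LaurentSeries.single_order_mul_powerSeriesPart F
  have hGP : (single G.order 1 : LaurentSeries Ω) * (P' : LaurentSeries Ω) = G :=
    LaurentSeries.single_order_mul_powerSeriesPart G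
  have hPP : P * P' = 1 := by
    have h1 : ((P * P' : PowerSeries Ω) : LaurentSeries Ω) = ((1 : PowerSeries Ω)) := by
      have h2 : (single F.order 1 : LaurentSeries Ω) * (single G.order 1 : LaurentSeries Ω)
          = 1 := by
        rw [HahnSeries.single_mul_single, hord, one_mul]
        rfl
      calc ((P * P' : PowerSeries Ω) : LaurentSeries Ω)
          = ((single F.order 1 : LaurentSeries Ω) * (single G.order 1 : LaurentSeries Ω))
            * ((P : LaurentSeries Ω) * (P' : LaurentSeries Ω)) := by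
            rw [h2, one_mul, map_mul]
        _ = ((single F.order 1 : LaurentSeries Ω) * (P : LaurentSeries Ω))
            * ((single G.order 1 : LaurentSeries Ω) * (P' : LaurentSeries Ω)) := by ring
        _ = ((1 : PowerSeries Ω)) := by rw [hFP, hGP, hFG, map_one]
    exact HahnSeries.ofPowerSeries_injective h1
  set c : Ω := PowerSeries.constantCoeff P with hc
  set c' : Ω := PowerSeries.constantCoeff P' with hc'
  have hcc : c * c' = 1 := by
    rw [hc, hc', ← map_mul, hPP, map_one]
  have hc0 : c ≠ 0 := left_ne_zero_of_mul (hcc.trans_ne one_ne_zero)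
  refine ⟨c, F.order, PowerSeries.C c⁻¹ * P, hc0, ?_, ?_, ?_⟩
  · rw [map_mul, PowerSeries.constantCoeff_C, ← hc, inv_mul_cancel₀ hc0]
  · refine ps_unit na (V' := PowerSeries.C c * P') (C := v c⁻¹ * C) (C' := v c * C')
      ?_ ?_ ?_ ?_ ?_
    · rw [map_mul, PowerSeries.constantCoeff_C, ← hc, inv_mul_cancel₀ hc0]
    · rw [map_mul, PowerSeries.constantCoeff_C, ← hc', hcc]
    · intro n
      rw [PowerSeries.coeff_C_mul, v.map_mul, hP, LaurentSeries.powerSeriesPart_coeff]
      exact mul_le_mul_of_nonneg_left (hC _) (v.nonneg _)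
    · intro n
      rw [PowerSeries.coeff_C_mul, v.map_mul, hP', LaurentSeries.powerSeriesPart_coeff]
      exact mul_le_mul_of_nonneg_left (hC' _) (v.nonneg _)
    · have h1 : (PowerSeries.C c⁻¹ : PowerSeries Ω) * PowerSeries.C c = 1 := by
        rw [← map_mul, inv_mul_cancel₀ hc0, map_one]
      calc PowerSeries.C c⁻¹ * P * (PowerSeries.C c * P')
          = (PowerSeries.C c⁻¹ * PowerSeries.C c) * (P * P') := by ring
        _ = 1 := by rw [h1, hPP, one_mul]
  · rw [map_mul, HahnSeries.ofPowerSeries_C, HahnSeries.C_apply, ← mul_assoc,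
      HahnSeries.single_mul_single, add_zero, mul_inv_cancel₀ hc0]
    exact hFP.symm

end PKJ
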