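import Pool.Agent.PKJ.Targets

/-!
MP_28d749_ag, project PKJ, job VI: denominators in the cyclotomic field.
-/

set_option autoImplicit false

namespace PKJ

namespace VI_

open scoped nonZeroDivisors

section abs

variable {Ω : Type} [Field Ω]

lemma v_nat (v : AbsoluteValue Ω ℝ) (hv : IsNonarchimedean v) (n : ℕ) : v (n : Ω) ≤ 1 := by
  induction n with
  | zero => simp
  | succ n ih =>
    push_cast
    exact (hv _ _).trans (max_le ih (by simp))

lemma v_int (v : AbsoluteValue Ω ℝ) (hv : IsNonarchimedean v) (n : ℤ) : v (n : Ω) ≤ 1 := by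
  obtain ⟨k, rfl | rfl⟩ := n.eq_nat_or_neg
  · simpa using v_nat v hv k
  · simpa using v_nat v hv k

lemma v_root (v : AbsoluteValue Ω ℝ) {z : Ω} {n : ℕ} (hn : n ≠ 0) (hz : z ^ n = 1) :
    v z = 1 := by
  have h : v z ^ n = 1 := by rw [← map_pow, hz, map_one]
  exact (pow_eq_one_iff_of_nonneg (v.nonneg z) hn).mp h

lemma v_adj {F : Type} [Field F] (v : AbsoluteValue Ω ℝ) (hv : IsNonarchimedean v)
    (ψ : F →+* Ω) {z : F} {n : ℕ} (hn : n ≠ 0) (hz : z ^ n = 1) {a : F}
    (ha : a ∈ Algebra.adjoin ℤ {z}) : v (ψ a) ≤ 1 := by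
  induction ha using Algebra.adjoin_induction with
  | mem x hx =>
    rw [Set.mem_singleton_iff] at hx
    subst hx
    exact (v_root v hn (by rw [← map_pow, hz, map_one])).le
  | algebraMap m =>
    have : ψ (algebraMap ℤ F m) = (m : Ω) := by simp
    rw [this]
    exact v_int v hv m
  | add x y _ _ hx hy =>
    rw [map_add]
    exact (hv _ _).trans (max_le hx hy)
  | mul x y _ _ hx hy =>
    rw [map_mul, map_mul]
    exact mul_le_one₀ hx (v.nonneg _) hy

end abs

/-- invertibility of the fractional ideal `(1, x)` -/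
lemma dedekind {A F : Type} [CommRing A] [IsDedekindDomain A] [Field F] [Algebra A F]
    [IsFractionRing A F] (x : F) :
    ∃ b b' c c' : A, algebraMap A F b + algebraMap A F b' * x = 1 ∧
      algebraMap A F b * x = algebraMap A F c ∧ algebraMap A F b' * x = algebraMap A F c' := by
  set J : FractionalIdeal A⁰ F := 1 + FractionalIdeal.spanSingleton A⁰ x with hJ
  have h1J : (1 : F) ∈ J := by
    rw [hJ, FractionalIdeal.mem_add]
    exact ⟨1, FractionalIdeal.one_mem_one A⁰, 0, FractionalIdeal.zero_mem _, by simp⟩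
  have hxJ : x ∈ J := by
    rw [hJ, FractionalIdeal.mem_add]
    exact ⟨0, FractionalIdeal.zero_mem _, x, FractionalIdeal.mem_spanSingleton_self A⁰ x, by simp⟩
  have hJ0 : J ≠ 0 := by
    intro h
    rw [h] at h1J
    exact one_ne_zero ((FractionalIdeal.mem_zero_iff A⁰).mp h1J)
  have h1 : (1 : F) ∈ J * J⁻¹ := by
    rw [mul_inv_cancel₀ hJ0]
    exact FractionalIdeal.one_mem_one A⁰
  rw [hJ, add_mul, one_mul, ← hJ, FractionalIdeal.mem_add] at h1
  obtain ⟨i, hi, j, hj, hij⟩ := h1
  rw [FractionalIdeal.mem_singleton_mul] at hj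
  obtain ⟨y, hy, rfl⟩ := hj
  have key : ∀ t ∈ J⁻¹, (∃ b, algebraMap A F b = t) ∧ ∃ c, algebraMap A F c = t * x := by
    intro t ht
    rw [FractionalIdeal.mem_inv_iff hJ0] at ht
    constructor
    · have := ht 1 h1J
      rw [mul_one, FractionalIdeal.mem_one_iff] at this
      exact this
    · have := ht x hxJ
      rw [FractionalIdeal.mem_one_iff] at this
      exact this
  obtain ⟨⟨b, hb⟩, c, hc⟩ := key i hi
  obtain ⟨⟨b', hb'⟩, c', hc'⟩ := key y hy
  refine ⟨b, b', c, c', ?_, ?_, ?_⟩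
  · rw [hb, hb', mul_comm y x]; exact hij
  · rw [hb, hc]
  · rw [hb', hc']

end VI_

open VI_ in
theorem p_VI : T_VI := by
  intro Ω _ _ ℓ hℓ ζ hζ
  have hℓ0 : ℓ ≠ 0 := hℓ.out.ne_zero
  have : NeZero ℓ := ⟨hℓ0⟩
  have hcyc : IsCyclotomicExtension {ℓ} ℚ (IntermediateField.adjoin ℚ ({ζ} : Set Ω)) := by
    have hi : IsIntegral ℚ ζ := (hζ.isIntegral (Nat.pos_of_ne_zero hℓ0)).tower_top
    change IsCyclotomicExtension {ℓ} ℚ (IntermediateField.adjoin ℚ ({ζ} : Set Ω)).toSubalgebra
    rw [IntermediateField.adjoin_simple_toSubalgebra_of_isAlgebraic hi.isAlgebraic]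
    exact hζ.adjoin_isCyclotomicExtension ℚ
  have hnf : NumberField (IntermediateField.adjoin ℚ ({ζ} : Set Ω)) :=
    IsCyclotomicExtension.numberField {ℓ} ℚ _
  set F := IntermediateField.adjoin ℚ ({ζ} : Set Ω) with hF
  set z : F := ⟨ζ, IntermediateField.mem_adjoin_simple_self ℚ ζ⟩ with hz
  have hzp : IsPrimitiveRoot z ℓ := by
    rw [← IsPrimitiveRoot.coe_submonoidClass_iff]
    exact hζ
  have hzl : z ^ ℓ = 1 := hzp.pow_eq_one
  have hic : IsIntegralClosure (Algebra.adjoin ℤ ({z} : Set F)) ℤ F :=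
    IsCyclotomicExtension.Rat.isIntegralClosure_adjoin_singleton_of_prime hzp
  have hint : ∀ x : F, IsIntegral ℤ x → x ∈ Algebra.adjoin ℤ ({z} : Set F) := by
    intro x hx
    obtain ⟨y, hy⟩ := (IsIntegralClosure.isIntegral_iff
      (A := Algebra.adjoin ℤ ({z} : Set F))).mp hx
    rw [← hy]
    exact y.2
  have hmap : ∀ x : F, x ∈ Algebra.adjoin ℤ ({z} : Set F) →
      (x : Ω) ∈ Algebra.adjoin ℤ ({ζ} : Set Ω) := by
    intro x hx
    induction hx using Algebra.adjoin_induction with
    | mem x hx =>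
      rw [Set.mem_singleton_iff] at hx
      subst hx
      exact Algebra.subset_adjoin rfl
    | algebraMap m =>
      have : ((algebraMap ℤ F m : F) : Ω) = algebraMap ℤ Ω m := by simp
      rw [this]
      exact Subalgebra.algebraMap_mem _ m
    | add x y _ _ hx hy => exact Subalgebra.add_mem _ hx hy
    | mul x y _ _ hx hy => exact Subalgebra.mul_mem _ hx hy
  refine ⟨?_, ?_⟩
  · intro x
    have halg : IsAlgebraic ℤ x := by
      have : IsAlgebraic ℚ x := Algebra.IsAlgebraic.isAlgebraic x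
      exact (IsFractionRing.isAlgebraic_iff ℤ ℚ F).mpr this
    obtain ⟨y, hy0, hy⟩ := halg.exists_integral_multiple
    refine ⟨y.natAbs, by simpa using hy0, ?_⟩
    have h1 := hmap _ (hint _ hy)
    have h2 : (((y • x : F)) : Ω) = (y : Ω) * x := by
      rw [zsmul_eq_mul]; push_cast; rfl
    rw [h2] at h1
    rcases Int.natAbs_eq y with e | e
    · have h3 : (y : Ω) = ((y.natAbs : ℕ) : Ω) := by
        conv_lhs => rw [e]
        simp
      rw [← h3]
      exact h1
    · have h3 : (y : Ω) = -((y.natAbs : ℕ) : Ω) := by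
        conv_lhs => rw [e]
        simp
      have h4 : ((y.natAbs : ℕ) : Ω) = -(y : Ω) := by rw [h3, neg_neg]
      rw [h4, neg_mul]
      exact Subalgebra.neg_mem _ h1
  · intro v hv ψ ι _ τ hτ
    have hvA : ∀ a : NumberField.RingOfIntegers F, v (ψ (a : F)) ≤ 1 := fun a =>
      v_adj v hv ψ hℓ0 hzl (hint _ a.isIntegral_coe)
    have hone : ∀ x : F, v (ψ x) ≤ 1 → ∃ b c : NumberField.RingOfIntegers F,
        (b : F) * x = c ∧ v (ψ (b : F)) = 1 := by
      intro x hx
      obtain ⟨b, b', c, c', h1, h2, h3⟩ :=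
        dedekind (A := NumberField.RingOfIntegers F) (F := F) x
      by_contra hcon
      push Not at hcon
      have e1 : v (ψ (b : F)) < 1 := lt_of_le_of_ne (hvA b) (hcon b c h2)
      have e2 : v (ψ (b' : F)) < 1 := lt_of_le_of_ne (hvA b') (hcon b' c' h3)
      have e3 : v (ψ ((b : F) + b' * x)) < 1 := by
        rw [map_add]
        refine (hv _ _).trans_lt (max_lt e1 ?_)
        rw [map_mul, map_mul]
        exact mul_lt_one_of_nonneg_of_lt_one_left (v.nonneg _) e2 hx
      have e4 : (b : F) + b' * x = 1 := h1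
      rw [e4, map_one, map_one] at e3
      exact lt_irrefl _ e3
    choose b c hbc hb using fun i => hone (τ i) (hτ i)
    have := Fintype.ofFinite ι
    classical
    refine ⟨∏ i, (b i : F), ?_, ?_, ?_⟩
    · refine hmap _ (hint _ ?_)
      exact IsIntegral.prod _ (fun i _ => (b i).isIntegral_coe)
    · rw [map_prod, map_prod]
      exact Finset.prod_eq_one (fun i _ => hb i)
    · intro i
      have e : (∏ j, (b j : F)) * τ i = (∏ j ∈ Finset.univ.erase i, (b j : F)) * (c i : F) := by
        rw [← Finset.mul_prod_erase _ _ (Finset.mem_univ i), ← hbc i]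
        ring
      have e' : ((∏ j, (b j : F) : F) : Ω) * (τ i : Ω) = (((∏ j, (b j : F)) * τ i : F) : Ω) := rfl
      rw [e', e]
      refine hmap _ (hint _ ?_)
      exact IsIntegral.mul (IsIntegral.prod _ (fun i _ => (b i).isIntegral_coe))
        (c i).isIntegral_coe

end PKJ
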