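import Pool.Agent.PKD.All
import Pool.Agent.PKE.All
import Pool.Agent.SRK.All
import Pool.Agent.PKJ.RT
import Pool.Agent.PKJ.PHI
import Pool.Agent.PKJ.BDD
import Pool.Agent.PKJ.LAM
import Pool.Agent.PKJ.UNI
import Pool.Agent.PKJ.PTI
import Pool.Agent.PKJ.ORD
import Pool.Agent.PKJ.NMP
import Pool.Agent.PKJ.ORH
import Pool.Agent.PKJ.GBD
import Pool.Agent.PKJ.PW
import Pool.Agent.PKJ.LLJ
import Pool.Agent.PKJ.EMJ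
import Pool.Agent.PKJ.VI
import Pool.Agent.PKJ.FRJ
import Pool.Agent.PKJ.DTJ
import Pool.Agent.PKJ.SCJ
import Pool.Agent.PKJ.RLJ
import Pool.Agent.PKJ.PBJ
import Pool.Agent.PKJ.PZJ
import Pool.Agent.PKJ.ELJ
import Pool.Agent.PKJ.STJ
import Pool.Agent.PKJ.CRJ
import Pool.Agent.PKJ.FIJ

/-! Assembly of project PKJ. -/

set_option autoImplicit false

namespace PKJ

theorem all_JQ : SRK.T_JQ.{0} := SRK.p_JQ SRK.p_BAS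
theorem all_NMJ : SRK.T_NMJ.{0} := SRK.p_NMJ SRK.p_PT all_JQ SRK.p_BAS SRK.p_SGE
theorem all_MOD : SRK.T_MOD.{0} := SRK.p_MOD (SRK.p_SUB SRK.p_DOM SRK.p_PT)
theorem all_PHI : T_PHI := p_PHI p_RT
theorem all_ORH : T_ORH := p_ORH p_ORD (p_NMP all_NMJ all_JQ SRK.p_BAS)
theorem all_LLJ : T_LLJ :=
  p_LLJ all_PHI p_BDD (p_LAM SRK.p_BAS) p_UNI p_PTI all_ORH p_GBD p_PW
theorem all_RLJ : T_RLJ := p_RLJ all_LLJ p_EMJ p_VI (p_SCJ SRK.p_SCL) all_MOD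
theorem all_DTJ : T_DTJ := p_DTJ PKE.p_RAT PKE.p_ECH (p_FRJ p_VI) p_EMJ
theorem all_ELJ : T_ELJ := p_ELJ PKD.p_NFB
theorem all_CRJ : T_CRJ :=
  p_CRJ all_RLJ p_PBJ p_PZJ all_DTJ all_ELJ PKD.p_CNT PKD.p_EXP PKD.p_ALM PKD.p_EMB
theorem all_FIJ : T_FIJ := p_FIJ all_CRJ PKE.all_SV3

end PKJ
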