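import Mathlib
import Pool.Agent.PKJ.Targets

/-!
# PKJ-EMJ: embeddings of the cyclotomic field
-/

set_option autoImplicit false

namespace PKJ

/-- EMJ: embeddings of the cyclotomic field -/
theorem p_EMJ : T_EMJ := by
  intro Ω _ _ ℓ hℓ ζ hζ s hs
  have hpos : 0 < ℓ := hℓ.out.pos
  have hcop : s.Coprime ℓ := ((Nat.Prime.coprime_iff_not_dvd hℓ.out).2 hs).symm
  have hζs : IsPrimitiveRoot (ζ ^ s) ℓ := hζ.pow_of_coprime s hcop
  have hint : IsIntegral ℚ ζ := (hζ.isIntegral hpos).tower_top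
  have h1 : minpoly ℚ ζ = minpoly ℚ (ζ ^ s) := by
    rw [← Polynomial.cyclotomic_eq_minpoly_rat hζ hpos,
      ← Polynomial.cyclotomic_eq_minpoly_rat hζs hpos]
  have h2 : ζ ^ s ∈ (minpoly ℚ ζ).aroots Ω := by
    rw [Polynomial.mem_aroots]
    refine ⟨minpoly.ne_zero hint, ?_⟩
    rw [h1]
    exact minpoly.aeval _ _
  refine ⟨((IntermediateField.algHomAdjoinIntegralEquiv ℚ hint).symm ⟨ζ ^ s, h2⟩).toRingHom, ?_⟩
  exact IntermediateField.algHomAdjoinIntegralEquiv_symm_apply_gen ℚ hint ⟨ζ ^ s, h2⟩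

end PKJ
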